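import Pool.Agent.SDN.St2

/-!
# TRE: compactified trees (MP_3b2a37_an). Definitions
-/

set_option autoImplicit false

namespace TRE

open Set Topology Filter

/-- `L` is the one-point compactification, with the point `o` at infinity (not comparable with the other points), of a tree
with its interval topology (if `L` is compact and Hausdorff): the sets `Iic t` are well-ordered, clopen, and the intervals
`Ioc s t` form a base at `t` (for the minimal points `t` the set `Iic t = {t}` is open). -/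
structure TreeTop (L : Type) [TopologicalSpace L] [PartialOrder L] (o : L) : Prop where
  up : ∀ t : L, o ≤ t → t = o
  dn : ∀ t : L, t ≤ o → t = o
  chain : ∀ t r s : L, r ≤ t → s ≤ t → r ≤ s ∨ s ≤ r
  wf : WellFounded ((· < ·) : L → L → Prop)
  clopen : ∀ t : L, t ≠ o → IsClopen (Iic t)
  base : ∀ t : L, t ≠ o → ∀ V ∈ 𝓝 t, (∃ s, s < t ∧ Ioc s t ⊆ V) ∨ ∀ s, ¬ s < t

/-- `ρ` is increasing, has no bad points and is constant on no ever-branching subset -/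
structure GoodRho (L : Type) [PartialOrder L] (o : L) (ρ : L → ℝ) : Prop where
  mono : ∀ s t : L, s ≤ t → ρ s ≤ ρ t
  bad : ∀ t : L, t ≠ o → ∃ ε : ℝ, 0 < ε ∧ {u : L | t ⋖ u ∧ ρ u < ρ t + ε}.Finite
  ever : ∀ E : Set L, E.Nonempty → (∀ x ∈ E, ∃ y ∈ E, ∃ z ∈ E, x ≤ y ∧ x ≤ z ∧ ¬ y ≤ z ∧ ¬ z ≤ y) →
    ∃ x ∈ E, ∃ y ∈ E, ρ x ≠ ρ y

/-- normalized weights: `F t` is the finite set of the successors `u` of `t` with `w u = w t`; for all other successors `u`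
of `t`: `w t < g (c t) ≤ w u`; `w` is left-continuous at the limit nodes -/
structure Flow (L : Type) [PartialOrder L] (o : L) (w : L → ℝ) (F : L → Finset L) (c : L → ℕ) (g : ℕ → ℝ) : Prop where
  w_nonneg : ∀ t, 0 ≤ w t
  w_le : ∀ t, w t ≤ 1
  w_o : w o = 1
  mono : ∀ s t : L, s ≤ t → w s ≤ w t
  mem_F : ∀ t : L, t ≠ o → ∀ u, u ∈ F t ↔ t ⋖ u ∧ w u = w t
  card_F : ∀ t, (F t).card ≤ c t
  lt_g : ∀ t : L, t ≠ o → w t < g (c t)
  g_le : ∀ t : L, t ≠ o → ∀ u, t ⋖ u → w u = w t ∨ g (c t) ≤ w u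
  lim : ∀ t : L, t ≠ o → (∀ s, ¬ s ⋖ t) → (∃ s, s < t) → ∀ r : ℝ, (∀ s, s < t → w s ≤ r) → w t ≤ r
  ever : ∀ E : Set L, E.Nonempty → (∀ x ∈ E, ∃ y ∈ E, ∃ z ∈ E, x ≤ y ∧ x ≤ z ∧ ¬ y ≤ z ∧ ¬ z ≤ y) →
    ∃ x ∈ E, ∃ y ∈ E, w x ≠ w y

/-- weights of the pairs `(s, t)`: for every `s` they are in `c_0` in `t`; if two points `s₁`, `s₂` are above different
successors `u₁, u₂ ∈ F t` of `t`, with `w s₁ = w s₂ = w t`, then one of the pairs `(s₁, t)`, `(s₂, t)` has positive weight -/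
structure Lam (L : Type) [PartialOrder L] (o : L) (w : L → ℝ) (F : L → Finset L) (lam : L → L → ℝ) : Prop where
  nonneg : ∀ s t, 0 ≤ lam s t
  le_one : ∀ s t, lam s t ≤ 1
  self : ∀ s, 0 < lam s s
  fin : ∀ s, ∀ δ : ℝ, 0 < δ → {t | δ < lam s t}.Finite
  pair : ∀ t : L, t ≠ o → ∀ u₁ ∈ F t, ∀ u₂ ∈ F t, u₁ ≠ u₂ → ∀ s₁ s₂ : L, u₁ ≤ s₁ → u₂ ≤ s₂ → w s₁ = w t →
    w s₂ = w t → 0 < lam s₁ t ∨ 0 < lam s₂ t

/-- the indicator function of the clopen interval `Ioc s t` (for `s, t ≠ o`, otherwise `0`) -/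
noncomputable def chi {L : Type} [TopologicalSpace L] [PartialOrder L] (s t : L) : C(L, ℝ) :=
  open Classical in
  if h : IsClopen (Ioc s t) then ⟨(Ioc s t).indicator (fun _ => (1 : ℝ)), h.continuous_indicator continuous_const⟩ else 0

end TRE
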