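import Pool.Agent.TRE.St

/-!
# TRE: the weights of the pairs
-/

set_option autoImplicit false

namespace TRE

open Set Topology Filter SDN

/-- the property of the function `D` above the point `x` -/
def TBx.P {L : Type} [PartialOrder L] (w : L → ℝ) (F : L → Finset L) (x : L) (D : L → Set L) : Prop :=
  (∀ s, (D s).Countable) ∧ ∀ t, x ≤ t → w t = w x → ∀ u₁ ∈ F t, ∀ u₂ ∈ F t, u₁ ≠ u₂ → ∀ s₁ s₂, u₁ ≤ s₁ → u₂ ≤ s₂ →
    w s₁ = w t → w s₂ = w t → t ∈ D s₁ ∨ t ∈ D s₂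

theorem TBx.P_mono {L : Type} [PartialOrder L] {w : L → ℝ} {F : L → Finset L} {x x' : L} {D : L → Set L}
    (h : TBx.P w F x D) (hx : x ≤ x') (hw : w x' = w x) : TBx.P w F x' D :=
  ⟨h.1, fun t ht hwt => h.2 t (hx.trans ht) (hwt.trans hw)⟩

theorem TBx.least {L : Type} [PartialOrder L] (hwf : WellFounded ((· < ·) : L → L → Prop))
    (hch : ∀ t r s : L, r ≤ t → s ≤ t → r ≤ s ∨ s ≤ r) (p : L → Prop) (y : L) (h : ∃ z, z ≤ y ∧ p z) :
    ∃ z, z ≤ y ∧ p z ∧ ∀ z', z' ≤ y → p z' → z ≤ z' := by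
  obtain ⟨z, hz, hmin⟩ := hwf.has_min {z | z ≤ y ∧ p z} h
  refine ⟨z, hz.1, hz.2, fun z' h1 h2 => ?_⟩
  rcases hch y z z' hz.1 h1 with h3 | h3
  · exact h3
  · rcases h3.lt_or_eq with h4 | h4
    · exact absurd h4 (hmin z' ⟨h1, h2⟩)
    · exact h4.ge

theorem TBx.all {L : Type} [PartialOrder L] {o : L} {w : L → ℝ} {F : L → Finset L} {c : L → ℕ} {g : ℕ → ℝ}
    (hup : ∀ t : L, o ≤ t → t = o) (hdn : ∀ t : L, t ≤ o → t = o)
    (hch : ∀ t r s : L, r ≤ t → s ≤ t → r ≤ s ∨ s ≤ r)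
    (hwf : WellFounded ((· < ·) : L → L → Prop)) (hF : Flow L o w F c g) : ∀ x : L, x ≠ o → ∃ D, TBx.P w F x D := by
  classical
  by_contra hcon
  push Not at hcon
  obtain ⟨x₀, hx₀, hno⟩ := hcon
  have hno' : ¬ ∃ D, TBx.P w F x₀ D := fun ⟨D, hD⟩ => hno D hD
  have hex : ∃ x, (x₀ ≤ x ∧ w x = w x₀ ∧ ¬ ∃ D, TBx.P w F x D) ∧
      ∀ y z, (x₀ ≤ y ∧ w y = w x₀ ∧ ¬ ∃ D, TBx.P w F y D) → (x₀ ≤ z ∧ w z = w x₀ ∧ ¬ ∃ D, TBx.P w F z D) →
        x ≤ y → x ≤ z → y ≤ z ∨ z ≤ y := by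
    by_contra hcon
    obtain ⟨y, hy, z, hz, hne⟩ := hF.ever {x | x₀ ≤ x ∧ w x = w x₀ ∧ ¬ ∃ D, TBx.P w F x D} ⟨x₀, le_rfl, rfl, hno'⟩ (by
      intro x hx
      by_contra h1
      refine hcon ⟨x, hx, fun y z hy hz hxy hxz => ?_⟩
      by_contra h2
      rw [not_or] at h2
      exact h1 ⟨y, hy, z, hz, hxy, hxz, h2.1, h2.2⟩)
    exact hne (hy.2.1.trans hz.2.1.symm)
  obtain ⟨x, ⟨hx1, hx2, hx3⟩, hcomp⟩ := hex
  apply hx3
  have hxo : ∀ t, x ≤ t → t ≠ o := by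
    intro t ht h
    exact hx₀ (hdn x₀ (h ▸ hx1.trans ht))
  have hwz : ∀ {z y}, x ≤ z → z ≤ y → w y = w x → w y = w z ∧ w z = w x := by
    intro z y h1 h2 h3
    have h4 := hF.mono _ _ h1
    have h5 := hF.mono _ _ h2
    constructor <;> linarith
  have hz0 : ∀ y, ∃ z, (∃ z', z' ≤ y ∧ (x ≤ z' ∧ ∃ D, TBx.P w F z' D)) → z ≤ y ∧ (x ≤ z ∧ ∃ D, TBx.P w F z D) ∧
      ∀ z', z' ≤ y → (x ≤ z' ∧ ∃ D, TBx.P w F z' D) → z ≤ z' := by
    intro y
    by_cases h : ∃ z', z' ≤ y ∧ (x ≤ z' ∧ ∃ D, TBx.P w F z' D)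
    · obtain ⟨z, hz⟩ := TBx.least hwf hch (fun z => x ≤ z ∧ ∃ D, TBx.P w F z D) y h
      exact ⟨z, fun _ => hz⟩
    · exact ⟨y, fun h1 => absurd h1 h⟩
  choose z hz using hz0
  have hD0 : ∀ y, ∃ D, (∃ D, TBx.P w F y D) → TBx.P w F y D := by
    intro y
    by_cases h : ∃ D, TBx.P w F y D
    · obtain ⟨D, hD⟩ := h
      exact ⟨D, fun _ => hD⟩
    · exact ⟨fun _ => ∅, fun h1 => absurd h1 h⟩
  choose D hD using hD0
  refine ⟨fun y => if (∃ z', z' ≤ y ∧ (x ≤ z' ∧ ∃ D, TBx.P w F z' D)) then D (z y) y ∪ {t | t ⋖ z y} else ∅, ?_, ?_⟩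
  · intro y
    dsimp only
    split_ifs with h
    · refine Set.Countable.union ((hD (z y) (hz y h).2.1.2).1 y) (Set.Subsingleton.countable ?_)
      intro t ht t' ht'
      have h1 : t ⋖ z y := ht
      have h2 : t' ⋖ z y := ht'
      rcases hch (z y) t t' h1.le h2.le with h3 | h3
      · rcases h3.lt_or_eq with h4 | h4
        · exact absurd h2.lt (h1.2 h4)
        · exact h4
      · rcases h3.lt_or_eq with h4 | h4
        · exact absurd h1.lt (h2.2 h4)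
        · exact h4.symm
    · exact Set.countable_empty
  · intro t hxt hwt u₁ hu₁ u₂ hu₂ hne s₁ s₂ hs₁ hs₂ hw₁ hw₂
    have hto : t ≠ o := hxo t hxt
    rw [hF.mem_F t hto] at hu₁ hu₂
    by_cases hOK : ∃ D, TBx.P w F t D
    · have hBt : ∃ z', z' ≤ t ∧ (x ≤ z' ∧ ∃ D, TBx.P w F z' D) := ⟨t, le_rfl, hxt, hOK⟩
      obtain ⟨hzt1, hzt2, hzt3⟩ := hz t hBt
      have key : ∀ s, t ≤ s → (∃ z', z' ≤ s ∧ (x ≤ z' ∧ ∃ D, TBx.P w F z' D)) ∧ z s = z t := by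
        intro s hs
        have h1 : ∃ z', z' ≤ s ∧ (x ≤ z' ∧ ∃ D, TBx.P w F z' D) := ⟨z t, hzt1.trans hs, hzt2⟩
        obtain ⟨h2, h3, h4⟩ := hz s h1
        refine ⟨h1, le_antisymm (h4 _ (hzt1.trans hs) hzt2) (hzt3 _ ?_ h3)⟩
        exact (h4 _ (hzt1.trans hs) hzt2).trans hzt1
      have h1 := key s₁ (hu₁.1.le.trans hs₁)
      have h2 := key s₂ (hu₂.1.le.trans hs₂)
      dsimp only
      rw [if_pos h1.1, if_pos h2.1, h1.2, h2.2]
      have h3 := (hD (z t) hzt2.2).2 t hzt1 (hwz hzt2.1 hzt1 hwt).1 u₁ ((hF.mem_F t hto u₁).2 hu₁) u₂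
        ((hF.mem_F t hto u₂).2 hu₂) hne s₁ s₂ hs₁ hs₂ hw₁ hw₂
      exact h3.imp (fun h => Or.inl h) (fun h => Or.inl h)
    · have key : ∀ u s, t ⋖ u → u ≤ s → (∃ D, TBx.P w F u D) → t ∈ (if (∃ z', z' ≤ s ∧ (x ≤ z' ∧ ∃ D, TBx.P w F z' D)) then
          D (z s) s ∪ {t | t ⋖ z s} else ∅) := by
        intro u s htu hus hu
        have h1 : ∃ z', z' ≤ s ∧ (x ≤ z' ∧ ∃ D, TBx.P w F z' D) := ⟨u, hus, hxt.trans htu.le, hu⟩
        obtain ⟨h2, h3, h4⟩ := hz s h1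
        rw [if_pos h1]
        right
        have h5 : z s ≤ u := h4 u hus ⟨hxt.trans htu.le, hu⟩
        rcases h5.lt_or_eq with h6 | h6
        · exfalso
          have h7 : z s ≤ t := by
            rcases hch s (z s) t h2 (htu.le.trans hus) with h7 | h7
            · exact h7
            · rcases h7.lt_or_eq with h8 | h8
              · exact absurd h6 (htu.2 h8)
              · exact h8.ge
          obtain ⟨D₁, hD₁⟩ := h3.2
          exact hOK ⟨D₁, TBx.P_mono hD₁ h7 (hwz h3.1 h7 hwt).1⟩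
        · rw [h6]
          exact htu
      by_cases h1 : ∃ D, TBx.P w F u₁ D
      · exact Or.inl (key u₁ s₁ hu₁.1 hs₁ h1)
      · by_cases h2 : ∃ D, TBx.P w F u₂ D
        · exact Or.inr (key u₂ s₂ hu₂.1 hs₂ h2)
        · exfalso
          have h3 := hcomp u₁ u₂ ⟨hx1.trans (hxt.trans hu₁.1.le), by rw [hu₁.2, hwt, hx2], h1⟩
            ⟨hx1.trans (hxt.trans hu₂.1.le), by rw [hu₂.2, hwt, hx2], h2⟩ (hxt.trans hu₁.1.le) (hxt.trans hu₂.1.le)
          rcases h3 with h4 | h4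
          · rcases h4.lt_or_eq with h5 | h5
            · exact hu₂.1.2 hu₁.1.lt h5
            · exact hne h5
          · rcases h4.lt_or_eq with h5 | h5
            · exact hu₁.1.2 hu₂.1.lt h5
            · exact hne h5.symm

theorem thm_TB : St_TB := by
  classical
  intro L _ o w F c g hup hdn hch hwf hF
  have hall := TBx.all hup hdn hch hwf hF
  have hr0 : ∀ s, ∃ r, r ≤ s ∧ w r = w s ∧ ∀ z, z ≤ s → w z = w s → r ≤ z := fun s =>
    TBx.least hwf hch (fun z => w z = w s) s ⟨s, le_rfl, rfl⟩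
  choose r hr1 hr2 hr3 using hr0
  have hD0 : ∀ z, ∃ D, z ≠ o → TBx.P w F z D := by
    intro z
    by_cases h : z = o
    · exact ⟨fun _ => ∅, fun h1 => absurd h h1⟩
    · obtain ⟨D, hD⟩ := hall z h
      exact ⟨D, fun _ => hD⟩
  choose D hD using hD0
  have hro : ∀ s, s ≠ o → r s ≠ o := by
    intro s hs h
    exact hs (hup s (h ▸ hr1 s))
  obtain ⟨D', hD'⟩ : ∃ D' : L → Set L, D' = fun s => if s = o then ∅ else D (r s) s := ⟨_, rfl⟩
  have hc : ∀ s, (D' s).Countable := by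
    intro s
    rw [hD']
    dsimp only
    split_ifs with h
    · exact Set.countable_empty
    · exact (hD (r s) (hro s h)).1 s
  have hpair : ∀ t : L, t ≠ o → ∀ u₁ ∈ F t, ∀ u₂ ∈ F t, u₁ ≠ u₂ → ∀ s₁ s₂ : L, u₁ ≤ s₁ → u₂ ≤ s₂ → w s₁ = w t →
      w s₂ = w t → t ∈ D' s₁ ∨ t ∈ D' s₂ := by
    intro t ht u₁ hu₁ u₂ hu₂ hne s₁ s₂ hs₁ hs₂ hw₁ hw₂
    have hu₁' := (hF.mem_F t ht u₁).1 hu₁
    have hu₂' := (hF.mem_F t ht u₂).1 hu₂
    have key : ∀ s, t ≤ s → w s = w t → s ≠ o ∧ r s = r t := by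
      intro s hs hw
      refine ⟨fun h => ht (hdn t (h ▸ hs)), le_antisymm ?_ ?_⟩
      · exact hr3 s (r t) ((hr1 t).trans hs) ((hr2 t).trans hw.symm)
      · exact hr3 t (r s) (hr3 s t hs hw.symm) ((hr2 s).trans hw)
    have h1 := key s₁ (hu₁'.1.le.trans hs₁) hw₁
    have h2 := key s₂ (hu₂'.1.le.trans hs₂) hw₂
    rw [hD']
    dsimp only
    rw [if_neg h1.1, if_neg h2.1, h1.2, h2.2]
    exact (hD (r t) (hro t ht)).2 t (hr1 t) (hr2 t).symm u₁ hu₁ u₂ hu₂ hne s₁ s₂ hs₁ hs₂ hw₁ hw₂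
  have hf0 : ∀ s, ∃ f : L → ℕ, InjOn f (D' s) := fun s => Set.countable_iff_exists_injOn.1 (hc s)
  choose f hf using hf0
  refine ⟨fun s t => if t = s then 1 else if t ∈ D' s then 1 / ((f s t : ℝ) + 2) else 0, ?_, ?_, ?_, ?_, ?_⟩
  · intro s t
    split_ifs
    · exact zero_le_one
    · positivity
    · exact le_rfl
  · intro s t
    split_ifs
    · exact le_rfl
    · rw [div_le_one (by positivity)]
      have : (0 : ℝ) ≤ f s t := Nat.cast_nonneg _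
      linarith
    · exact zero_le_one
  · intro s
    rw [if_pos rfl]
    exact zero_lt_one
  · intro s δ hδ
    obtain ⟨n, hn⟩ := exists_nat_gt (1 / δ)
    have h1 : {t | t ∈ D' s ∧ f s t < n}.Finite := by
      refine Set.Finite.of_finite_image (f := f s) ?_ ((hf s).mono (fun t ht => ht.1))
      refine (Set.finite_lt_nat n).subset ?_
      rintro _ ⟨t, ht, rfl⟩
      exact ht.2
    refine ((Set.finite_singleton s).union h1).subset ?_
    intro t ht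
    have h2 : δ < if t = s then 1 else if t ∈ D' s then 1 / ((f s t : ℝ) + 2) else 0 := ht
    split_ifs at h2 with h3 h4
    · exact Or.inl h3
    · right
      refine ⟨h4, ?_⟩
      have h5 : (0 : ℝ) < (f s t : ℝ) + 2 := by positivity
      rw [lt_div_iff₀ h5] at h2
      have h6 : (f s t : ℝ) + 2 < 1 / δ := by
        rw [lt_div_iff₀ hδ]
        linarith
      have h7 : (f s t : ℝ) < n := by linarith
      exact_mod_cast h7
    · linarith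
  · intro t ht u₁ hu₁ u₂ hu₂ hne s₁ s₂ hs₁ hs₂ hw₁ hw₂
    have key : ∀ s, t ∈ D' s → 0 < (if t = s then (1 : ℝ) else if t ∈ D' s then 1 / ((f s t : ℝ) + 2) else 0) := by
      intro s hs
      split_ifs
      · exact zero_lt_one
      · positivity
    exact (hpair t ht u₁ hu₁ u₂ hu₂ hne s₁ s₂ hs₁ hs₂ hw₁ hw₂).imp (key s₁) (key s₂)

end TRE
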