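import Pool.Agent.TRE.Defs

/-!
# TRE: standard facts on compactified trees
-/

set_option autoImplicit false

namespace TRE

open Set Topology Filter

variable {L : Type} [TopologicalSpace L] [PartialOrder L] {o : L}

theorem TreeTop.ne_of_le (hT : TreeTop L o) {s t : L} (h : s ≤ t) (hs : s ≠ o) : t ≠ o := fun h1 => hs (hT.dn s (h1 ▸ h))

theorem TreeTop.ne_of_ge (hT : TreeTop L o) {s t : L} (h : s ≤ t) (ht : t ≠ o) : s ≠ o := fun h1 => ht (hT.up t (h1 ▸ h))

/-- the part of the tree above `c`, with the point at infinity, is closed -/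
theorem TreeTop.closed_Ici (hT : TreeTop L o) (c : L) : IsClosed (Ici c ∪ {o}) := by
  rw [← isOpen_compl_iff, isOpen_iff_mem_nhds]
  intro x hx
  have hxo : x ≠ o := fun h => hx (Or.inr h)
  have hcx : ¬ c ≤ x := fun h => hx (Or.inl h)
  filter_upwards [(hT.clopen x hxo).isOpen.mem_nhds (self_mem_Iic (a := x))] with y hy
  rintro (h | h)
  · exact hcx (le_trans h hy)
  · have h1 : y = o := h
    exact hxo (hT.up x (h1 ▸ hy))

/-- chains in a closed set without the point at infinity have upper bounds in this set -/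
theorem TreeTop.chain_ub [CompactSpace L] (hT : TreeTop L o) (M : Set L) (hM : IsClosed M) (ho : o ∉ M) (S : Set L)
    (hS : S ⊆ M) (hne : S.Nonempty) (hch : ∀ x ∈ S, ∀ y ∈ S, x ≤ y ∨ y ≤ x) : ∃ b ∈ M, ∀ y ∈ S, y ≤ b := by
  have : Nonempty S := hne.to_subtype
  have h1 := IsCompact.nonempty_iInter_of_directed_nonempty_isCompact_isClosed
    (fun c : S => M ∩ (Ici (c : L) ∪ {o})) ?_ ?_ ?_ ?_
  · obtain ⟨b, hb⟩ := h1
    rw [mem_iInter] at hb
    obtain ⟨x, hx⟩ := hne
    refine ⟨b, (hb ⟨x, hx⟩).1, ?_⟩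
    intro y hy
    rcases (hb ⟨y, hy⟩).2 with h | h
    · exact h
    · have h2 : b = o := h
      exact absurd (h2 ▸ (hb ⟨x, hx⟩).1) ho
  · rintro ⟨x, hx⟩ ⟨y, hy⟩
    rcases hch x hx y hy with h | h
    · refine ⟨⟨y, hy⟩, ?_, subset_rfl⟩
      rintro z ⟨h1, h2⟩
      refine ⟨h1, ?_⟩
      rcases h2 with h2 | h2
      · exact Or.inl (le_trans h h2)
      · exact Or.inr h2
    · refine ⟨⟨x, hx⟩, subset_rfl, ?_⟩
      rintro z ⟨h1, h2⟩
      refine ⟨h1, ?_⟩
      rcases h2 with h2 | h2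
      · exact Or.inl (le_trans h h2)
      · exact Or.inr h2
  · rintro ⟨x, hx⟩
    exact ⟨x, hS hx, Or.inl le_rfl⟩
  · rintro ⟨x, hx⟩
    exact (hM.inter (hT.closed_Ici x)).isCompact
  · rintro ⟨x, hx⟩
    exact hM.inter (hT.closed_Ici x)

/-- maximal elements -/
theorem TreeTop.exists_max [CompactSpace L] (hT : TreeTop L o) (M : Set L) (hM : IsClosed M) (ho : o ∉ M)
    (hne : M.Nonempty) : ∃ t ∈ M, ∀ x ∈ M, t ≤ x → x = t := by
  obtain ⟨x, hx⟩ := hne
  obtain ⟨m, -, hm⟩ := zorn_le_nonempty₀ M (by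
    intro c hc hch y hy
    exact hT.chain_ub M hM ho c hc ⟨y, hy⟩ (fun a ha b hb => hch.total ha hb)) x hx
  refine ⟨m, hm.1, ?_⟩
  intro y hy hmy
  exact le_antisymm (hm.2 hy hmy) hmy

/-- the successor of `t` below `x` -/
theorem TreeTop.exists_succ (hT : TreeTop L o) {t x : L} (h : t < x) : ∃ u, t ⋖ u ∧ u ≤ x := by
  obtain ⟨u, ⟨hu1, hu2⟩, hu3⟩ := hT.wf.has_min {z | t < z ∧ z ≤ x} ⟨x, h, le_rfl⟩
  refine ⟨u, ⟨hu1, ?_⟩, hu2⟩
  intro z hz1 hz2
  exact hu3 z ⟨hz1, hz2.le.trans hu2⟩ hz2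

omit [TopologicalSpace L] in
/-- different successors are not comparable -/
theorem covBy_incomp {t u v : L} (hu : t ⋖ u) (hv : t ⋖ v) (h : u ≤ v ∨ v ≤ u) : u = v := by
  rcases h with h | h
  · rcases h.lt_or_eq with h1 | h1
    · exact absurd h1 (hv.2 hu.1)
    · exact h1
  · rcases h.lt_or_eq with h1 | h1
    · exact absurd h1 (hu.2 hv.1)
    · exact h1.symm

/-- seminorms: equality from a difference of size `0` -/
theorem semi_eq {X : Type} [NormedAddCommGroup X] [NormedSpace ℝ X] (q : Seminorm ℝ X) {a b : X} (h : q (a - b) = 0) :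
    q a = q b := by
  have h1 : q a ≤ q (a - b) + q b := by
    have := map_add_le_add q (a - b) b
    rwa [sub_add_cancel] at this
  have h2 : q b ≤ q (a - b) + q a := by
    have := map_sub_le_add q (a - b) a
    have h3 : q (a - b - a) = q b := by
      rw [show a - b - a = -b by abel, map_neg_eq_map]
    rwa [h3] at this
  exact le_antisymm (by linarith) (by linarith)

/-- seminorms of sums -/
theorem semi_sum {X ι : Type} [NormedAddCommGroup X] [NormedSpace ℝ X] (q : Seminorm ℝ X) (s : Finset ι) (v : ι → X) :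
    q (∑ i ∈ s, v i) ≤ ∑ i ∈ s, q (v i) :=
  Finset.le_sum_of_subadditive q (map_zero q).le (fun x y => map_add_le_add q x y) _ _

end TRE
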