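import Pool.Agent.TRE.St
import Pool.Agent.TRE.Base
import Pool.Agent.SDN.MK

/-!
# TRE [TC]: the flow operator has values in `c_0`
-/

set_option autoImplicit false

namespace TRE

open Set Topology Filter SDN

/-- minimal points are isolated -/
theorem TCx.not_min {L : Type} [TopologicalSpace L] [PartialOrder L] {o : L} (hT : TreeTop L o) {v : L} (hv : v ≠ o)
    (hi : ¬ IsOpen {v}) : ¬ ∀ s, ¬ s < v := by
  intro h
  apply hi
  have h1 : ({v} : Set L) = Iic v := by
    ext x
    constructor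
    · rintro rfl
      exact le_rfl
    · intro hx
      rcases (show x ≤ v from hx).lt_or_eq with h2 | h2
      · exact absurd h2 (h x)
      · exact h2
  rw [h1]
  exact (hT.clopen v hv).isOpen

theorem thm_TC : St_TC := by
  classical
  intro K L X _ _ _ _ _ _ _ _ o w F c g π σ q C hT hF hσ hC hqC hsing f n δ hδ
  have hqc : Continuous q := MK_cont q C hC.le hqC
  have hcl : IsClosedMap π := π.continuous.isClosedMap
  have hnear : ∀ (y : L), ¬ IsOpen {y} → ∀ θ : ℝ, 0 < θ →
      {z | ∀ k, π k = z → q (f k - f (σ y)) < θ} ∈ 𝓝 y := by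
    intro y hy θ hθ
    refine hcl.eventually_nhds_fiber (p := fun k => q (f k - f (σ y)) < θ) y ?_
    intro k hk
    have h2 : k = σ y := hsing y hy k (σ y) hk (hσ y)
    rw [h2]
    have h3 : ContinuousAt (fun k => q (f k - f (σ y))) (σ y) :=
      (hqc.comp (f.continuous.sub continuous_const)).continuousAt
    have h4 : (fun k => q (f k - f (σ y))) (σ y) < θ := by
      change q (f (σ y) - f (σ y)) < θ
      rw [sub_self, map_zero]
      exact hθ
    exact h3.eventually_lt continuousAt_const h4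
  set θ : ℝ := δ / ((n : ℝ) + 4) with hθdef
  have hn4 : (0 : ℝ) < (n : ℝ) + 4 := by positivity
  have hθ : 0 < θ := by positivity
  have hθδ : δ = θ * ((n : ℝ) + 4) := by simp only [hθdef]; field_simp
  -- the basic neighbourhoods
  have hB0 : ∀ v : L, ∃ (B : Set L) (a : L), IsOpen B ∧ v ∈ B ∧ (v ≠ o → ((B = {v} ∧ IsOpen {v}) ∨
      (a < v ∧ B = Ioc a v ∧ ∀ k, π k ∈ B → q (f k - f (σ v)) < θ))) := by
    intro v
    by_cases hv : v = o
    · exact ⟨univ, v, isOpen_univ, mem_univ _, fun h => absurd hv h⟩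
    · by_cases hi : IsOpen {v}
      · exact ⟨{v}, v, hi, rfl, fun _ => Or.inl ⟨rfl, hi⟩⟩
      · rcases hT.base v hv _ (hnear v hi θ hθ) with ⟨s, hs, hsV⟩ | hmin
        · refine ⟨Ioc s v, s, ?_, ⟨hs, le_rfl⟩, fun _ => Or.inr ⟨hs, rfl, ?_⟩⟩
          · have h1 : Ioc s v = Iic v \ Iic s := by
              ext x
              constructor
              · rintro ⟨h2, h3⟩
                exact ⟨h3, fun h4 => absurd (lt_of_lt_of_le h2 h4) (lt_irrefl _)⟩
              · rintro ⟨h2, h3⟩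
                refine ⟨?_, h2⟩
                rcases hT.chain v s x hs.le h2 with h4 | h4
                · rcases h4.lt_or_eq with h5 | h5
                  · exact h5
                  · exact absurd (show x ≤ s from h5.ge) h3
                · exact absurd h4 h3
            rw [h1]
            exact (hT.clopen v hv).isOpen.sdiff (hT.clopen s (hT.ne_of_ge hs.le hv)).isClosed
          · intro k hk
            exact hsV hk k rfl
        · exact absurd hmin (TCx.not_min hT hv hi)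
  choose B a hBo hvB hB using hB0
  obtain ⟨O, hOo, hoO, hO⟩ : ∃ O : Set L, IsOpen O ∧ o ∈ O ∧ ∀ k, π k ∈ O → π k ≠ o → q (f k - f (σ o)) < θ := by
    by_cases hi : IsOpen {o}
    · exact ⟨{o}, hi, rfl, fun k h1 h2 => absurd h1 h2⟩
    · obtain ⟨O, h1, h2, h3⟩ := mem_nhds_iff.1 (hnear o hi θ hθ)
      exact ⟨O, h2, h3, fun k hk _ => h1 hk k rfl⟩
  have hQc : IsCompact (Oᶜ) := hOo.isClosed_compl.isCompact
  obtain ⟨T, hT1⟩ := hQc.elim_nhds_subcover' (fun v _ => B v) (fun v _ => (hBo v).mem_nhds (hvB v))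
  -- the finite set of the centers
  set V : Set L := (fun x : (Oᶜ : Set L) => (x : L)) '' (T : Set (Oᶜ : Set L)) with hV
  have hVf : V.Finite := T.finite_toSet.image _
  have hVO : ∀ v ∈ V, v ≠ o := by
    rintro _ ⟨x, _, rfl⟩ h
    have h' : (x : L) = o := h
    exact x.2 (by rw [h']; exact hoO)
  have hcov : ∀ x, x ∉ O → ∃ v ∈ V, x ∈ B v := by
    intro x hx
    have h1 := hT1 (show x ∈ Oᶜ from hx)
    rw [mem_iUnion₂] at h1
    obtain ⟨v, hv, hxv⟩ := h1
    exact ⟨v, ⟨v, hv, rfl⟩, hxv⟩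
  -- exceptions
  let E1 : Set L := V
  let E2 : Set L := a '' V
  let E3 : Set L := ⋃ v ∈ V, {t | t ⋖ v}
  let E4 : Set L := ⋃ v ∈ V, ⋃ v' ∈ V, {t | ∃ u u', t ⋖ u ∧ u ≤ v ∧ t ⋖ u' ∧ u' ≤ v' ∧ u ≠ u'}
  let E5 : Set L := ⋃ v ∈ V, {t | t ≠ o ∧ c t = n ∧ ∃ u, t ⋖ u ∧ u ≤ v ∧ g n ≤ w u}
  -- a successor lies below the next point
  have hnext : ∀ {t t' u v : L}, t ⋖ u → u ≤ v → t' ≤ v → t < t' → u ≤ t' := by
    intro t t' u v h1 h2 h3 h4
    rcases hT.chain v u t' h2 h3 with h5 | h5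
    · exact h5
    · rcases h5.lt_or_eq with h6 | h6
      · exact absurd h6 (h1.2 h4)
      · exact h6.ge
  have hE3 : E3.Finite := by
    refine Set.Finite.biUnion hVf fun v _ => ?_
    refine Set.Subsingleton.finite ?_
    intro t ht t' ht'
    have h1 : t ⋖ v := ht
    have h2 : t' ⋖ v := ht'
    rcases hT.chain v t t' h1.1.le h2.1.le with h | h
    · rcases h.lt_or_eq with h3 | h3
      · exact absurd h2.1 (h1.2 h3)
      · exact h3
    · rcases h.lt_or_eq with h3 | h3
      · exact absurd h1.1 (h2.2 h3)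
      · exact h3.symm
  have hE4 : E4.Finite := by
    refine Set.Finite.biUnion hVf fun v _ => Set.Finite.biUnion hVf fun v' _ => ?_
    have key : ∀ t ∈ {t | ∃ u u', t ⋖ u ∧ u ≤ v ∧ t ⋖ u' ∧ u' ≤ v' ∧ u ≠ u'},
        ∀ t' ∈ {t | ∃ u u', t ⋖ u ∧ u ≤ v ∧ t ⋖ u' ∧ u' ≤ v' ∧ u ≠ u'}, ¬ t < t' := by
      rintro t ⟨u, u', h1, h2, h3, h4, h5⟩ t' ⟨x, x', h6, h7, h8, h9, -⟩ hlt
      have h10 : u ≤ t' := hnext h1 h2 (h6.1.le.trans h7) hlt
      have h11 : u' ≤ t' := hnext h3 h4 (h8.1.le.trans h9) hlt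
      exact h5 (covBy_incomp h1 h3 (hT.chain t' u u' h10 h11))
    refine Set.Subsingleton.finite ?_
    intro t ht t' ht'
    obtain ⟨u, u', h1, h2, h3, h4, h5⟩ := ht
    obtain ⟨x, x', h6, h7, h8, h9, h10⟩ := ht'
    rcases hT.chain v t t' (h1.1.le.trans h2) (h6.1.le.trans h7) with h | h
    · rcases h.lt_or_eq with h11 | h11
      · exact absurd h11 (key t ⟨u, u', h1, h2, h3, h4, h5⟩ t' ⟨x, x', h6, h7, h8, h9, h10⟩)
      · exact h11
    · rcases h.lt_or_eq with h11 | h11
      · exact absurd h11 (key t' ⟨x, x', h6, h7, h8, h9, h10⟩ t ⟨u, u', h1, h2, h3, h4, h5⟩)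
      · exact h11.symm
  have hE5 : E5.Finite := by
    refine Set.Finite.biUnion hVf fun v _ => ?_
    have key : ∀ t ∈ {t | t ≠ o ∧ c t = n ∧ ∃ u, t ⋖ u ∧ u ≤ v ∧ g n ≤ w u},
        ∀ t' ∈ {t | t ≠ o ∧ c t = n ∧ ∃ u, t ⋖ u ∧ u ≤ v ∧ g n ≤ w u}, ¬ t < t' := by
      rintro t ⟨h1, h2, u, h3, h4, h5⟩ t' ⟨h6, h7, u', h8, h9, h10⟩ hlt
      have h11 : u ≤ t' := hnext h3 h4 (h8.1.le.trans h9) hlt
      have h12 := hF.mono _ _ h11
      have h13 := hF.lt_g t' h6
      rw [h7] at h13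
      linarith
    refine Set.Subsingleton.finite ?_
    intro t ht t' ht'
    have hk := key t ht t' ht'
    have hk' := key t' ht' t ht
    obtain ⟨h1, h2, u, h3, h4, h5⟩ := ht
    obtain ⟨h6, h7, u', h8, h9, h10⟩ := ht'
    rcases hT.chain v t t' (h3.1.le.trans h4) (h8.1.le.trans h9) with h | h
    · rcases h.lt_or_eq with h11 | h11
      · exact absurd h11 hk
      · exact h11
    · rcases h.lt_or_eq with h11 | h11
      · exact absurd h11 hk'
      · exact h11.symm
  refine ((((hVf.union (hVf.image a)).union hE3).union hE4).union hE5).subset ?_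
  rintro t ⟨hto, hct, k, hk, hkδ⟩
  by_contra hcon
  have hn1 : t ∉ V := fun h => hcon (Or.inl (Or.inl (Or.inl (Or.inl h))))
  have hn2 : t ∉ a '' V := fun h => hcon (Or.inl (Or.inl (Or.inl (Or.inr h))))
  have hn3 : t ∉ E3 := fun h => hcon (Or.inl (Or.inl (Or.inr h)))
  have hn4' : t ∉ E4 := fun h => hcon (Or.inl (Or.inr h))
  have hn5 : t ∉ E5 := fun h => hcon (Or.inr h)
  -- successors in the basic neighbourhoods
  have hsucc : ∀ u v, v ∈ V → t ⋖ u → u ∈ B v → a v < v ∧ B v = Ioc (a v) v ∧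
      (∀ k, π k ∈ B v → q (f k - f (σ v)) < θ) ∧ t ∈ B v ∧ u ≤ v := by
    intro u v hv htu hu
    rcases hB v (hVO v hv) with ⟨h1, -⟩ | ⟨h1, h2, h3⟩
    · exfalso
      rw [h1] at hu
      have h4 : u = v := hu
      exact hn3 (mem_iUnion₂.2 ⟨v, hv, h4 ▸ htu⟩)
    · refine ⟨h1, h2, h3, ?_, ?_⟩
      · rw [h2] at hu ⊢
        have h4 : t ≤ v := htu.1.le.trans hu.2
        refine ⟨?_, h4⟩
        rcases hT.chain v (a v) t h1.le h4 with h5 | h5
        · rcases h5.lt_or_eq with h6 | h6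
          · exact h6
          · exact absurd ⟨v, hv, h6⟩ hn2
        · rcases h5.lt_or_eq with h6 | h6
          · exact absurd hu.1 (htu.2 h6)
          · exact absurd ⟨v, hv, h6.symm⟩ hn2
      · rw [h2] at hu
        exact hu.2
  have hFc := fun u => hF.mem_F t hto u
  have hcard : ((F t).card : ℝ) ≤ n := by
    rw [← hct]
    exact_mod_cast hF.card_F t
  have hsmall : ∀ u ∈ F t, u ∈ O → q (f (σ u) - f (σ o)) < θ := by
    intro u hu huO
    refine hO (σ u) (by rw [hσ]; exact huO) ?_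
    rw [hσ]
    exact hT.ne_of_le ((hFc u).1 hu).1.1.le hto
  have hsumO : ∀ S : Finset L, S ⊆ F t → (∀ u ∈ S, u ∈ O) → q (∑ u ∈ S, (f (σ u) - f (σ o))) ≤ n * θ := by
    intro S hS hSO
    refine (semi_sum q _ _).trans ?_
    have h1 : ∑ u ∈ S, q (f (σ u) - f (σ o)) ≤ ∑ _u ∈ S, θ :=
      Finset.sum_le_sum fun u hu => (hsmall u (hS hu) (hSO u hu)).le
    rw [Finset.sum_const, nsmul_eq_mul] at h1
    have h2 : (S.card : ℝ) ≤ (F t).card := by exact_mod_cast Finset.card_le_card hS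
    nlinarith
  have hfinal : ∀ x : X, q (f k - x) ≤ 3 * θ →
      q (x - (f (σ o) + ∑ u ∈ F t, (f (σ u) - f (σ o)))) ≤ n * θ → False := by
    intro x h1 h2
    have h3 : q (f k - (f (σ o) + ∑ u ∈ F t, (f (σ u) - f (σ o)))) ≤
        q (f k - x) + q (x - (f (σ o) + ∑ u ∈ F t, (f (σ u) - f (σ o)))) := by
      have h4 := map_add_le_add q (f k - x) (x - (f (σ o) + ∑ u ∈ F t, (f (σ u) - f (σ o))))
      rwa [sub_add_sub_cancel] at h4
    nlinarith
  by_cases hQ : ∃ u ∈ F t, u ∉ O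
  · obtain ⟨u, hu, huO⟩ := hQ
    obtain ⟨v, hv, huv⟩ := hcov u huO
    obtain ⟨h1, h2, h3, h4, h5⟩ := hsucc u v hv ((hFc u).1 hu).1 huv
    have hothers : ∀ u' ∈ (F t).erase u, u' ∈ O := by
      intro u' hu'
      obtain ⟨h6, h7⟩ := Finset.mem_erase.1 hu'
      by_contra h8
      obtain ⟨v', hv', huv'⟩ := hcov u' h8
      obtain ⟨-, -, -, -, h9⟩ := hsucc u' v' hv' ((hFc u').1 h7).1 huv'
      exact hn4' (mem_iUnion₂.2 ⟨v, hv, mem_iUnion₂.2 ⟨v', hv', u, u', ((hFc u).1 hu).1, h5,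
        ((hFc u').1 h7).1, h9, Ne.symm h6⟩⟩)
    refine hfinal (f (σ u)) ?_ ?_
    · have h6 := h3 k (by rw [hk]; exact h4)
      have h7 := h3 (σ u) (by rw [hσ]; exact huv)
      have h8 : q (f k - f (σ u)) ≤ q (f k - f (σ v)) + q (f (σ u) - f (σ v)) := by
        have := map_sub_le_add q (f k - f (σ v)) (f (σ u) - f (σ v))
        rwa [sub_sub_sub_cancel_right] at this
      linarith
    · have h6 : f (σ u) - (f (σ o) + ∑ u ∈ F t, (f (σ u) - f (σ o))) =
          -∑ u' ∈ (F t).erase u, (f (σ u') - f (σ o)) := by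
        rw [← Finset.add_sum_erase (F t) (fun u => f (σ u) - f (σ o)) hu]
        abel
      rw [h6, map_neg_eq_map]
      exact hsumO _ (Finset.erase_subset _ _) hothers
  · push Not at hQ
    refine hfinal (f (σ o)) ?_ ?_
    · by_cases htO : t ∈ O
      · have h1 := hO k (by rw [hk]; exact htO) (by rw [hk]; exact hto)
        linarith
      · obtain ⟨v, hv, htv⟩ := hcov t htO
        rcases hB v (hVO v hv) with ⟨h1, -⟩ | ⟨h1, h2, h3⟩
        · exfalso
          rw [h1] at htv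
          have h4 : t = v := htv
          exact hn1 (h4 ▸ hv)
        · have htv' := htv
          rw [h2] at htv'
          have htlt : t < v := lt_of_le_of_ne htv'.2 (fun h => hn1 (h ▸ hv))
          obtain ⟨u, hu1, hu2⟩ := hT.exists_succ htlt
          have huB : u ∈ B v := by
            rw [h2]
            exact ⟨htv'.1.trans hu1.1, hu2⟩
          have huw : u ∈ F t := by
            rw [hFc]
            refine ⟨hu1, ?_⟩
            rcases hF.g_le t hto u hu1 with h4 | h4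
            · exact h4
            · exfalso
              rw [hct] at h4
              exact hn5 (mem_iUnion₂.2 ⟨v, hv, hto, hct, u, hu1, hu2, h4⟩)
          have h5 := hsmall u huw (hQ u huw)
          have h6 := h3 k (by rw [hk]; exact htv)
          have h7 := h3 (σ u) (by rw [hσ]; exact huB)
          have h8 : q (f k - f (σ u)) ≤ q (f k - f (σ v)) + q (f (σ u) - f (σ v)) := by
            have := map_sub_le_add q (f k - f (σ v)) (f (σ u) - f (σ v))
            rwa [sub_sub_sub_cancel_right] at this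
          have h9 : q (f k - f (σ o)) ≤ q (f k - f (σ u)) + q (f (σ u) - f (σ o)) := by
            have := map_add_le_add q (f k - f (σ u)) (f (σ u) - f (σ o))
            rwa [sub_add_sub_cancel] at this
          linarith
    · rw [sub_add_cancel_left, map_neg_eq_map]
      exact hsumO _ subset_rfl hQ

end TRE
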