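import Pool.Agent.TRE.St
import Pool.Agent.TRE.Base
import Pool.Agent.SDN.MK

/-!
# TRE [TD]: the supremum is attained at a point with positive flow
-/

set_option autoImplicit false

namespace TRE

open Set Topology Filter SDN

theorem TDx.key {L X : Type} [TopologicalSpace L] [CompactSpace L] [T2Space L] [PartialOrder L]
    [NormedAddCommGroup X] [NormedSpace ℝ X] {o : L} {w : L → ℝ} {F : L → Finset L} {c : L → ℕ} {g : ℕ → ℝ}
    (hT : TreeTop L o) (hF : Flow L o w F c g) (q : Seminorm ℝ X) (hqc : Continuous q) (G : C(L, X))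
    (Z : L → Prop) (hZ : ∀ s, s ≠ o → Z s → q (G s - (G o + ∑ u ∈ F s, (G u - G o))) = 0)
    (u : L) (hu : u ≠ o) (hq : 0 < q (G u - G o)) : ∃ s, u ≤ s ∧ w s = w u ∧ ¬ Z s := by
  classical
  by_contra! H
  obtain ⟨x, hxE, hxch⟩ : ∃ x ∈ {x | u ≤ x ∧ w x = w u ∧ 0 < q (G x - G o)},
      ∀ y ∈ {x | u ≤ x ∧ w x = w u ∧ 0 < q (G x - G o)}, ∀ z ∈ {x | u ≤ x ∧ w x = w u ∧ 0 < q (G x - G o)},
        x ≤ y → x ≤ z → y ≤ z ∨ z ≤ y := by
    by_contra! H2
    obtain ⟨a, ha, b, hb, hab⟩ := hF.ever {x | u ≤ x ∧ w x = w u ∧ 0 < q (G x - G o)} ⟨u, le_rfl, rfl, hq⟩ (by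
      intro x hx
      obtain ⟨y, hy, z, hz, h1, h2, h3, h4⟩ := H2 x hx
      exact ⟨y, hy, z, hz, h1, h2, h3, h4⟩)
    exact hab (ha.2.1.trans hb.2.1.symm)
  obtain ⟨hux, hwx, hqx⟩ := hxE
  have hxo : x ≠ o := hT.ne_of_le hux hu
  set S : Set L := {y | x ≤ y ∧ w y = w x ∧ ∀ z, x ≤ z → z ≤ y → q (G z - G x) = 0} with hSdef
  have hxS : x ∈ S := by
    refine ⟨le_rfl, rfl, ?_⟩
    intro z h1 h2
    rw [le_antisymm h2 h1, sub_self, map_zero]
  have hSq : ∀ y ∈ S, q (G y - G o) = q (G x - G o) := by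
    intro y hy
    refine semi_eq q ?_
    rw [sub_sub_sub_cancel_right]
    exact hy.2.2 y hy.1 le_rfl
  have hSE : ∀ y ∈ S, u ≤ y ∧ w y = w u ∧ 0 < q (G y - G o) := by
    intro y hy
    refine ⟨hux.trans hy.1, hy.2.1.trans hwx, ?_⟩
    rw [hSq y hy]
    exact hqx
  have hsucc : ∀ y ∈ S, ∃ u' ∈ S, y < u' := by
    intro y hy
    obtain ⟨h1, h2, h3⟩ := hSE y hy
    have hyo : y ≠ o := hT.ne_of_le h1 hu
    have h4 := hZ y hyo (H y h1 h2)
    have h5 : q (G y - G o) = q (∑ u' ∈ F y, (G u' - G o)) := by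
      refine semi_eq q ?_
      rw [sub_sub]
      exact h4
    have hE' : ∀ u' ∈ F y, 0 < q (G u' - G o) → u ≤ u' ∧ w u' = w u ∧ 0 < q (G u' - G o) := by
      intro u' hu' hpos
      obtain ⟨h6, h7⟩ := (hF.mem_F y hyo u').1 hu'
      exact ⟨h1.trans h6.1.le, h7.trans h2, hpos⟩
    obtain ⟨u', hu', hpos⟩ : ∃ u' ∈ F y, 0 < q (G u' - G o) := by
      by_contra! H3
      have h6 := semi_sum q (F y) (fun u' => G u' - G o)
      have h7 : ∑ i ∈ F y, q (G i - G o) ≤ 0 := Finset.sum_nonpos fun i hi => H3 i hi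
      linarith
    obtain ⟨hc1, hc2⟩ := (hF.mem_F y hyo u').1 hu'
    have hrest : q (∑ v ∈ (F y).erase u', (G v - G o)) = 0 := by
      refine le_antisymm ?_ (apply_nonneg _ _)
      refine (semi_sum q _ _).trans ?_
      refine Finset.sum_nonpos fun v hv => ?_
      by_contra! hcon
      obtain ⟨hv1, hv2⟩ := Finset.mem_erase.1 hv
      have h8 := (hF.mem_F y hyo v).1 hv2
      have h9 := hxch v (hE' v hv2 hcon) u' (hE' u' hu' hpos) (hy.1.trans h8.1.1.le) (hy.1.trans hc1.1.le)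
      exact hv1 (covBy_incomp h8.1 hc1 h9)
    have hyu : q (G y - G u') = 0 := by
      have h10 : G y - G u' = (G y - (G o + ∑ v ∈ F y, (G v - G o))) + ∑ v ∈ (F y).erase u', (G v - G o) := by
        rw [← Finset.add_sum_erase (F y) (fun v => G v - G o) hu']
        abel
      refine le_antisymm ?_ (apply_nonneg _ _)
      rw [h10]
      refine (map_add_le_add q _ _).trans ?_
      rw [h4, hrest, add_zero]
    refine ⟨u', ⟨hy.1.trans hc1.1.le, hc2.trans hy.2.1, ?_⟩, hc1.1⟩
    intro z hz1 hz2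
    have h11 : ∀ z, z ≤ y → x ≤ z → q (G z - G x) = 0 := fun z h h' => hy.2.2 z h' h
    rcases hT.chain u' y z hc1.1.le hz2 with h | h
    · rcases hc1.eq_or_eq h hz2 with h12 | h12
      · exact h11 z h12.le hz1
      · rw [h12]
        refine le_antisymm ?_ (apply_nonneg _ _)
        have h13 : q (G u' - G x) ≤ q (G y - G x) + q (G y - G u') := by
          have h14 := map_sub_le_add q (G y - G x) (G y - G u')
          rwa [sub_sub_sub_cancel_left] at h14
        rw [h11 y le_rfl hy.1, hyu, add_zero] at h13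
        exact h13
    · exact h11 z h hz1
  set d : ℝ := q (G x - G o) with hd
  have hMc : IsClosed {y : L | d ≤ q (G y - G o)} :=
    isClosed_le continuous_const (hqc.comp (G.continuous.sub continuous_const))
  have hMo : o ∉ {y : L | d ≤ q (G y - G o)} := by
    intro h
    have h1 : d ≤ q (G o - G o) := h
    rw [sub_self, map_zero] at h1
    linarith
  obtain ⟨b, hbM, hb⟩ := hT.chain_ub _ hMc hMo S (fun y hy => (hSq y hy).ge) ⟨x, hxS⟩
    (fun y hy z hz => hxch y (hSE y hy) z (hSE z hz) hy.1 hz.1)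
  obtain ⟨m, ⟨hmb, hmS⟩, hmin⟩ := hT.wf.has_min {z | z ≤ b ∧ ∀ y ∈ S, y ≤ z} ⟨b, le_rfl, hb⟩
  have hcof : ∀ s, s < m → ∃ y ∈ S, s < y := by
    intro s hs
    by_contra! H4
    refine hmin s ⟨hs.le.trans hmb, ?_⟩ hs
    intro y hy
    rcases hT.chain m y s (hmS y hy) hs.le with h | h
    · exact h
    · rcases h.lt_or_eq with h1 | h1
      · exact absurd h1 (H4 y hy)
      · exact h1.ge
  have hmnS : m ∉ S := by
    intro h
    obtain ⟨u', hu', hlt⟩ := hsucc m h
    exact absurd (hmS u' hu') (not_le_of_gt hlt)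
  have hxm : x < m := lt_of_le_of_ne (hmS x hxS) (fun h => hmnS (h ▸ hxS))
  have hmo : m ≠ o := hT.ne_of_le hxm.le hxo
  have hlow : ∀ z, x ≤ z → z < m → z ∈ S := by
    intro z hz1 hz2
    obtain ⟨y, hy, hzy⟩ := hcof z hz2
    refine ⟨hz1, ?_, fun z' h1 h2 => hy.2.2 z' h1 (h2.trans hzy.le)⟩
    refine le_antisymm ?_ (hF.mono _ _ hz1)
    rw [← hy.2.1]
    exact hF.mono _ _ hzy.le
  apply hmnS
  refine ⟨hxm.le, ?_, ?_⟩
  · refine le_antisymm ?_ (hF.mono _ _ hxm.le)
    refine hF.lim m hmo ?_ ⟨x, hxm⟩ (w x) ?_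
    · intro s hs
      obtain ⟨y, hy, hsy⟩ := hcof s hs.1
      have h1 : ¬ y < m := hs.2 hsy
      have h2 : y = m := by
        rcases (hmS y hy).lt_or_eq with h | h
        · exact absurd h h1
        · exact h
      exact hmnS (h2 ▸ hy)
    · intro s hs
      obtain ⟨y, hy, hsy⟩ := hcof s hs
      rw [← hy.2.1]
      exact hF.mono _ _ hsy.le
  · intro z hz1 hz2
    rcases hz2.lt_or_eq with h | h
    · exact (hlow z hz1 h).2.2 z hz1 le_rfl
    · rw [h]
      by_contra hcon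
      have hpos : 0 < q (G m - G x) := lt_of_le_of_ne (apply_nonneg _ _) (Ne.symm hcon)
      have hV : {z | q (G m - G z) < q (G m - G x)} ∈ 𝓝 m := by
        have h1 : ContinuousAt (fun z => q (G m - G z)) m :=
          (hqc.comp (continuous_const.sub G.continuous)).continuousAt
        refine h1.eventually_lt continuousAt_const ?_
        change q (G m - G m) < q (G m - G x)
        rw [sub_self, map_zero]
        exact hpos
      rcases hT.base m hmo _ hV with ⟨s, hs, hsV⟩ | hno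
      · obtain ⟨y, hy, hsy⟩ := hcof s hs
        have h2 : q (G m - G y) < q (G m - G x) := hsV ⟨hsy, hmS y hy⟩
        have h3 : q (G m - G x) ≤ q (G m - G y) + q (G y - G x) := by
          have h4 := map_add_le_add q (G m - G y) (G y - G x)
          rwa [sub_add_sub_cancel] at h4
        rw [hy.2.2 y hy.1 le_rfl, add_zero] at h3
        linarith
      · exact hno x hxm

theorem thm_TD : St_TD := by
  classical
  intro L X _ _ _ _ _ _ o w F c g lam q C G Φ Z η P hT hF hl hC hqC hη hP husc hle hsup hG hZ1 hZ2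
  have hqc : Continuous q := MK_cont q C hC.le hqC
  by_cases ho : Φ o = P
  · exact Or.inl ho
  right
  have hlt : Φ o < P := lt_of_le_of_ne (hle o) ho
  have hMc : IsClosed {y : L | P ≤ Φ y} := by
    rw [← isOpen_compl_iff, isOpen_iff_mem_nhds]
    intro y hy
    have h1 : Φ y < P := not_le.1 hy
    filter_upwards [husc y P h1] with z hz
    exact not_le.2 hz
  have hMne : {y : L | P ≤ Φ y}.Nonempty := by
    have h1 : UpperSemicontinuousOn Φ univ := by
      intro y _ r hr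
      rw [nhdsWithin_univ]
      exact husc y r hr
    obtain ⟨a, -, ha⟩ := UpperSemicontinuousOn.exists_isMaxOn ⟨o, mem_univ o⟩ isCompact_univ h1
    refine ⟨a, ?_⟩
    change P ≤ Φ a
    by_contra! hcon
    obtain ⟨y, hy⟩ := hsup _ hcon
    exact absurd (ha (mem_univ y)) (not_le.2 hy)
  obtain ⟨t, htM, htmax⟩ := hT.exists_max _ hMc (fun h => absurd h (not_le.2 hlt)) hMne
  have hto : t ≠ o := by
    rintro rfl
    exact absurd htM (not_le.2 hlt)
  have hΦt : Φ t = P := le_antisymm (hle t) htM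
  by_cases hZt : Z t
  · have h1 := hZ2 t hto hZt
    rw [hΦt] at h1
    by_cases hex : ∃ u₁ ∈ F t, ∃ u₂ ∈ F t, u₁ ≠ u₂ ∧ 0 < q (G u₁ - G o) ∧ 0 < q (G u₂ - G o)
    · obtain ⟨u₁, hu₁, u₂, hu₂, hne, hq₁, hq₂⟩ := hex
      have hc₁ := (hF.mem_F t hto u₁).1 hu₁
      have hc₂ := (hF.mem_F t hto u₂).1 hu₂
      have ho₁ : u₁ ≠ o := hT.ne_of_le hc₁.1.1.le hto
      have ho₂ : u₂ ≠ o := hT.ne_of_le hc₂.1.1.le hto
      obtain ⟨s₁, h2, h3, h4⟩ := TDx.key hT hF q hqc G Z hZ1 u₁ ho₁ hq₁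
      obtain ⟨s₂, h5, h6, h7⟩ := TDx.key hT hF q hqc G Z hZ1 u₂ ho₂ hq₂
      rcases hl.pair t hto u₁ hu₁ u₂ hu₂ hne s₁ s₂ h2 h5 (h3.trans hc₁.2) (h6.trans hc₂.2) with h | h
      · exact ⟨s₁, t, hT.ne_of_le h2 ho₁, hto, h, hΦt, h4⟩
      · exact ⟨s₂, t, hT.ne_of_le h5 ho₂, hto, h, hΦt, h7⟩
    · exfalso
      push Not at hex
      by_cases hone : ∃ u ∈ F t, 0 < q (G u - G o)
      · obtain ⟨u, hu, hqu⟩ := hone
        have hcu := (hF.mem_F t hto u).1 hu
        have h2 : q (G o + ∑ v ∈ F t, (G v - G o)) = q (G u) := by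
          refine semi_eq q ?_
          have h3 : G o + ∑ v ∈ F t, (G v - G o) - G u = ∑ v ∈ (F t).erase u, (G v - G o) := by
            rw [← Finset.add_sum_erase (F t) (fun v => G v - G o) hu]
            abel
          rw [h3]
          refine le_antisymm ?_ (apply_nonneg _ _)
          refine (semi_sum q _ _).trans ?_
          refine Finset.sum_nonpos fun v hv => ?_
          obtain ⟨hv1, hv2⟩ := Finset.mem_erase.1 hv
          exact hex u hu v hv2 (Ne.symm hv1) hqu
        rw [h2, ← hcu.2] at h1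
        have h4 := hG u
        have h5 : t = u := (htmax u (h1.trans h4) hcu.1.1.le).symm
        exact absurd h5 hcu.1.1.ne
      · push Not at hone
        have h2 : q (G o + ∑ v ∈ F t, (G v - G o)) = q (G o) := by
          refine semi_eq q ?_
          rw [add_sub_cancel_left]
          refine le_antisymm ?_ (apply_nonneg _ _)
          refine (semi_sum q _ _).trans ?_
          exact Finset.sum_nonpos fun v hv => hone v hv
        rw [h2] at h1
        have h3 := hG o
        rw [hF.w_o] at h3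
        have h4 : (1 + η * w t) * q (G o) ≤ (1 + η * 1) * q (G o) := by
          refine mul_le_mul_of_nonneg_right ?_ (apply_nonneg _ _)
          have := mul_le_mul_of_nonneg_left (hF.w_le t) hη.le
          linarith
        linarith
  · exact ⟨t, t, hto, hto, hl.self t, hΦt, hZt⟩

end TRE
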