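import Pool.Agent.TRE.St
import Pool.Agent.SDN.Fin

/-!
# TRE [TE]: fibres over a compactified tree
-/

set_option autoImplicit false

namespace TRE

open Set Topology Filter SDN

/-- the difference with the constant `f (σ o) + ∑ u ∈ F, (f (σ u) - f (σ o))`, scaled -/
theorem TEx.diff {K L X : Type} [TopologicalSpace K] [CompactSpace K] [NormedAddCommGroup X] [NormedSpace ℝ X]
    (σ : L → K) (o : L) (F : Finset L) (r : ℝ) : ∃ R : C(K, X) →L[ℝ] C(K, X),
      ∀ f, R f = r • (f - ContinuousMap.const K (f (σ o) + ∑ u ∈ F, (f (σ u) - f (σ o)))) := by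
  choose ev hev using fun k : K => CH_ev (X := X) k
  let κ : C(K, X) →L[ℝ] X := ev (σ o) + ∑ u ∈ F, (ev (σ u) - ev (σ o))
  have hκ : ∀ f, κ f = f (σ o) + ∑ u ∈ F, (f (σ u) - f (σ o)) := by
    intro f
    simp only [κ, add_apply, sum_apply, sub_apply, hev]
  let c0 : X →ₗ[ℝ] C(K, X) :=
    { toFun := fun x => ContinuousMap.const K x
      map_add' := fun x y => rfl
      map_smul' := fun a x => rfl }
  let c1 : X →L[ℝ] C(K, X) := c0.mkContinuous 1 (by
    intro x
    rw [one_mul]
    exact (ContinuousMap.norm_le _ (norm_nonneg x)).2 fun _ => le_rfl)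
  refine ⟨r • (ContinuousLinearMap.id ℝ _ - c1.comp κ), ?_⟩
  intro f
  rw [← hκ f]
  rfl

/-- scaling -/
theorem TEx.scale {E : Type} [NormedAddCommGroup E] [NormedSpace ℝ E] (q : Seminorm ℝ E) (r : ℝ) (hr : 0 ≤ r) (x : E) :
    q (r • x) = r * q x := by
  rw [map_smul_eq_mul, Real.norm_of_nonneg hr]

theorem thm_TE (hTA : St_TA) (hTB : St_TB) (hTC : St_TC) (hTD : St_TD) : St_TE := by
  classical
  intro K L _ _ _ _ _ _ o ρ π hT hρ hπ hfib hsing
  obtain ⟨w, F, c, g, hF⟩ := hTA L o ρ hT hρ
  obtain ⟨lam, hl⟩ := hTB L o w F c g hT.up hT.dn hT.chain hT.wf hF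
  choose σ hσ using hπ
  intro X _ _ _ q C hC hqC hqs ε hε hε1
  have hqc : Continuous q := MK_cont q C hC.le hqC
  set η : ℝ := ε / 8 with hη
  have hη0 : 0 < η := by positivity
  have hη1 : η < 1 := by simp only [hη]; linarith
  have hη8 : η ≤ 1 / 8 := by simp only [hη]; linarith
  choose N hN1 hN2 hN3 hN4 using fun y => Fin_fibre π q C hC hqC hqs hfib hsing y η hη0 hη1
  have hGTS : St_GTS := thm_GTS thm_TH thm_GS
  have hNRM : St_NRM := thm_NRM
  have hcl : IsClosedMap π := π.continuous.isClosedMap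
  -- the section is continuous
  have hσc : Continuous σ := by
    refine continuous_iff_continuousAt.2 fun y => ?_
    by_cases hy : IsOpen {y}
    · have h1 : 𝓝 y = pure y := (isOpen_singleton_iff_nhds_eq_pure y).1 hy
      rw [ContinuousAt, h1, tendsto_pure_left]
      intro s hs
      exact mem_of_mem_nhds hs
    · intro U hU
      have h1 := hcl.eventually_nhds_fiber (p := fun k => k ∈ U) y (by
        intro k hk
        have h2 : k = σ y := hsing y hy k (σ y) hk (hσ y)
        rw [h2]
        exact hU)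
      change ∀ᶠ z in 𝓝 y, σ z ∈ U
      filter_upwards [h1] with z hz
      exact hz (σ z) (hσ z)
  -- small variation
  have hnear : ∀ (f : C(K, X)) (y : L), ¬ IsOpen {y} → ∀ θ : ℝ, 0 < θ →
      ∀ᶠ z in 𝓝 y, ∀ k, π k = z → q (f k - f (σ y)) < θ := by
    intro f y hy θ hθ
    refine hcl.eventually_nhds_fiber (p := fun k => q (f k - f (σ y)) < θ) y ?_
    intro k hk
    have h2 : k = σ y := hsing y hy k (σ y) hk (hσ y)
    rw [h2]
    have h3 : ContinuousAt (fun k => q (f k - f (σ y))) (σ y) :=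
      (hqc.comp (f.continuous.sub continuous_const)).continuousAt
    have h4 : (fun k => q (f k - f (σ y))) (σ y) < θ := by
      change q (f (σ y) - f (σ y)) < θ
      rw [sub_self, map_zero]
      exact hθ
    exact h3.eventually_lt continuousAt_const h4
  choose ev hev using fun k : K => CH_ev (X := X) k
  let κ : L → C(K, X) → X := fun s f => f (σ o) + ∑ u ∈ F s, (f (σ u) - f (σ o))
  let a : L → ℝ := fun s => (1 / 2) ^ c s / (8 * ((c s : ℝ) + 2))
  have ha0 : ∀ s, 0 < a s := by
    intro s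
    have : (0 : ℝ) ≤ c s := Nat.cast_nonneg _
    simp only [a]
    positivity
  choose R hR using fun (s t : L) => TEx.diff (X := X) σ o (F s) (lam s t * a s)
  have hR' : ∀ s t f, R s t f = (lam s t * a s) • (f - ContinuousMap.const K (κ s f)) := fun s t f => hR s t f
  have hw1 : ∀ t, 1 ≤ 1 + η * w t := fun t => by
    have := mul_nonneg hη0.le (hF.w_nonneg t)
    linarith
  have hw2 : ∀ t, 1 + η * w t ≤ 1 + η := fun t => by
    have := mul_le_mul_of_nonneg_left (hF.w_le t) hη0.le
    linarith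
  have hw0 : ∀ t, 0 < 1 + η * w t := fun t => lt_of_lt_of_le one_pos (hw1 t)
  -- the seminorms
  let A : L × L × Bool → Seminorm ℝ C(K, X) := fun i =>
    if i.2.2 then (N i.2.1).comp (((1 + η * w i.2.1) • ContinuousLinearMap.id ℝ C(K, X) :
        C(K, X) →L[ℝ] C(K, X)) : C(K, X) →ₗ[ℝ] C(K, X))
    else q.comp (((1 + η * w i.2.1) • ev (σ i.2.1) : C(K, X) →L[ℝ] X) : C(K, X) →ₗ[ℝ] X)
  have hAt : ∀ s t f, A (s, t, true) f = (1 + η * w t) * N t f := by
    intro s t f
    change N t ((1 + η * w t) • f) = _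
    exact TEx.scale _ _ (hw0 t).le _
  have hAf : ∀ s t f, A (s, t, false) f = (1 + η * w t) * q (f (σ t)) := by
    intro s t f
    change q ((1 + η * w t) • ev (σ t) f) = _
    rw [hev]
    exact TEx.scale _ _ (hw0 t).le _
  let J : L × L × Bool → Seminorm ℝ C(K, X) := fun i =>
    if i.1 = o then (if i.2.1 = o then A i else 0)
    else (if i.2.1 = o then 0 else
      (N i.1).comp ((R i.1 i.2.1 : C(K, X) →L[ℝ] C(K, X)) : C(K, X) →ₗ[ℝ] C(K, X)))
  have hJo : ∀ b, J (o, o, b) = A (o, o, b) := by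
    intro b
    simp only [J, if_true]
  have hJz : ∀ s t b, (s = o ∧ t ≠ o) ∨ (s ≠ o ∧ t = o) → J (s, t, b) = 0 := by
    rintro s t b (⟨h1, h2⟩ | ⟨h1, h2⟩)
    · simp only [J, if_pos h1, if_neg h2]
    · simp only [J, if_neg h1, if_pos h2]
  have hJc : ∀ s t b, s ≠ o → t ≠ o → J (s, t, b) =
      (N s).comp ((R s t : C(K, X) →L[ℝ] C(K, X)) : C(K, X) →ₗ[ℝ] C(K, X)) := by
    intro s t b h1 h2
    simp only [J, if_neg h1, if_neg h2]
  have hJn : ∀ s t b f, s ≠ o → t ≠ o →
      J (s, t, b) f = lam s t * a s * N s (f - ContinuousMap.const K (κ s f)) := by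
    intro s t b f h1 h2
    rw [hJc s t b h1 h2]
    change N s (R s t f) = _
    rw [hR']
    exact TEx.scale _ _ (mul_nonneg (hl.nonneg s t) (ha0 s).le) _
  -- upper bounds
  have hAup : ∀ i f r, 0 ≤ r → (∀ k, q (f k) ≤ r) → A i f ≤ (1 + η) * ((1 + η) * r) := by
    rintro ⟨s, t, b⟩ f r hr h
    have h1 : (1 + η * w t) * ((1 + η) * r) ≤ (1 + η) * ((1 + η) * r) :=
      mul_le_mul_of_nonneg_right (hw2 t) (by positivity)
    refine le_trans ?_ h1
    cases b
    · rw [hAf]
      refine mul_le_mul_of_nonneg_left ?_ (hw0 t).le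
      have h2 := h (σ t)
      nlinarith
    · rw [hAt]
      exact mul_le_mul_of_nonneg_left (hN2 t f r hr (fun k _ => h k)) (hw0 t).le
  have hqn : ∀ (f : C(K, X)) k, q (f k) ≤ C * ‖f‖ := fun f k =>
    (hqC _).trans (mul_le_mul_of_nonneg_left (f.norm_coe_le_norm k) hC.le)
  have hAC : ∀ i f, A i f ≤ (1 + η) * ((1 + η) * (C * ‖f‖)) := fun i f =>
    hAup i f _ (by positivity) (hqn f)
  have hne : Nonempty (L × L × Bool) := ⟨(o, o, true)⟩
  obtain ⟨p, hp1, hp2, hp3⟩ := CH_sup A (fun f => (1 + η) * ((1 + η) * (C * ‖f‖))) hAC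
  have hNp : ∀ f y, N y f ≤ p f := by
    intro f y
    have h1 := hp1 (o, y, true) f
    rw [hAt] at h1
    have h2 := apply_nonneg (N y) f
    nlinarith [hw1 y]
  have hσp : ∀ (f : C(K, X)) y, q (f (σ y)) ≤ p f := by
    intro f y
    have h1 := hp1 (o, y, false) f
    rw [hAf] at h1
    have h2 := apply_nonneg q (f (σ y))
    nlinarith [hw1 y]
  have hplow : ∀ (f : C(K, X)) k, q (f k) ≤ (1 + η) * p f := by
    intro f k
    refine (hN1 (π k) f k rfl).trans ?_
    exact mul_le_mul_of_nonneg_left (hNp f (π k)) (by linarith)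
  have hpC : ∀ f, p f ≤ ((1 + η) * ((1 + η) * C)) * ‖f‖ := by
    intro f
    refine hp2 f _ fun i => ?_
    have := hAC i f
    linarith
  have hsum : ∀ (f : C(K, X)) (s : L), q (∑ u ∈ F s, (f (σ u) - f (σ o))) ≤ (c s : ℝ) * (2 * p f) := by
    intro f s
    have h1 : q (∑ u ∈ F s, (f (σ u) - f (σ o))) ≤ ∑ u ∈ F s, q (f (σ u) - f (σ o)) :=
      Finset.le_sum_of_subadditive q (map_zero q).le (fun x y => map_add_le_add q x y) _ _
    have h2 : ∑ u ∈ F s, q (f (σ u) - f (σ o)) ≤ ∑ _u ∈ F s, (2 * p f) := by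
      refine Finset.sum_le_sum fun u _ => ?_
      have h3 : q (f (σ u) - f (σ o)) ≤ q (f (σ u)) + q (f (σ o)) := map_sub_le_add q _ _
      have h4 := hσp f u
      have h5 := hσp f o
      linarith
    rw [Finset.sum_const, nsmul_eq_mul] at h2
    have h6 : ((F s).card : ℝ) * (2 * p f) ≤ (c s : ℝ) * (2 * p f) := by
      refine mul_le_mul_of_nonneg_right ?_ (by have := apply_nonneg p f; positivity)
      exact_mod_cast hF.card_F s
    linarith
  have hκp : ∀ (f : C(K, X)) (s : L), N s (f - ContinuousMap.const K (κ s f)) ≤ (8 * ((c s : ℝ) + 2)) * p f := by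
    intro f s
    have h0 := apply_nonneg p f
    have hcs : (0 : ℝ) ≤ c s := Nat.cast_nonneg _
    have h1 : N s (f - ContinuousMap.const K (κ s f)) ≤ (1 + η) * ((3 + 2 * (c s : ℝ)) * p f) := by
      refine hN2 s _ _ (by positivity) ?_
      intro k _
      change q (f k - (f (σ o) + ∑ u ∈ F s, (f (σ u) - f (σ o)))) ≤ _
      have h2 : q (f k - (f (σ o) + ∑ u ∈ F s, (f (σ u) - f (σ o)))) ≤
          q (f k) + q (f (σ o) + ∑ u ∈ F s, (f (σ u) - f (σ o))) := map_sub_le_add q _ _
      have h3 : q (f (σ o) + ∑ u ∈ F s, (f (σ u) - f (σ o))) ≤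
          q (f (σ o)) + q (∑ u ∈ F s, (f (σ u) - f (σ o))) := map_add_le_add q _ _
      have h4 := hsum f s
      have h5 := hσp f o
      have h6 := hplow f k
      nlinarith
    nlinarith [mul_nonneg hcs h0]
  have haN : ∀ (f : C(K, X)) (s : L), a s * N s (f - ContinuousMap.const K (κ s f)) ≤ (1 / 2) ^ c s * p f := by
    intro f s
    have hcs : (0 : ℝ) ≤ c s := Nat.cast_nonneg _
    have h1 := mul_le_mul_of_nonneg_left (hκp f s) (ha0 s).le
    have h2 : a s * (8 * ((c s : ℝ) + 2) * p f) = (1 / 2) ^ c s * p f := by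
      simp only [a]
      field_simp
    linarith
  have hhalf : ∀ n : ℕ, (1 / 2 : ℝ) ^ n ≤ 1 := fun n => pow_le_one₀ (by norm_num) (by norm_num)
  have hJp : ∀ i f, J i f ≤ p f := by
    rintro ⟨s, t, b⟩ f
    have h0 := apply_nonneg p f
    by_cases hs : s = o
    · by_cases ht : t = o
      · subst hs
        subst ht
        rw [hJo]
        exact hp1 _ f
      · rw [hJz s t b (Or.inl ⟨hs, ht⟩)]
        exact h0
    · by_cases ht : t = o
      · rw [hJz s t b (Or.inr ⟨hs, ht⟩)]
        exact h0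
      · rw [hJn s t b f hs ht, mul_assoc]
        have h1 := haN f s
        have h2 : (1 / 2 : ℝ) ^ c s * p f ≤ p f := by nlinarith [hhalf (c s)]
        have h3 : 0 ≤ a s * N s (f - ContinuousMap.const K (κ s f)) :=
          mul_nonneg (ha0 s).le (apply_nonneg _ _)
        nlinarith [hl.nonneg s t, hl.le_one s t]
  have hAs : ∀ i f, A i f ≠ 0 → ContDiffAt ℝ ((⊤ : ℕ∞) : WithTop ℕ∞) (⇑(A i)) f := by
    rintro ⟨s, t, b⟩ f hf
    cases b
    · exact CH_comp q ((1 + η * w t) • ev (σ t)) hqs f hf
    · exact CH_comp (N t) ((1 + η * w t) • ContinuousLinearMap.id ℝ C(K, X)) (hN3 t) f hf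
  have hJs : ∀ i f, J i f ≠ 0 → ContDiffAt ℝ ((⊤ : ℕ∞) : WithTop ℕ∞) (⇑(J i)) f := by
    rintro ⟨s, t, b⟩ f hf
    by_cases hs : s = o
    · by_cases ht : t = o
      · subst hs
        subst ht
        rw [hJo] at hf ⊢
        exact hAs _ f hf
      · rw [hJz s t b (Or.inl ⟨hs, ht⟩)] at hf
        exact absurd rfl hf
    · by_cases ht : t = o
      · rw [hJz s t b (Or.inr ⟨hs, ht⟩)] at hf
        exact absurd rfl hf
      · rw [hJc s t b hs ht] at hf ⊢
        exact CH_comp (N s) (R s t) (hN3 s) f hf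
  -- `c_0`
  have hfin : ∀ f, ∀ δ : ℝ, 0 < δ → {i | δ < J i f}.Finite := by
    intro f δ hδ
    have hp0 := apply_nonneg p f
    obtain ⟨n₀, hn₀⟩ : ∃ n₀ : ℕ, ∀ n, n₀ ≤ n → (1 / 2 : ℝ) ^ n * p f ≤ δ := by
      have h1 : Tendsto (fun n : ℕ => (1 / 2 : ℝ) ^ n * p f) atTop (𝓝 (0 * p f)) :=
        (tendsto_pow_atTop_nhds_zero_of_lt_one (by norm_num) (by norm_num)).mul_const _
      rw [zero_mul] at h1
      obtain ⟨n₀, h2⟩ := (h1.eventually (gt_mem_nhds hδ)).exists_forall_of_atTop
      exact ⟨n₀, fun n hn => (h2 n hn).le⟩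
    let S : Set L := ⋃ n ∈ Finset.range n₀, {t : L | t ≠ o ∧ c t = n ∧ ∃ k, π k = t ∧
      δ / 2 < q (f k - (f (σ o) + ∑ u ∈ F t, (f (σ u) - f (σ o))))}
    have hS : S.Finite := by
      refine Set.Finite.biUnion (Finset.finite_toSet _) fun n _ => ?_
      exact hTC K L X o w F c g π σ q C hT hF hσ hC hqC hsing f n (δ / 2) (by linarith)
    let Q : Set (L × L × Bool) := (⋃ s ∈ S, ({s} : Set L) ×ˢ ({t | δ / (p f + 1) < lam s t} ×ˢ (univ : Set Bool)))
      ∪ {(o, o, true), (o, o, false)}
    have hQ : Q.Finite := by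
      refine Set.Finite.union ?_ (Set.toFinite _)
      refine Set.Finite.biUnion hS fun s _ => ?_
      exact (Set.finite_singleton s).prod ((hl.fin s _ (by positivity)).prod Set.finite_univ)
    refine hQ.subset ?_
    rintro ⟨s, t, b⟩ hi
    change δ < J (s, t, b) f at hi
    by_cases hs : s = o
    · by_cases ht : t = o
      · right
        subst hs
        subst ht
        cases b
        · exact Or.inr rfl
        · exact Or.inl rfl
      · rw [hJz s t b (Or.inl ⟨hs, ht⟩)] at hi
        exact absurd hi (not_lt.2 hδ.le)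
    · by_cases ht : t = o
      · rw [hJz s t b (Or.inr ⟨hs, ht⟩)] at hi
        exact absurd hi (not_lt.2 hδ.le)
      · left
        rw [hJn s t b f hs ht, mul_assoc] at hi
        have h1 := haN f s
        have h3 : 0 ≤ a s * N s (f - ContinuousMap.const K (κ s f)) :=
          mul_nonneg (ha0 s).le (apply_nonneg _ _)
        have h4 : δ < a s * N s (f - ContinuousMap.const K (κ s f)) := by
          nlinarith [hl.nonneg s t, hl.le_one s t]
        have h5 : c s < n₀ := by
          by_contra hcon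
          have h6 := hn₀ (c s) (not_lt.1 hcon)
          linarith
        have h7 : δ / (p f + 1) < lam s t := by
          rw [div_lt_iff₀ (by linarith)]
          have h8 : (1 / 2 : ℝ) ^ c s * p f ≤ p f := by nlinarith [hhalf (c s)]
          nlinarith [hl.nonneg s t]
        have h9 : a s ≤ 1 := by
          have hcs : (0 : ℝ) ≤ c s := Nat.cast_nonneg _
          simp only [a]
          rw [div_le_one (by positivity)]
          linarith [hhalf (c s)]
        have h10 : δ < N s (f - ContinuousMap.const K (κ s f)) := by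
          nlinarith [apply_nonneg (N s) (f - ContinuousMap.const K (κ s f))]
        have h11 : s ∈ S := by
          refine mem_iUnion₂.2 ⟨c s, Finset.mem_range.2 h5, hs, rfl, ?_⟩
          by_contra hcon
          push Not at hcon
          have h12 := hN2 s (f - ContinuousMap.const K (κ s f)) (δ / 2) (by linarith)
            (fun k hk => hcon k hk)
          nlinarith
        exact mem_iUnion₂.2 ⟨s, h11, rfl, h7, mem_univ _⟩
  -- attained
  have hmax : ∀ f, p f ≠ 0 → ∃ i, A i f = p f ∧ 0 < J i f := by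
    intro f hf
    have hP0 : 0 < p f := lt_of_le_of_ne (apply_nonneg p f) (Ne.symm hf)
    let Φ : L → ℝ := fun y => max ((1 + η * w y) * q (f (σ y))) ((1 + η * w y) * N y f)
    have hΦA : ∀ y s, ∃ b, A (s, y, b) f = Φ y := by
      intro y s
      rcases max_choice ((1 + η * w y) * q (f (σ y))) ((1 + η * w y) * N y f) with h | h
      · exact ⟨false, by rw [hAf]; exact h.symm⟩
      · exact ⟨true, by rw [hAt]; exact h.symm⟩
    have hΦ1 : ∀ y, (1 + η * w y) * q (f (σ y)) ≤ Φ y := fun y => le_max_left _ _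
    have hΦ2 : ∀ y, (1 + η * w y) * N y f ≤ Φ y := fun y => le_max_right _ _
    let G : C(L, X) := ⟨fun y => f (σ y), f.continuous.comp hσc⟩
    have hres := hTD L X o w F c g lam q C G Φ (fun s => N s (f - ContinuousMap.const K (κ s f)) = 0) η (p f)
      hT hF hl hC hqC hη0 hP0 ?_ ?_ ?_ ?_ ?_ ?_
    · rcases hres with h | ⟨s, t, hs, ht, hlam, h, hZ⟩
      · obtain ⟨b, hb⟩ := hΦA o o
        refine ⟨(o, o, b), hb.trans h, ?_⟩
        rw [hJo, hb, h]
        exact hP0
      · obtain ⟨b, hb⟩ := hΦA t s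
        refine ⟨(s, t, b), hb.trans h, ?_⟩
        rw [hJn s t b f hs ht]
        have h1 : 0 < N s (f - ContinuousMap.const K (κ s f)) :=
          lt_of_le_of_ne (apply_nonneg _ _) (Ne.symm hZ)
        exact mul_pos (mul_pos hlam (ha0 s)) h1
    · -- upper semicontinuity
      intro y r hr
      by_cases hy : IsOpen {y}
      · have h1 : 𝓝 y = pure y := (isOpen_singleton_iff_nhds_eq_pure y).1 hy
        rw [h1]
        exact hr
      · set θ : ℝ := (r - Φ y) / 8 with hθ
        have hθ0 : 0 < θ := by simp only [hθ]; linarith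
        have hw : ∀ᶠ z in 𝓝 y, w z ≤ w y := by
          by_cases hyo : y = o
          · rw [hyo, hF.w_o]
            exact Eventually.of_forall hF.w_le
          · filter_upwards [(hT.clopen y hyo).isOpen.mem_nhds (self_mem_Iic (a := y))] with z hz
            exact hF.mono z y hz
        filter_upwards [hnear f y hy θ hθ0, hw] with z hz hwz
        have hqy := apply_nonneg q (f (σ y))
        have h1 : q (f (σ z)) ≤ θ + q (f (σ y)) := by
          have h2 := hz (σ z) (hσ z)
          have h3 : q (f (σ z)) ≤ q (f (σ z) - f (σ y)) + q (f (σ y)) := by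
            have := map_add_le_add q (f (σ z) - f (σ y)) (f (σ y))
            rwa [sub_add_cancel] at this
          linarith
        have h4 : N z f ≤ 2 * θ + q (f (σ y)) := by
          have h5 := hN2 z (f - ContinuousMap.const K (f (σ y))) θ hθ0.le (fun k hk => (hz k hk).le)
          have h6 := hN4 z (ContinuousMap.const K (f (σ y))) (σ z) (hσ z) (fun k _ => rfl)
          have h7 : N z f ≤ N z (f - ContinuousMap.const K (f (σ y))) + N z (ContinuousMap.const K (f (σ y))) := by
            have := map_add_le_add (N z) (f - ContinuousMap.const K (f (σ y))) (ContinuousMap.const K (f (σ y)))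
            rwa [sub_add_cancel] at this
          rw [h6] at h7
          have h8 : q ((ContinuousMap.const K (f (σ y)) : C(K, X)) (σ z)) = q (f (σ y)) := rfl
          rw [h8] at h7
          nlinarith
        have h9 : ∀ x, 0 ≤ x → x ≤ 2 * θ + q (f (σ y)) → (1 + η * w z) * x < r := by
          intro x hx0 hx
          have h10 : (1 + η * w z) * x ≤ (1 + η * w z) * (2 * θ + q (f (σ y))) :=
            mul_le_mul_of_nonneg_left hx (hw0 z).le
          have h11 : (1 + η * w z) * (2 * θ + q (f (σ y))) =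
              (1 + η * w z) * (2 * θ) + (1 + η * w z) * q (f (σ y)) := by ring
          have h12 : (1 + η * w z) * q (f (σ y)) ≤ (1 + η * w y) * q (f (σ y)) := by
            refine mul_le_mul_of_nonneg_right ?_ hqy
            have := mul_le_mul_of_nonneg_left hwz hη0.le
            linarith
          have h13 : (1 + η * w z) * (2 * θ) ≤ 4 * θ := by
            have := hw2 z
            nlinarith
          have h14 := hΦ1 y
          have h15 : r = 8 * θ + Φ y := by simp only [hθ]; ring
          linarith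
        refine max_lt (h9 _ (apply_nonneg _ _) (by linarith)) (h9 _ (apply_nonneg _ _) h4)
    · intro y
      obtain ⟨b, hb⟩ := hΦA y o
      rw [← hb]
      exact hp1 _ f
    · intro r hr
      obtain ⟨⟨s, y, b⟩, h⟩ := hp3 f r hr
      refine ⟨y, h.trans_le ?_⟩
      cases b
      · rw [hAf]
        exact hΦ1 y
      · rw [hAt]
        exact hΦ2 y
    · exact hΦ1
    · intro s hs hZ
      have h1 := hN1 s (f - ContinuousMap.const K (κ s f)) (σ s) (hσ s)
      rw [hZ, mul_zero] at h1
      exact le_antisymm h1 (apply_nonneg _ _)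
    · intro s hs hZ
      have h1 := hN1 s (f - ContinuousMap.const K (κ s f)) (σ s) (hσ s)
      rw [hZ, mul_zero] at h1
      change q (f (σ s) - κ s f) ≤ 0 at h1
      change Φ s ≤ (1 + η * w s) * q (κ s f)
      refine max_le ?_ ?_
      · refine mul_le_mul_of_nonneg_left ?_ (hw0 s).le
        have h3 : q (f (σ s)) ≤ q (f (σ s) - κ s f) + q (κ s f) := by
          have := map_add_le_add q (f (σ s) - κ s f) (κ s f)
          rwa [sub_add_cancel] at this
        linarith
      · refine mul_le_mul_of_nonneg_left ?_ (hw0 s).le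
        have h6 := hN4 s (ContinuousMap.const K (κ s f)) (σ s) (hσ s) (fun k _ => rfl)
        have h7 : N s f ≤ N s (f - ContinuousMap.const K (κ s f)) + N s (ContinuousMap.const K (κ s f)) := by
          have := map_add_le_add (N s) (f - ContinuousMap.const K (κ s f)) (ContinuousMap.const K (κ s f))
          rwa [sub_add_cancel] at this
        rw [h6, hZ, zero_add] at h7
        exact h7
  obtain ⟨M, hM1, hM2, hM3, hM4⟩ := hGTS C(K, X) (L × L × Bool) p A J ((1 + η) * ((1 + η) * C)) (by positivity)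
    hpC hp1 hJp hAs hJs hfin hmax η hη0 hη1
  have hη2 : 0 < 1 - η := by linarith
  refine hNRM K X q (univ : Set K) (σ o) M η ((1 + η) * (1 + η) / (1 - η) - 1) ε (mem_univ _) hη0.le ?_ ?_ ?_ ?_
    hM3 ?_
  · rw [sub_nonneg, le_div_iff₀ hη2]
    nlinarith
  · rw [add_sub_cancel, mul_div_assoc', div_le_iff₀ hη2]
    have hε8 : ε = 8 * η := by simp only [hη]; ring
    rw [hε8]
    nlinarith [mul_nonneg hη0.le hη0.le, mul_nonneg (mul_nonneg hη0.le hη0.le) hη0.le]
  · intro f k _
    exact (hplow f k).trans (mul_le_mul_of_nonneg_left (hM1 f) (by linarith))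
  · intro f r hr h
    rw [add_sub_cancel]
    have h1 : p f ≤ (1 + η) * ((1 + η) * r) := hp2 f _ fun i => hAup i f r hr (fun k => h k (mem_univ k))
    have h2 := (hM2 f).trans h1
    rw [div_mul_eq_mul_div, le_div_iff₀ hη2]
    linarith
  · intro f f' hf hf' hff
    have hconst : ∀ f : C(K, X), (∀ x ∈ (univ : Set K), f x = f (σ o)) →
        (∀ s t b, A (s, t, b) f = (1 + η * w t) * q (f (σ o))) ∧
        ∀ s t b, J (s, t, b) f = if s = o ∧ t = o then (1 + η * w t) * q (f (σ o)) else 0 := by
      intro f hf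
      have h2 : ∀ s t b, A (s, t, b) f = (1 + η * w t) * q (f (σ o)) := by
        intro s t b
        cases b
        · rw [hAf, hf (σ t) (mem_univ _)]
        · rw [hAt, hN4 t f (σ t) (hσ t) (fun k _ => by rw [hf k (mem_univ _), hf (σ t) (mem_univ _)]),
            hf (σ t) (mem_univ _)]
      refine ⟨h2, ?_⟩
      intro s t b
      by_cases hs : s = o
      · by_cases ht : t = o
        · rw [if_pos ⟨hs, ht⟩, ← h2 s t b]
          subst hs
          subst ht
          rw [hJo]
        · rw [if_neg (fun h => ht h.2), hJz s t b (Or.inl ⟨hs, ht⟩)]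
          rfl
      · rw [if_neg (fun h => hs h.1)]
        by_cases ht : t = o
        · rw [hJz s t b (Or.inr ⟨hs, ht⟩)]
          rfl
        · rw [hJn s t b f hs ht]
          have h3 : f - ContinuousMap.const K (κ s f) = 0 := by
            ext k
            change f k - (f (σ o) + ∑ u ∈ F s, (f (σ u) - f (σ o))) = 0
            rw [Finset.sum_eq_zero (fun u _ => by rw [hf (σ u) (mem_univ _), sub_self]), add_zero,
              hf k (mem_univ _), sub_self]
          rw [h3, map_zero, mul_zero]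
    obtain ⟨h1, h2⟩ := hconst f hf
    obtain ⟨h3, h4⟩ := hconst f' hf'
    refine hM4 f f' ?_ ?_
    · rintro ⟨s, t, b⟩
      rw [h1, h3, hff]
    · rintro ⟨s, t, b⟩
      rw [h2, h4, hff]

end TRE
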