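import Pool.Agent.TRE.TA
import Pool.Agent.TRE.TB
import Pool.Agent.TRE.TC
import Pool.Agent.TRE.TD
import Pool.Agent.TRE.TE

/-!
# TRE: the final theorems of the first part
-/

set_option autoImplicit false

namespace TRE

open Set Topology Filter SDN

/-- fibres over a compactified tree -/
theorem Fin_TE : St_TE := thm_TE thm_TA thm_TB thm_TC thm_TD

/-- compactified trees -/
theorem Fin_TL (L : Type) [TopologicalSpace L] [CompactSpace L] [T2Space L] [PartialOrder L] (o : L) (ρ : L → ℝ)
    (hT : TreeTop L o) (hρ : GoodRho L o ρ) : GoodK L := by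
  refine Fin_TE L L o ρ (ContinuousMap.id L) hT hρ Function.surjective_id ?_ ?_
  · intro y _ h
    have : Subsingleton ((ContinuousMap.id L) ⁻¹' {y}) := by
      constructor
      rintro ⟨a, ha⟩ ⟨b, hb⟩
      exact Subtype.ext (Eq.trans ha (Eq.symm hb))
    exact thm_PD.1 _
  · intro y _ k l hk hl
    exact Eq.trans hk (Eq.symm hl)

end TRE
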