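import Pool.Agent.TRE.StB
import Pool.Agent.TRE.Base

/-!
# TRE, FB2: the final theorem of the second part
-/

set_option autoImplicit false

namespace TRE

open Set Topology Filter SDN

namespace FB2x

theorem scat {L K : Type} [TopologicalSpace L] [CompactSpace L] [T2Space L] [PartialOrder L] {o : L}
    (hT : TreeTop L o) [TopologicalSpace K] [T2Space K] (j : C(L, K))
    (e : {t : L // t ≠ o} → ℕ → K) (hj : Function.Injective j)
    (hcov : ∀ x, (∃ l, x = j l) ∨ ∃ t n, x = e t n) (hop : ∀ t n, IsOpen {e t n}) : Scat K := by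
  intro S hS
  by_cases h1 : ∃ t n, e t n ∈ S
  · obtain ⟨t, n, htn⟩ := h1
    refine ⟨e t n, htn, {e t n}, (hop t n).mem_nhds rfl, ?_⟩
    intro z hz _
    exact hz
  · have h2 : ∀ x ∈ S, ∃ l, x = j l := by
      intro x hx
      rcases hcov x with h | ⟨t, n, h⟩
      · exact h
      · exact absurd ⟨t, n, h ▸ hx⟩ h1
    by_cases h3 : ∃ l, l ≠ o ∧ j l ∈ S
    · obtain ⟨t, ⟨ht1, ht2⟩, ht3⟩ := hT.wf.has_min {l | l ≠ o ∧ j l ∈ S} h3
      have hcl : IsClosed (j '' (Iic t)ᶜ) :=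
        ((hT.clopen t ht1).compl.isClosed.isCompact.image j.continuous).isClosed
      refine ⟨j t, ht2, (j '' (Iic t)ᶜ)ᶜ, hcl.isOpen_compl.mem_nhds ?_, ?_⟩
      · rintro ⟨l, hl, hl2⟩
        have h4 : l = t := hj hl2
        exact hl (h4 ▸ (le_refl l : l ≤ l))
      · intro z hz hzS
        obtain ⟨l, rfl⟩ := h2 z hzS
        have h5 : l ≤ t := by
          by_contra h6
          exact hz ⟨l, h6, rfl⟩
        have h6 : l ≠ o := hT.ne_of_ge h5 ht1
        have h7 : ¬ l < t := ht3 l ⟨h6, hzS⟩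
        rcases h5.lt_or_eq with h8 | h8
        · exact absurd h8 h7
        · rw [h8]
    · obtain ⟨x, hx⟩ := hS
      have h4 : ∀ z ∈ S, z = j o := by
        intro z hz
        obtain ⟨l, rfl⟩ := h2 z hz
        by_contra h5
        exact h3 ⟨l, fun h6 => h5 (by rw [h6]), hz⟩
      refine ⟨x, hx, univ, univ_mem, ?_⟩
      intro z _ hz
      rw [h4 z hz, h4 x hx]

theorem full {T L : Type} [PartialOrder T] [TopologicalSpace L] [PartialOrder L] {o : L} {i : T → L}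
    (hT : TreeTop L o) (hio : ∀ t, i t ≠ o) (hsur : ∀ x, x ≠ o → ∃ t, x = i t)
    (hle : ∀ s t, i s ≤ i t ↔ s ≤ t) (hinf : ∀ t : T, {u | t ⋖ u}.Infinite)
    (hsup : ∀ s : ℕ → T, Monotone s → ∃ b, IsLUB (range s) b) : Full L o := by
  have hinj : Function.Injective i := fun a b h =>
    le_antisymm ((hle a b).1 h.le) ((hle b a).1 h.ge)
  have hlt : ∀ s t, i s < i t ↔ s < t := by
    intro s t
    rw [lt_iff_le_not_ge, lt_iff_le_not_ge, hle, hle]
  refine ⟨hT, ?_, ?_⟩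
  · intro t ht
    obtain ⟨t', rfl⟩ := hsur t ht
    have h1 : i '' {u | t' ⋖ u} ⊆ {u | i t' ⋖ u} := by
      rintro _ ⟨u, hu, rfl⟩
      have hu' : t' ⋖ u := hu
      refine ⟨(hlt _ _).2 hu'.1, ?_⟩
      intro c hc1 hc2
      have hco : c ≠ o := hT.ne_of_ge hc2.le (hio u)
      obtain ⟨c', rfl⟩ := hsur c hco
      exact hu'.2 ((hlt _ _).1 hc1) ((hlt _ _).1 hc2)
    exact ((hinf t').image hinj.injOn).mono h1
  · intro s hs hso
    have h1 : ∀ n, ∃ t, s n = i t := fun n => hsur _ (hso n)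
    choose s' hs' using h1
    have hm : Monotone s' := by
      intro a b hab
      have := hs hab
      rw [hs' a, hs' b] at this
      exact (hle _ _).1 this
    obtain ⟨b, hb⟩ := hsup s' hm
    refine ⟨i b, hio b, ?_, ?_⟩
    · rintro _ ⟨n, rfl⟩
      rw [hs' n]
      exact (hle _ _).2 (hb.1 ⟨n, rfl⟩)
    · intro c hc
      have h2 : s 0 ≤ c := hc ⟨0, rfl⟩
      have hco : c ≠ o := hT.ne_of_le h2 (hso 0)
      obtain ⟨c', rfl⟩ := hsur c hco
      refine (hle _ _).2 (hb.2 ?_)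
      rintro _ ⟨n, rfl⟩
      have h3 : s n ≤ i c' := hc ⟨n, rfl⟩
      rw [hs' n] at h3
      exact (hle _ _).1 h3

theorem cnt {T L : Type} [PartialOrder T] [TopologicalSpace L] [PartialOrder L] {o : L} {i : T → L}
    (hT : TreeTop L o) (hsur : ∀ x, x ≠ o → ∃ t, x = i t)
    (hle : ∀ s t, i s ≤ i t ↔ s ≤ t) (hc : ∀ t : T, (Iic t).Countable) :
    ∀ t, t ≠ o → (Iic t).Countable := by
  intro t ht
  obtain ⟨t', rfl⟩ := hsur t ht
  refine ((hc t').image i).mono ?_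
  intro x hx
  have hx' : x ≤ i t' := hx
  obtain ⟨x', rfl⟩ := hsur x (hT.ne_of_ge hx' ht)
  exact ⟨x', (hle _ _).1 hx', rfl⟩

end FB2x

open FB2x in
theorem thm_FB2 (hPS : St_PS) (hKT : St_KT) (hLT : St_LT) (hTT : St_TT) (hG3 : St_G3) : St_FB2 := by
  refine ⟨?_, ?_⟩
  · intro L _ _ _ _ o hT hc
    obtain ⟨K, tK, cK, hK, j, e, hj, hcov, hop, hte, hco⟩ := hKT L o hT hc
    refine ⟨K, tK, cK, hK, j, hj, ?_, scat hT j e hj hcov hop, ?_⟩
    · intro x hx
      rcases hcov x with ⟨l, h⟩ | ⟨t, n, h⟩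
      · exact absurd ⟨l, h.symm⟩ hx
      · rw [h]
        exact hop t n
    · refine hPS K {t : L // t ≠ o} (j o) (fun t => j t.1) e ?_ hte hco
      intro x
      rcases hcov x with ⟨l, h⟩ | h
      · by_cases hl : l = o
        · exact Or.inl (by rw [h, hl])
        · exact Or.inr (Or.inl ⟨⟨l, hl⟩, h⟩)
      · exact Or.inr (Or.inr h)
  · obtain ⟨T, pT, neT, hwf, hch, hm, hc, hinf, hsup⟩ := hTT
    obtain ⟨L, tL, cL, hL, pL, o, i, hT, hio, hsur, hle⟩ := hLT T hwf hch hm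
    obtain ⟨t0⟩ := neT
    refine ⟨L, tL, cL, hL, pL, o, hT, cnt hT hsur hle hc, ?_⟩
    intro N a b ha hab
    exact hG3 L o N a b (full hT hio hsur hle hinf hsup) ⟨i t0, hio t0⟩ ha hab

end TRE
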