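import Pool.Agent.TRE.StB
import Pool.Agent.TRE.Base

/-!
# TRE, G1: every state can be continued to a stable state
-/

set_option autoImplicit false

namespace TRE

open Set Topology Filter SDN

namespace G1x

variable {L : Type} [TopologicalSpace L] [PartialOrder L] {o : L}

theorem clopen_Ioc (hT : TreeTop L o) {t u : L} (hu : u ≠ o) (h : t ≤ u) : IsClopen (Ioc t u) := by
  have h1 : Ioc t u = Iic u \ Iic t := by
    ext x
    constructor
    · rintro ⟨h1, h2⟩
      exact ⟨h2, fun h3 => absurd h1 (not_lt_of_ge h3)⟩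
    · rintro ⟨h2, h3⟩
      refine ⟨?_, h2⟩
      rcases hT.chain u x t h2 h with h4 | h4
      · exact absurd h4 h3
      · exact lt_of_le_of_ne h4 (fun h5 => h3 (h5 ▸ le_rfl))
  rw [h1]
  exact (hT.clopen u hu).diff (hT.clopen t (hT.ne_of_ge h hu))

theorem chi_one (hT : TreeTop L o) {t u : L} (hu : u ≠ o) (h : t ≤ u) {x : L} (h1 : t < x)
    (h2 : x ≤ u) : chi t u x = 1 := by
  unfold chi
  rw [dif_pos (clopen_Ioc hT hu h)]
  show (Ioc t u).indicator (fun _ => (1 : ℝ)) x = 1
  exact indicator_of_mem (show x ∈ Ioc t u from ⟨h1, h2⟩) _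

theorem chi_zero (hT : TreeTop L o) {t u : L} (hu : u ≠ o) (h : t ≤ u) {x : L}
    (h1 : ¬ (t < x ∧ x ≤ u)) : chi t u x = 0 := by
  unfold chi
  rw [dif_pos (clopen_Ioc hT hu h)]
  show (Ioc t u).indicator (fun _ => (1 : ℝ)) x = 0
  exact indicator_of_notMem (show x ∉ Ioc t u from h1) _

theorem chi_add (hT : TreeTop L o) {t u v : L} (hv : v ≠ o) (h1 : t ≤ u) (h2 : u ≤ v) :
    chi t v = chi t u + chi u v := by
  have hu : u ≠ o := hT.ne_of_ge h2 hv
  ext x
  rw [ContinuousMap.add_apply]
  by_cases hx : t < x ∧ x ≤ v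
  · rw [chi_one hT hv (h1.trans h2) hx.1 hx.2]
    rcases hT.chain v x u hx.2 h2 with h3 | h3
    · rw [chi_one hT hu h1 hx.1 h3, chi_zero hT hv h2 (fun h4 => absurd h4.1 (not_lt_of_ge h3)),
        add_zero]
    · rcases h3.lt_or_eq with h4 | h4
      · rw [chi_zero hT hu h1 (fun h5 => absurd h4 (not_lt_of_ge h5.2)),
          chi_one hT hv h2 h4 hx.2, zero_add]
      · rw [chi_one hT hu h1 hx.1 h4.symm.le,
          chi_zero hT hv h2 (fun h5 => absurd h5.1 (not_lt_of_ge h4.symm.le)), add_zero]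
  · rw [chi_zero hT hv (h1.trans h2) hx, chi_zero hT hu h1 (fun h3 => hx ⟨h3.1, h3.2.trans h2⟩),
      chi_zero hT hv h2 (fun h3 => hx ⟨lt_of_le_of_lt h1 h3.1, h3.2⟩), add_zero]

/-- stabilization of increasing functions -/
theorem stab (hF : Full L o) {t : L} (ht : t ≠ o) (r : L → ℝ) (B : ℝ) (hB : ∀ u, t ≤ u → r u ≤ B)
    (hmono : ∀ u v, t ≤ u → u ≤ v → r u ≤ r v) : ∃ t', t ≤ t' ∧ ∀ u, t' ≤ u → r u = r t' := by
  have hbdd : ∀ u, t ≤ u → BddAbove (r '' Ici u) := by
    intro u hu
    refine ⟨B, ?_⟩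
    rintro _ ⟨v, hv, rfl⟩
    exact hB v (hu.trans hv)
  have hstep : ∀ (n : ℕ) (u : {u : L // t ≤ u}), ∃ v : {u : L // t ≤ u}, u.1 ≤ v.1 ∧
      sSup (r '' Ici u.1) - 1 / ((n : ℝ) + 1) < r v.1 := by
    rintro n ⟨u, hu⟩
    have h1 : (r '' Ici u).Nonempty := ⟨r u, u, self_mem_Ici, rfl⟩
    have h2 : (0 : ℝ) < 1 / ((n : ℝ) + 1) := by positivity
    obtain ⟨_, ⟨v, hv, rfl⟩, h3⟩ := exists_lt_of_lt_csSup h1 (show sSup (r '' Ici u) -
      1 / ((n : ℝ) + 1) < sSup (r '' Ici u) by linarith)
    exact ⟨⟨v, hu.trans hv⟩, hv, h3⟩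
  choose g hg1 hg2 using hstep
  let s : ℕ → {u : L // t ≤ u} := fun n => Nat.rec ⟨t, le_rfl⟩ (fun n u => g n u) n
  have hs : ∀ n, s (n + 1) = g n (s n) := fun n => rfl
  have hmon : Monotone fun n => (s n).1 := monotone_nat_of_le_succ fun n => by
    show (s n).1 ≤ (s (n + 1)).1
    rw [hs]
    exact hg1 n (s n)
  obtain ⟨b, hbo, hb⟩ := hF.sup (fun n => (s n).1) hmon fun n => hF.top.ne_of_le (s n).2 ht
  have hsb : ∀ n, (s n).1 ≤ b := fun n => hb.1 ⟨n, rfl⟩
  refine ⟨b, (s 0).2.trans (hsb 0), fun u hu => ?_⟩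
  have htb : t ≤ b := (s 0).2.trans (hsb 0)
  refine le_antisymm ?_ (hmono b u htb hu)
  refine le_of_forall_pos_le_add fun ε hε => ?_
  obtain ⟨n, hn⟩ := exists_nat_one_div_lt hε
  have h1 : r u ≤ sSup (r '' Ici (s n).1) :=
    le_csSup (hbdd _ (s n).2) ⟨u, (hsb n).trans hu, rfl⟩
  have h2 := hg2 n (s n)
  rw [← hs] at h2
  have h3 : r (s (n + 1)).1 ≤ r b := hmono _ _ (s (n + 1)).2 (hsb (n + 1))
  linarith

end G1x

open G1x in
theorem thm_G1 : St_G1 := by
  classical
  intro L _ _ _ _ o N a b hF ha hN f t hst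
  have hT := hF.top
  obtain ⟨hto, hf0, hf01, hft⟩ := hst
  have huo : ∀ u, t ≤ u → u ≠ o := fun u hu => hT.ne_of_le hu hto
  -- the constants
  have hf1 : 1 ≤ ‖f‖ := by
    have h1 := f.norm_coe_le_norm t
    rw [hft, norm_one] at h1
    exact h1
  have hab : a ≤ b := by
    have h1 := (hN f).1.trans (hN f).2
    exact le_of_mul_le_mul_right h1 (by linarith)
  have hb : 0 < b := ha.trans_le hab
  -- the function `r`
  let St : L → Set ℝ := fun u => {y | ∃ φ : C(L, ℝ), (∀ x, ¬ u < x → φ x = 0) ∧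
    y = N (f + chi t u + φ)}
  let r : L → ℝ := fun u => sInf (St u)
  have hne : ∀ u, (St u).Nonempty := fun u => ⟨_, 0, fun _ _ => rfl, rfl⟩
  have hbd : ∀ u, BddBelow (St u) := by
    intro u
    refine ⟨0, ?_⟩
    rintro _ ⟨φ, _, rfl⟩
    exact apply_nonneg N _
  have hr1 : ∀ u (φ : C(L, ℝ)), (∀ x, ¬ u < x → φ x = 0) → r u ≤ N (f + chi t u + φ) :=
    fun u φ hφ => csInf_le (hbd u) ⟨φ, hφ, rfl⟩
  have hr2 : ∀ u (ε : ℝ), 0 < ε → ∃ φ : C(L, ℝ), (∀ x, ¬ u < x → φ x = 0) ∧
      N (f + chi t u + φ) < r u + ε := by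
    intro u ε hε
    obtain ⟨_, ⟨φ, hφ, rfl⟩, h1⟩ := exists_lt_of_csInf_lt (hne u)
      (show sInf (St u) < sInf (St u) + ε by linarith)
    exact ⟨φ, hφ, h1⟩
  have hmono : ∀ u v, t ≤ u → u ≤ v → r u ≤ r v := by
    intro u v hu huv
    have hv := huo v (hu.trans huv)
    refine le_csInf (hne v) ?_
    rintro _ ⟨φ, hφ, rfl⟩
    have h1 : f + chi t v + φ = f + chi t u + (chi u v + φ) := by
      rw [chi_add hT hv hu huv]
      abel
    rw [h1]
    refine hr1 u _ fun x hx => ?_
    rw [ContinuousMap.add_apply, chi_zero hT hv huv (fun h => hx h.1),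
      hφ x (fun h => hx (lt_of_le_of_lt huv h)), add_zero]
  have hru : ∀ u, r u ≤ N (f + chi t u) := by
    intro u
    have h1 := hr1 u 0 fun _ _ => rfl
    rwa [add_zero] at h1
  have hup : ∀ u, t ≤ u → r u ≤ b := by
    intro u hu
    refine (hru u).trans ((hN _).2.trans ?_)
    have h1 : ‖f + chi t u‖ ≤ 1 := by
      rw [ContinuousMap.norm_le _ zero_le_one]
      intro x
      rw [ContinuousMap.add_apply, Real.norm_eq_abs]
      by_cases hx : x ≤ t
      · rw [chi_zero hT (huo u hu) hu (fun h => absurd h.1 (not_lt_of_ge hx)), add_zero,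
          abs_of_nonneg (hf01 x).1]
        exact (hf01 x).2
      · rw [hf0 x hx, zero_add]
        by_cases hx2 : t < x ∧ x ≤ u
        · rw [chi_one hT (huo u hu) hu hx2.1 hx2.2, abs_one]
        · rw [chi_zero hT (huo u hu) hu hx2, abs_zero]
          exact zero_le_one
    calc b * ‖f + chi t u‖ ≤ b * 1 := mul_le_mul_of_nonneg_left h1 hb.le
      _ = b := mul_one b
  obtain ⟨t', htt', hstab⟩ := stab hF hto r b hup hmono
  set c := r t' with hc
  have hc0 : 0 ≤ c := le_csInf (hne t') (by
    rintro _ ⟨φ, _, rfl⟩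
    exact apply_nonneg N _)
  -- the claim
  have hclaim : ∀ u, t' ≤ u → N (f + chi t u) = c := by
    intro u hu
    have htu : t ≤ u := htt'.trans hu
    refine le_antisymm ?_ ((hstab u hu).symm.le.trans (hru u))
    set B := (c + 1) / a + 1 with hB
    have hB1 : 1 ≤ B := by
      have : 0 ≤ (c + 1) / a := by positivity
      linarith
    have hm : ∀ m : ℕ, 1 ≤ m → N (f + chi t u) ≤ c + (1 + b * B) / m := by
      intro m hm1
      have hm0 : (0 : ℝ) < m := by exact_mod_cast hm1
      obtain ⟨T, hTs, hTc⟩ := (hF.inf u (huo u htu)).exists_subset_card_eq m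
      have hφ : ∀ v : L, ∃ φ : C(L, ℝ), (∀ x, ¬ v < x → φ x = 0) ∧
          N (f + chi t v + φ) < r v + 1 / m := fun v => hr2 v (1 / m) (by positivity)
      choose φ hφ0 hφ1 using hφ
      have hcov : ∀ v ∈ T, u ⋖ v := fun v hv => hTs hv
      have hψ : ∀ v ∈ T, ∀ x, ¬ v ≤ x → (chi u v + φ v) x = 0 := by
        intro v hv x hx
        have huv := hcov v hv
        rw [ContinuousMap.add_apply, hφ0 v x (fun h => hx h.le), add_zero]
        refine chi_zero hT (huo v (htu.trans huv.le)) huv.le ?_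
        rintro ⟨h1, h2⟩
        rcases h2.lt_or_eq with h3 | h3
        · exact huv.2 h1 h3
        · exact hx h3.symm.le
      have hψB : ∀ v ∈ T, ∀ x, |(chi u v + φ v) x| ≤ B := by
        intro v hv x
        have huv := hcov v hv
        have hvo := huo v (htu.trans huv.le)
        by_cases hx : v ≤ x
        · rcases hx.lt_or_eq with h1 | h1
          · have h2 : (chi u v + φ v) x = (f + chi t v + φ v) x := by
              rw [ContinuousMap.add_apply, ContinuousMap.add_apply, ContinuousMap.add_apply,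
                chi_zero hT hvo huv.le (fun h => absurd h1 (not_lt_of_ge h.2)),
                chi_zero hT hvo (htu.trans huv.le) (fun h => absurd h1 (not_lt_of_ge h.2)),
                hf0 x (fun h => absurd (h1.trans_le h) (not_lt_of_ge (htu.trans huv.le)))]
              ring
            rw [h2, ← Real.norm_eq_abs]
            refine ((f + chi t v + φ v).norm_coe_le_norm x).trans ?_
            have h3 := (hN (f + chi t v + φ v)).1
            have h4 := hφ1 v
            rw [hstab v (hu.trans huv.le)] at h4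
            have h5 : (1 : ℝ) / m ≤ 1 := by
              rw [div_le_one hm0]
              exact_mod_cast hm1
            have h6 : ‖f + chi t v + φ v‖ ≤ (c + 1) / a := by
              rw [le_div_iff₀ ha, mul_comm]
              linarith
            linarith
          · rw [← h1, ContinuousMap.add_apply, chi_one hT hvo huv.le huv.lt le_rfl,
              hφ0 v v (lt_irrefl v), add_zero, abs_one]
            exact hB1
        · rw [hψ v hv x hx, abs_zero]
          linarith
      have hsum : ‖∑ v ∈ T, (chi u v + φ v)‖ ≤ B := by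
        rw [ContinuousMap.norm_le _ (by linarith)]
        intro x
        rw [ContinuousMap.coe_sum, Finset.sum_apply, Real.norm_eq_abs]
        by_cases hx : ∃ v ∈ T, v ≤ x
        · obtain ⟨v, hv, hvx⟩ := hx
          rw [Finset.sum_eq_single v]
          · exact hψB v hv x
          · intro v' hv' hne'
            refine hψ v' hv' x fun h => hne' ?_
            exact covBy_incomp (hcov v' hv') (hcov v hv) (hT.chain x v' v h hvx)
          · intro h
            exact absurd hv h
        · rw [Finset.sum_eq_zero, abs_zero]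
          · linarith
          · intro v hv
            exact hψ v hv x fun h => hx ⟨v, hv, h⟩
      have heq : (m : ℝ) • (f + chi t u) = ∑ v ∈ T, (f + chi t v + φ v) -
          ∑ v ∈ T, (chi u v + φ v) := by
        rw [← Finset.sum_sub_distrib]
        have h1 : ∀ v ∈ T, f + chi t v + φ v - (chi u v + φ v) = f + chi t u := by
          intro v hv
          have huv := hcov v hv
          rw [chi_add hT (huo v (htu.trans huv.le)) htu huv.le]
          abel
        rw [Finset.sum_congr rfl h1, Finset.sum_const, hTc, Nat.cast_smul_eq_nsmul]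
      have h1 : (m : ℝ) * N (f + chi t u) = N ((m : ℝ) • (f + chi t u)) := by
        rw [map_smul_eq_mul, Real.norm_eq_abs, abs_of_pos hm0]
      have h2 : N ((m : ℝ) • (f + chi t u)) ≤ N (∑ v ∈ T, (f + chi t v + φ v)) +
          N (∑ v ∈ T, (chi u v + φ v)) := by
        rw [heq]
        exact map_sub_le_add N _ _
      have h3 : N (∑ v ∈ T, (f + chi t v + φ v)) ≤ m * (c + 1 / m) := by
        refine (semi_sum N T _).trans ?_
        have h4 : ∀ v ∈ T, N (f + chi t v + φ v) ≤ c + 1 / m := by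
          intro v hv
          have h5 := hφ1 v
          rw [hstab v (hu.trans (hcov v hv).le)] at h5
          exact h5.le
        refine (Finset.sum_le_sum h4).trans (le_of_eq ?_)
        rw [Finset.sum_const, hTc, nsmul_eq_mul]
      have h4 : N (∑ v ∈ T, (chi u v + φ v)) ≤ b * B :=
        (hN _).2.trans (mul_le_mul_of_nonneg_left hsum hb.le)
      have h5 : (m : ℝ) * N (f + chi t u) ≤ m * (c + (1 + b * B) / m) := by
        have h6 : (m : ℝ) * (c + 1 / m) + b * B = m * (c + (1 + b * B) / m) := by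
          field_simp
          ring
        linarith
      exact le_of_mul_le_mul_left h5 hm0
    refine le_of_forall_pos_le_add fun ε hε => ?_
    have hK : 0 < 1 + b * B := by positivity
    obtain ⟨n, hn⟩ := exists_nat_one_div_lt (show 0 < ε / (1 + b * B) by positivity)
    have h1 := hm (n + 1) (by omega)
    have h2 : (1 + b * B) / ((n + 1 : ℕ) : ℝ) ≤ ε := by
      have h3 : (0 : ℝ) < (n : ℝ) + 1 := by positivity
      rw [lt_div_iff₀ hK, div_mul_eq_mul_div, one_mul] at hn
      push_cast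
      exact hn.le
    linarith
  refine ⟨t', htt', fun u hu => ?_⟩
  have htu : t ≤ u := htt'.trans hu
  have h1 : f + chi t t' + chi t' u = f + chi t u := by
    rw [chi_add hT (huo u htu) htt' hu]
    abel
  rw [h1]
  refine ⟨by rw [hclaim u hu, hclaim t' le_rfl], fun φ hφ => ?_⟩
  rw [hclaim t' le_rfl, ← hstab u hu]
  exact hr1 u φ hφ

end TRE
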