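import Pool.Agent.TRE.StB

/-!
# TRE, G2: limits of sequences of stable states
-/

set_option autoImplicit false

namespace TRE

open Set Topology Filter SDN

namespace G2x

section Chi

variable {L : Type} [TopologicalSpace L] [PartialOrder L] {o : L}

private lemma ne_o (h : TreeTop L o) {t u : L} (ht : t ≠ o) (htu : t ≤ u) : u ≠ o :=
  fun hu => ht (h.dn t (hu ▸ htu))

private lemma lt_of_not (h : TreeTop L o) {t u x : L} (htu : t ≤ u) (hxu : x ≤ u) (hx : ¬ x ≤ t) :
    t < x := by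
  rcases h.chain u x t hxu htu with h3 | h3
  · exact absurd h3 hx
  · exact lt_of_le_of_ne h3 fun e => hx e.ge

private lemma clopen_Ioc (h : TreeTop L o) {t u : L} (ht : t ≠ o) (htu : t ≤ u) :
    IsClopen (Ioc t u) := by
  have hu := ne_o h ht htu
  have h1 : Ioc t u = Iic u \ Iic t := by
    ext x
    simp only [mem_Ioc, Set.mem_sdiff, mem_Iic]
    constructor
    · rintro ⟨h1, h2⟩
      exact ⟨h2, not_le_of_gt h1⟩
    · rintro ⟨h1, h2⟩
      exact ⟨lt_of_not h htu h1 h2, h1⟩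
  rw [h1]
  exact (h.clopen u hu).diff (h.clopen t ht)

private lemma chi_apply (h : TreeTop L o) {t u : L} (ht : t ≠ o) (htu : t ≤ u) (x : L) :
    chi t u x = (Ioc t u).indicator (fun _ => (1 : ℝ)) x := by
  unfold chi
  rw [dif_pos (clopen_Ioc h ht htu)]
  rfl

private lemma chi_one (h : TreeTop L o) {t u x : L} (ht : t ≠ o) (htx : t < x) (hxu : x ≤ u) :
    chi t u x = 1 := by
  rw [chi_apply h ht (htx.le.trans hxu), indicator_of_mem (show x ∈ Ioc t u from ⟨htx, hxu⟩)]

private lemma chi_zero_left (h : TreeTop L o) {t u x : L} (ht : t ≠ o) (htu : t ≤ u)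
    (hx : ¬ t < x) : chi t u x = 0 := by
  rw [chi_apply h ht htu, indicator_of_notMem (fun h1 => hx h1.1)]

private lemma chi_zero_right (h : TreeTop L o) {t u x : L} (ht : t ≠ o) (htu : t ≤ u)
    (hx : ¬ x ≤ u) : chi t u x = 0 := by
  rw [chi_apply h ht htu, indicator_of_notMem (fun h1 => hx h1.2)]

private lemma chi_add (h : TreeTop L o) {t u v : L} (ht : t ≠ o) (htu : t ≤ u) (huv : u ≤ v) :
    chi t v = chi t u + chi u v := by
  have hu := ne_o h ht htu
  ext x
  rw [ContinuousMap.add_apply]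
  by_cases hxv : x ≤ v
  · by_cases hxu : x ≤ u
    · rw [chi_zero_left h hu huv (not_lt_of_ge hxu), add_zero]
      by_cases htx : t < x
      · rw [chi_one h ht htx hxv, chi_one h ht htx hxu]
      · rw [chi_zero_left h ht (htu.trans huv) htx, chi_zero_left h ht htu htx]
    · have hux := lt_of_not h huv hxv hxu
      rw [chi_one h ht (lt_of_le_of_lt htu hux) hxv, chi_one h hu hux hxv,
        chi_zero_right h ht htu hxu, zero_add]
  · have hxu : ¬ x ≤ u := fun h1 => hxv (h1.trans huv)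
    rw [chi_zero_right h ht (htu.trans huv) hxv, chi_zero_right h ht htu hxu,
      chi_zero_right h hu huv hxv, zero_add]

end Chi

section Order

variable {L : Type} [TopologicalSpace L] [CompactSpace L] [PartialOrder L] {o : L}
  {N : Seminorm ℝ C(L, ℝ)}

omit [CompactSpace L] in
private lemma ext_refl {f : C(L, ℝ)} {t : L} (hs : State o f t) : Ext N f t f t := by
  obtain ⟨-, -, -, h1⟩ := hs
  refine ⟨le_rfl, by rw [h1]; norm_num, fun x _ => by rw [h1, one_mul], fun x h2 h3 => ?_, ?_⟩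
  · rw [le_antisymm h3 h2]
  · rw [h1, Real.sqrt_one, one_mul]

omit [CompactSpace L] in
private lemma ext_trans {f₁ f₂ f₃ : C(L, ℝ)} {t₁ t₂ t₃ : L} (hL : TreeTop L o)
    (hs : State o f₂ t₂)
    (h1 : Ext N f₁ t₁ f₂ t₂) (h2 : Ext N f₂ t₂ f₃ t₃) : Ext N f₁ t₁ f₃ t₃ := by
  obtain ⟨a1, a2, a3, a4, a5⟩ := h1
  obtain ⟨b1, b2, b3, b4, b5⟩ := h2
  have h12 : f₃ t₁ = f₃ t₂ * f₂ t₁ := b3 t₁ a1
  have hle : f₃ t₁ ≤ f₃ t₂ := by
    rw [h12]
    have := (hs.2.2.1 t₁).2
    nlinarith
  refine ⟨a1.trans b1, by rw [h12]; positivity, fun x hx => ?_, fun x hx hx' => ?_, ?_⟩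
  · rw [b3 x (hx.trans a1), a3 x hx, h12]; ring
  · rcases hL.chain t₃ x t₂ hx' b1 with h | h
    · rw [h12, b3 x h]
      exact mul_le_mul_of_nonneg_left (a4 x hx h) b2.le
    · exact hle.trans (b4 x h hx')
  · calc N f₃ ≤ Real.sqrt (f₃ t₂) * N f₂ := b5
      _ ≤ Real.sqrt (f₃ t₂) * (Real.sqrt (f₂ t₁) * N f₁) :=
          mul_le_mul_of_nonneg_left a5 (Real.sqrt_nonneg _)
      _ = Real.sqrt (f₃ t₁) * N f₁ := by
          rw [h12, Real.sqrt_mul b2.le]; ring

end Order

end G2x

open G2x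

theorem thm_G2 (hG1 : St_G1) : St_G2 := by
  intro L _ _ _ _ o N a b hF ha hN f t hS hSt hE
  have hL := hF.top
  -- comparison of any two members of the sequence
  have hE' : ∀ m n, m ≤ n → Ext N (f m) (t m) (f n) (t n) := by
    intro m n hmn
    induction n, hmn using Nat.le_induction with
    | base => exact ext_refl (hS m)
    | succ n hmn ih => exact ext_trans hL (hS n) ih (hE n)
  have hto : ∀ n, t n ≠ o := fun n => (hS n).1
  have htm : Monotone t := monotone_nat_of_le_succ fun n => (hE n).1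
  have hmul : ∀ m n l, m ≤ n → n ≤ l → f l (t m) = f l (t n) * f n (t m) := by
    intro m n l hmn hnl
    exact (hE' n l hnl).2.2.1 (t m) (htm hmn)
  have hpos : ∀ m n, m ≤ n → 0 < f n (t m) := fun m n hmn => (hE' m n hmn).2.1
  have hle1 : ∀ m x, f m x ≤ 1 := fun m x => ((hS m).2.2.1 x).2
  have hge0 : ∀ m x, 0 ≤ f m x := fun m x => ((hS m).2.2.1 x).1
  have hanti : Antitone fun n => f n (t 0) := by
    apply antitone_nat_of_succ_le
    intro n
    rw [hmul 0 n (n + 1) (Nat.zero_le n) (Nat.le_succ n)]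
    have h1 := hle1 (n + 1) (t n)
    have h2 := hge0 n (t 0)
    nlinarith
  have hNpos : ∀ n, a ≤ N (f n) := by
    intro n
    have h1 : (1 : ℝ) ≤ ‖f n‖ := by
      have h2 := (f n).norm_coe_le_norm (t n)
      rw [(hS n).2.2.2] at h2
      simpa using h2
    have h2 := (hN (f n)).1
    nlinarith
  have hN0 : 0 < N (f 0) := ha.trans_le (hNpos 0)
  have hlow : ∀ n, (a / N (f 0)) ^ 2 ≤ f n (t 0) := by
    intro n
    have h1 := (hNpos n).trans (hE' 0 n (Nat.zero_le n)).2.2.2.2
    have h2 : a / N (f 0) ≤ Real.sqrt (f n (t 0)) := by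
      rw [div_le_iff₀ hN0]; exact h1
    calc (a / N (f 0)) ^ 2 ≤ Real.sqrt (f n (t 0)) ^ 2 := by gcongr
      _ = f n (t 0) := Real.sq_sqrt (hge0 n _)
  have hlow0 : 0 < (a / N (f 0)) ^ 2 := by positivity
  obtain ⟨A0, hA0⟩ : ∃ A0, Tendsto (fun n => f n (t 0)) atTop (𝓝 A0) :=
    ⟨_, tendsto_atTop_ciInf hanti ⟨(a / N (f 0)) ^ 2, by rintro _ ⟨n, rfl⟩; exact hlow n⟩⟩
  have hA0pos : 0 < A0 := lt_of_lt_of_le hlow0 (ge_of_tendsto' hA0 hlow)
  have hA0le : ∀ n, A0 ≤ f n (t 0) := fun n => hanti.le_of_tendsto hA0 n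
  have hp0 : ∀ n, 0 < f n (t 0) := fun n => hpos 0 n (Nat.zero_le n)
  have hα : ∀ m n, m ≤ n → f n (t m) = f n (t 0) / f m (t 0) := by
    intro m n hmn
    rw [hmul 0 m n (Nat.zero_le m) hmn]
    field_simp [(hp0 m).ne']
  set A : ℕ → ℝ := fun m => A0 / f m (t 0) with hA
  have hAlim : ∀ m, Tendsto (fun n => f n (t m)) atTop (𝓝 (A m)) := by
    intro m
    have h1 : Tendsto (fun n => f n (t 0) / f m (t 0)) atTop (𝓝 (A0 / f m (t 0))) :=
      hA0.div_const _
    refine h1.congr' ?_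
    filter_upwards [eventually_ge_atTop m] with n hn
    exact (hα m n hn).symm
  have hApos : ∀ m, 0 < A m := fun m => div_pos hA0pos (hp0 m)
  have hAle : ∀ m n, m ≤ n → A m ≤ f n (t m) := by
    intro m n hmn
    rw [hα m n hmn]
    exact div_le_div_of_nonneg_right (hA0le n) (hp0 m).le
  have hAle1 : ∀ m, A m ≤ 1 := fun m => (hAle m m le_rfl).trans (hle1 m _)
  have hA1 : Tendsto A atTop (𝓝 1) := by
    have h1 : Tendsto (fun m => A0 / f m (t 0)) atTop (𝓝 (A0 / A0)) :=
      tendsto_const_nhds.div hA0 hA0pos.ne'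
    rwa [div_self hA0pos.ne'] at h1
  -- the least upper bound
  obtain ⟨t', ht'o, ht'⟩ := hF.sup t htm hto
  have htt' : ∀ n, t n ≤ t' := fun n => ht'.1 (mem_range_self n)
  set g : ℕ → C(L, ℝ) := fun n => f n + chi (t n) t' with hg
  have hgle : ∀ n x, x ≤ t n → g n x = f n x := by
    intro n x hx
    simp only [hg, ContinuousMap.add_apply]
    rw [chi_zero_left hL (hto n) (htt' n) (not_lt_of_ge hx), add_zero]
  have hgmid : ∀ n x, ¬ x ≤ t n → x ≤ t' → g n x = 1 := by
    intro n x hx hx'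
    simp only [hg, ContinuousMap.add_apply]
    rw [(hS n).2.1 x hx, chi_one hL (hto n) (lt_of_not hL (htt' n) hx' hx) hx', zero_add]
  have hgout : ∀ n x, ¬ x ≤ t' → g n x = 0 := by
    intro n x hx
    simp only [hg, ContinuousMap.add_apply]
    rw [(hS n).2.1 x (fun h => hx (h.trans (htt' n))), chi_zero_right hL (hto n) (htt' n) hx,
      zero_add]
  have hg01 : ∀ n x, 0 ≤ g n x ∧ g n x ≤ 1 := by
    intro n x
    by_cases h1 : x ≤ t n
    · rw [hgle n x h1]; exact (hS n).2.2.1 x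
    · by_cases h2 : x ≤ t'
      · rw [hgmid n x h1 h2]; norm_num
      · rw [hgout n x h2]; norm_num
  have hgge : ∀ n m x, n ≤ m → t n ≤ x → x ≤ t' → f m (t n) ≤ g m x := by
    intro n m x hnm h1 h2
    by_cases h3 : x ≤ t m
    · rw [hgle m x h3]; exact (hE' n m hnm).2.2.2.1 x h1 h3
    · rw [hgmid m x h3 h2]; exact hle1 m _
  have hdist : ∀ n m, n ≤ m → ‖g m - g n‖ ≤ 1 - A n := by
    intro n m hnm
    rw [ContinuousMap.norm_le _ (by linarith [hAle1 n])]
    intro x
    have hαA := hAle n m hnm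
    rw [ContinuousMap.sub_apply, Real.norm_eq_abs]
    by_cases h1 : x ≤ t n
    · rw [hgle n x h1, hgle m x (h1.trans (htm hnm)), (hE' n m hnm).2.2.1 x h1, abs_le]
      have h2 := hge0 n x
      have h3 := hle1 n x
      have h4 := hle1 m (t n)
      constructor <;> nlinarith
    · by_cases h2 : x ≤ t'
      · have h3 := hgge n m x hnm (lt_of_not hL (htt' n) h2 h1).le h2
        have h4 := (hg01 m x).2
        rw [hgmid n x h1 h2, abs_le]
        constructor <;> linarith
      · rw [hgout n x h2, hgout m x h2, sub_zero, abs_zero]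
        linarith [hAle1 n]
  have hcauchy : CauchySeq g := by
    rw [Metric.cauchySeq_iff']
    intro ε hε
    have h1 : Tendsto (fun n => 1 - A n) atTop (𝓝 0) := by
      have := (tendsto_const_nhds (x := (1 : ℝ))).sub hA1
      rwa [sub_self] at this
    obtain ⟨n, hn⟩ := (h1.eventually (gt_mem_nhds hε)).exists
    refine ⟨n, fun m hm => ?_⟩
    rw [dist_eq_norm]
    exact lt_of_le_of_lt (hdist n m hm) hn
  obtain ⟨G, hG⟩ := cauchySeq_tendsto_of_complete hcauchy
  have hGx : ∀ x, Tendsto (fun n => g n x) atTop (𝓝 (G x)) := fun x =>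
    ((continuous_eval_const x).tendsto G).comp hG
  have hGle : ∀ n x, x ≤ t n → G x = A n * f n x := by
    intro n x hx
    refine tendsto_nhds_unique (hGx x) ?_
    refine ((hAlim n).mul_const (f n x)).congr' ?_
    filter_upwards [eventually_ge_atTop n] with m hm
    rw [hgle m x (hx.trans (htm hm)), (hE' n m hm).2.2.1 x hx]
  have hG01 : ∀ x, 0 ≤ G x ∧ G x ≤ 1 := fun x =>
    ⟨ge_of_tendsto' (hGx x) fun n => (hg01 n x).1, le_of_tendsto' (hGx x) fun n => (hg01 n x).2⟩
  have hGout : ∀ x, ¬ x ≤ t' → G x = 0 := by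
    intro x hx
    refine tendsto_nhds_unique (hGx x) ?_
    simp only [fun n => hgout n x hx]
    exact tendsto_const_nhds
  have hGt' : G t' = 1 := by
    refine tendsto_nhds_unique (hGx t') ?_
    have h1 : ∀ n, g n t' = 1 := by
      intro n
      by_cases h : t' ≤ t n
      · rw [hgle n t' h, le_antisymm h (htt' n)]; exact (hS n).2.2.2
      · exact hgmid n t' h le_rfl
    simp only [h1]
    exact tendsto_const_nhds
  have hGge : ∀ n x, t n ≤ x → x ≤ t' → A n ≤ G x := by
    intro n x h1 h2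
    refine ge_of_tendsto (hGx x) ?_
    filter_upwards [eventually_ge_atTop n] with m hm
    exact (hAle n m hm).trans (hgge n m x hm h1 h2)
  have hGS : State o G t' := ⟨ht'o, hGout, hG01, hGt'⟩
  obtain ⟨t'', ht'', hst⟩ := hG1 L o N a b hF ha hN G t' hGS
  have ht''o := ne_o hL ht'o ht''
  set F := G + chi t' t'' with hFdef
  have hFle : ∀ x, x ≤ t' → F x = G x := by
    intro x hx
    rw [hFdef, ContinuousMap.add_apply, chi_zero_left hL ht'o ht'' (not_lt_of_ge hx), add_zero]
  have hFmid : ∀ x, ¬ x ≤ t' → x ≤ t'' → F x = 1 := by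
    intro x hx hx'
    rw [hFdef, ContinuousMap.add_apply, hGout x hx,
      chi_one hL ht'o (lt_of_not hL ht'' hx' hx) hx', zero_add]
  have hFout : ∀ x, ¬ x ≤ t'' → F x = 0 := by
    intro x hx
    rw [hFdef, ContinuousMap.add_apply, hGout x (fun h => hx (h.trans ht'')),
      chi_zero_right hL ht'o ht'' hx, zero_add]
  refine ⟨F, t'', ⟨ht''o, hFout, ?_, ?_⟩, hst, fun n => ⟨(htt' n).trans ht'', ?_, ?_, ?_, ?_⟩⟩
  · intro x
    by_cases h1 : x ≤ t'
    · rw [hFle x h1]; exact hG01 x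
    · by_cases h2 : x ≤ t''
      · rw [hFmid x h1 h2]; norm_num
      · rw [hFout x h2]; norm_num
  · by_cases h1 : t'' ≤ t'
    · rw [hFle t'' h1, le_antisymm h1 ht'', hGt']
    · exact hFmid t'' h1 le_rfl
  · rw [hFle _ (htt' n), hGle n _ le_rfl, (hS n).2.2.2, mul_one]
    exact hApos n
  · intro x hx
    rw [hFle _ (htt' n), hGle n _ le_rfl, (hS n).2.2.2, mul_one, hFle x (hx.trans (htt' n)),
      hGle n x hx]
  · intro x hx hx'
    rw [hFle _ (htt' n), hGle n _ le_rfl, (hS n).2.2.2, mul_one]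
    by_cases h1 : x ≤ t'
    · rw [hFle x h1]; exact hGge n x hx h1
    · rw [hFmid x h1 hx']; exact hAle1 n
  · rw [hFle _ (htt' n), hGle n _ le_rfl, (hS n).2.2.2, mul_one]
    have h1 : ∀ m, g m + chi t' t'' = f m + chi (t m) t'' := by
      intro m
      rw [hg, chi_add hL (hto m) (htt' m) ht'', add_assoc]
    have h2 : Tendsto (fun m => N (g m + chi t' t'')) atTop (𝓝 (N F)) := by
      rw [tendsto_iff_norm_sub_tendsto_zero]
      have h3 : Tendsto (fun m => b * ‖g m - G‖) atTop (𝓝 0) := by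
        have := (tendsto_iff_norm_sub_tendsto_zero.1 hG).const_mul b
        rwa [mul_zero] at this
      refine squeeze_zero (fun m => norm_nonneg _) (fun m => ?_) h3
      have h4 : g m + chi t' t'' - F = g m - G := by rw [hFdef]; abel
      calc ‖N (g m + chi t' t'') - N F‖ ≤ N (g m + chi t' t'' - F) := by
            rw [Real.norm_eq_abs]; exact abs_sub_map_le_sub N _ _
        _ ≤ b * ‖g m - G‖ := by rw [h4]; exact (hN _).2
    refine le_of_tendsto_of_tendsto h2
      (((Real.continuous_sqrt.tendsto _).comp (hAlim n)).mul_const (N (f n))) ?_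
    filter_upwards [eventually_ge_atTop n] with m hm
    rw [h1 m, (hSt m t'' ((htt' m).trans ht'')).1]
    exact (hE' n m hm).2.2.2.2

end TRE
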