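import Pool.Agent.TRE.StB
import Pool.Agent.TRE.Base

/-!
# TRE, G3: no smooth norm on the full tree (helper81)
-/

set_option autoImplicit false

namespace TRE

open Set Topology Filter SDN

namespace G3x

variable {L : Type} [TopologicalSpace L] [PartialOrder L] {o : L}

private theorem chi_apply (hT : TreeTop L o) {s t : L} (h : s ≤ t) (ht : t ≠ o) (x : L) :
    (s < x ∧ x ≤ t → chi s t x = 1) ∧ (¬ (s < x ∧ x ≤ t) → chi s t x = 0) := by
  have hs := hT.ne_of_ge h ht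
  have e : Ioc s t = Iic t \ Iic s := by
    ext y
    constructor
    · rintro ⟨h1, h2⟩
      exact ⟨h2, fun h3 => absurd h1 (not_lt_of_ge h3)⟩
    · rintro ⟨h1, h2⟩
      rcases hT.chain t y s h1 h with h3 | h3
      · exact absurd h3 h2
      · exact ⟨lt_of_le_of_ne h3 (fun h4 => h2 (h4 ▸ le_rfl)), h1⟩
  have hc : IsClopen (Ioc s t) := by rw [e]; exact (hT.clopen t ht).diff (hT.clopen s hs)
  unfold chi
  rw [dif_pos hc]
  constructor
  · intro h1
    exact indicator_of_mem (show x ∈ Ioc s t from h1) (fun _ => (1 : ℝ))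
  · intro h1
    exact indicator_of_notMem (show x ∉ Ioc s t from h1) (fun _ => (1 : ℝ))

private theorem chi_mem (hT : TreeTop L o) {s t : L} (h : s ≤ t) (ht : t ≠ o) (x : L) :
    0 ≤ chi s t x ∧ chi s t x ≤ 1 := by
  by_cases hx : s < x ∧ x ≤ t
  · rw [(chi_apply hT h ht x).1 hx]; norm_num
  · rw [(chi_apply hT h ht x).2 hx]; norm_num

private theorem chi_add (hT : TreeTop L o) {s t u : L} (h : s ≤ t) (h' : t ≤ u) (hu : u ≠ o) :
    chi s t + chi t u = chi s u := by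
  have ht := hT.ne_of_ge h' hu
  ext x
  rw [ContinuousMap.add_apply]
  by_cases h1 : s < x ∧ x ≤ t
  · rw [(chi_apply hT h ht x).1 h1, (chi_apply hT h' hu x).2 (fun h2 => absurd h1.2 (not_le_of_gt h2.1)),
      (chi_apply hT (h.trans h') hu x).1 ⟨h1.1, h1.2.trans h'⟩, add_zero]
  · by_cases h2 : t < x ∧ x ≤ u
    · rw [(chi_apply hT h ht x).2 h1, (chi_apply hT h' hu x).1 h2,
        (chi_apply hT (h.trans h') hu x).1 ⟨h.trans_lt h2.1, h2.2⟩, zero_add]
    · rw [(chi_apply hT h ht x).2 h1, (chi_apply hT h' hu x).2 h2,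
        (chi_apply hT (h.trans h') hu x).2 ?_, zero_add]
      rintro ⟨h3, h4⟩
      rcases hT.chain u x t h4 h' with h5 | h5
      · exact h1 ⟨h3, h5⟩
      · rcases h5.lt_or_eq with h6 | h6
        · exact h2 ⟨h6, h4⟩
        · exact h1 ⟨h3, h6.ge⟩

private theorem chi_self (hT : TreeTop L o) {t : L} (ht : t ≠ o) : chi t t = 0 := by
  ext x
  rw [(chi_apply hT le_rfl ht x).2 (fun h => absurd h.1 (not_lt_of_ge h.2))]
  rfl

private theorem state_up (hT : TreeTop L o) {f : C(L, ℝ)} {t u : L} (h : State o f t) (hu : t ≤ u) :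
    State o (f + chi t u) u := by
  have huo := hT.ne_of_le hu h.1
  obtain ⟨h1, h2, h3, h4⟩ := h
  refine ⟨huo, fun x hx => ?_, fun x => ?_, ?_⟩
  · rw [ContinuousMap.add_apply, h2 x (fun h => hx (h.trans hu)),
      (chi_apply hT hu huo x).2 (fun h => hx h.2), add_zero]
  · rw [ContinuousMap.add_apply]
    by_cases hx : x ≤ t
    · rw [(chi_apply hT hu huo x).2 (fun h => absurd hx (not_le_of_gt h.1)), add_zero]
      exact h3 x
    · rw [h2 x hx, zero_add]
      exact chi_mem hT hu huo x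
  · rw [ContinuousMap.add_apply]
    rcases hu.lt_or_eq with h5 | h5
    · rw [h2 u (not_le_of_gt h5), (chi_apply hT hu huo u).1 ⟨h5, le_rfl⟩, zero_add]
    · subst h5
      rw [h4, (chi_apply hT hu huo t).2 (fun h => lt_irrefl _ h.1), add_zero]

private theorem state_sc (hT : TreeTop L o) {f : C(L, ℝ)} {t v : L} (h : State o f t) (hv : t < v)
    {α : ℝ} (h0 : 0 ≤ α) (h1 : α ≤ 1) : State o (α • f + chi t v) v := by
  have hvo : v ≠ o := hT.ne_of_le hv.le h.1
  obtain ⟨k1, k2, k3, k4⟩ := h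
  refine ⟨hvo, fun x hx => ?_, fun x => ?_, ?_⟩
  · rw [ContinuousMap.add_apply, ContinuousMap.smul_apply, k2 x (fun h => hx (h.trans hv.le)),
      (chi_apply hT hv.le hvo x).2 (fun h => hx h.2), smul_zero, add_zero]
  · rw [ContinuousMap.add_apply, ContinuousMap.smul_apply, smul_eq_mul]
    by_cases hx : x ≤ t
    · rw [(chi_apply hT hv.le hvo x).2 (fun h => absurd hx (not_le_of_gt h.1)), add_zero]
      exact ⟨mul_nonneg h0 (k3 x).1, mul_le_one₀ h1 (k3 x).1 (k3 x).2⟩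
    · rw [k2 x hx, mul_zero, zero_add]
      exact chi_mem hT hv.le hvo x
  · rw [ContinuousMap.add_apply, ContinuousMap.smul_apply, k2 v (not_le_of_gt hv),
      (chi_apply hT hv.le hvo v).1 ⟨hv, le_rfl⟩, smul_zero, zero_add]

private theorem stable_up (hT : TreeTop L o) {N : C(L, ℝ) → ℝ} {g : C(L, ℝ)} {v u : L} (hv : v ≠ o)
    (h : Stable N g v) (hu : v ≤ u) : Stable N (g + chi v u) u := by
  intro w hw
  have e : g + chi v u + chi u w = g + chi v w := by
    rw [add_assoc, chi_add hT hu hw (hT.ne_of_le (hu.trans hw) hv)]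
  rw [e, (h u hu).1]
  exact ⟨(h w (hu.trans hw)).1, fun φ hφ => (h w (hu.trans hw)).2 φ hφ⟩

private theorem ext_refl {N : C(L, ℝ) → ℝ} {f : C(L, ℝ)} {t : L} (h : State o f t) :
    Ext N f t f t := by
  obtain ⟨h1, h2, h3, h4⟩ := h
  refine ⟨le_rfl, by rw [h4]; norm_num, fun x _ => by rw [h4, one_mul], fun x h5 h6 => ?_, ?_⟩
  · rw [le_antisymm h6 h5]
  · rw [h4, Real.sqrt_one, one_mul]

private theorem ext_trans (hT : TreeTop L o) {N : C(L, ℝ) → ℝ} {f₁ f₂ f₃ : C(L, ℝ)} {t₁ t₂ t₃ : L}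
    (s₂ : State o f₂ t₂) (h : Ext N f₁ t₁ f₂ t₂) (h' : Ext N f₂ t₂ f₃ t₃) : Ext N f₁ t₁ f₃ t₃ := by
  obtain ⟨a1, a2, a3, a4, a5⟩ := h
  obtain ⟨b1, b2, b3, b4, b5⟩ := h'
  have e : f₃ t₁ = f₃ t₂ * f₂ t₁ := b3 t₁ a1
  have hle : f₃ t₁ ≤ f₃ t₂ := by
    rw [e]
    exact mul_le_of_le_one_right b2.le (s₂.2.2.1 t₁).2
  refine ⟨a1.trans b1, by rw [e]; exact mul_pos b2 a2, fun x hx => ?_, fun x hx1 hx2 => ?_, ?_⟩
  · rw [b3 x (hx.trans a1), a3 x hx, e]
    ring
  · rcases hT.chain t₃ x t₂ hx2 b1 with h5 | h5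
    · rw [b3 x h5, e]
      exact mul_le_mul_of_nonneg_left (a4 x hx1 h5) b2.le
    · exact hle.trans (b4 x h5 hx2)
  · rw [e, Real.sqrt_mul b2.le, mul_assoc]
    exact b5.trans (mul_le_mul_of_nonneg_left a5 (Real.sqrt_nonneg _))

private theorem ext_le {N : Seminorm ℝ C(L, ℝ)} {f f' : C(L, ℝ)} {t t' : L} (s' : State o f' t')
    (h : Ext N f t f' t') : N f' ≤ N f := by
  refine h.2.2.2.2.trans (mul_le_of_le_one_left (apply_nonneg N f) ?_)
  exact Real.sqrt_le_one.2 (s'.2.2.1 t).2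

private theorem step1 [CompactSpace L] [T2Space L] (hG2 : St_G2) (N : Seminorm ℝ C(L, ℝ)) (a b : ℝ)
    (hF : Full L o) (ha : 0 < a) (hN : ∀ f, a * ‖f‖ ≤ N f ∧ N f ≤ b * ‖f‖)
    (h0 : ∃ f t, State o f t ∧ Stable N f t) :
    ∃ f t, State o f t ∧ Stable N f t ∧
      ∀ f' t', State o f' t' → Stable N f' t' → Ext N f t f' t' → N f' = N f := by
  obtain ⟨f0, t0, hs0, hst0⟩ := h0
  let P := {p : C(L, ℝ) × L // State o p.1 p.2 ∧ Stable N p.1 p.2}
  have hnx : ∀ (p : P) (n : ℕ), ∃ q : P, Ext N p.1.1 p.1.2 q.1.1 q.1.2 ∧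
      ∀ r : P, Ext N p.1.1 p.1.2 r.1.1 r.1.2 → N q.1.1 ≤ N r.1.1 + 1 / ((n : ℝ) + 1) := by
    intro p n
    let A : Set ℝ := {x | ∃ r : P, Ext N p.1.1 p.1.2 r.1.1 r.1.2 ∧ N r.1.1 = x}
    have hA : A.Nonempty := ⟨_, p, ext_refl p.2.1, rfl⟩
    have hB : BddBelow A := ⟨0, by
      rintro x ⟨r, -, rfl⟩
      exact apply_nonneg N _⟩
    have hpos : (0 : ℝ) < 1 / ((n : ℝ) + 1) := by positivity
    obtain ⟨x, ⟨q, hq, rfl⟩, hx⟩ := exists_lt_of_csInf_lt hA
      (show sInf A < sInf A + 1 / ((n : ℝ) + 1) by linarith)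
    refine ⟨q, hq, fun r hr => ?_⟩
    have h1 : sInf A ≤ N r.1.1 := csInf_le hB ⟨r, hr, rfl⟩
    linarith
  choose nx hnx1 hnx2 using hnx
  let s : ℕ → P := fun n => Nat.rec ⟨(f0, t0), hs0, hst0⟩ (fun n p => nx p n) n
  have hs : ∀ n, s (n + 1) = nx (s n) n := fun n => rfl
  obtain ⟨f, t, h1, h2, h3⟩ := hG2 L o N a b hF ha hN (fun n => (s n).1.1) (fun n => (s n).1.2)
    (fun n => (s n).2.1) (fun n => (s n).2.2) (fun n => by
      have := hnx1 (s n) n
      rw [← hs] at this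
      exact this)
  refine ⟨f, t, h1, h2, fun f' t' h4 h5 h6 => le_antisymm (ext_le h4 h6) ?_⟩
  refine le_of_forall_pos_le_add fun ε hε => ?_
  obtain ⟨n, hn⟩ := exists_nat_one_div_lt hε
  have h7 : Ext N (s n).1.1 (s n).1.2 f' t' := ext_trans hF.top h1 (h3 n) h6
  have h8 := hnx2 (s n) n ⟨(f', t'), h4, h5⟩ h7
  rw [← hs] at h8
  have h9 : N f ≤ N (s (n + 1)).1.1 := ext_le h1 (h3 (n + 1))
  have h10 : N (s (n + 1)).1.1 ≤ N f' + 1 / ((n : ℝ) + 1) := h8
  linarith

end G3x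

open G3x

theorem thm_G3 (hG1 : St_G1) (hG2 : St_G2) : St_G3 := by
  intro L _ _ _ _ o N a b hF ht0 ha hN
  by_contra hcon
  have hcon : ∀ f : C(L, ℝ), f ≠ 0 → ∀ h : C(L, ℝ),
      DifferentiableAt ℝ (fun s : ℝ => N (f + s • h)) 0 := by
    intro f hf h
    by_contra h1
    exact hcon ⟨f, hf, h, h1⟩
  have hT := hF.top
  obtain ⟨t0, ht0⟩ := ht0
  have h0 : ∃ f t, State o f t ∧ Stable N f t := by
    let f0 : C(L, ℝ) := ⟨(Iic t0).indicator (fun _ => (1 : ℝ)),
      (hT.clopen t0 ht0).continuous_indicator continuous_const⟩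
    have hs : State o f0 t0 := by
      refine ⟨ht0, fun x hx => indicator_of_notMem (show x ∉ Iic t0 from hx) (fun _ => (1 : ℝ)),
        fun x => ?_, indicator_of_mem (show t0 ∈ Iic t0 from le_refl t0) (fun _ => (1 : ℝ))⟩
      by_cases hx : x ∈ Iic t0
      · have : f0 x = 1 := indicator_of_mem hx (fun _ => (1 : ℝ))
        rw [this]; norm_num
      · have : f0 x = 0 := indicator_of_notMem hx (fun _ => (1 : ℝ))
        rw [this]; norm_num
    obtain ⟨t', h1, h2⟩ := hG1 L o N a b hF ha hN f0 t0 hs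
    exact ⟨_, t', state_up hT hs h1, h2⟩
  obtain ⟨f, t, hs, hst, hmin⟩ := step1 hG2 N a b hF ha hN h0
  have hft : f t = 1 := hs.2.2.2
  have hc : 0 < N f := by
    have h1 : ‖f t‖ ≤ ‖f‖ := f.norm_coe_le_norm t
    rw [hft, norm_one] at h1
    have h2 := (hN f).1
    nlinarith
  obtain ⟨t₁, ht₁⟩ := (hF.inf t hs.1).nonempty
  have ht₁' : t < t₁ := ht₁.lt
  obtain ⟨al, hal⟩ : ∃ al : ℕ → ℝ, ∀ n, al n = 1 / (1 + 1 / ((n : ℝ) + 1)) := ⟨_, fun n => rfl⟩
  have hal0 : ∀ n, 0 < al n := fun n => by rw [hal]; positivity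
  have hal1 : ∀ n, al n < 1 := fun n => by
    rw [hal, div_lt_one (by positivity)]
    have : (0 : ℝ) < 1 / ((n : ℝ) + 1) := by positivity
    linarith
  let V := {v : L // t < v}
  have hnx : ∀ (n : ℕ) (v : V), ∃ v' : V, v.1 ≤ v'.1 ∧ Stable N (al n • f + chi t v'.1) v'.1 := by
    intro n v
    obtain ⟨v', h1, h2⟩ := hG1 L o N a b hF ha hN (al n • f + chi t v.1) v.1
      (state_sc hT hs v.2 (hal0 n).le (hal1 n).le)
    refine ⟨⟨v', v.2.trans_le h1⟩, h1, ?_⟩
    rwa [add_assoc, chi_add hT v.2.le h1 (hT.ne_of_le (v.2.le.trans h1) hs.1)] at h2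
  choose nx hnx1 hnx2 using hnx
  let u : ℕ → V := fun n => Nat.rec (nx 0 ⟨t₁, ht₁'⟩) (fun n v => nx (n + 1) v) n
  have hu : ∀ n, u (n + 1) = nx (n + 1) (u n) := fun n => rfl
  have hust : ∀ n, Stable N (al n • f + chi t (u n).1) (u n).1 := by
    intro n
    cases n with
    | zero => exact hnx2 0 ⟨t₁, ht₁'⟩
    | succ n => rw [hu]; exact hnx2 (n + 1) (u n)
  have humono : Monotone fun n => (u n).1 := monotone_nat_of_le_succ fun n => by
    rw [hu]
    exact hnx1 (n + 1) (u n)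
  obtain ⟨w, hwo, hw⟩ := hF.sup (fun n => (u n).1) humono
    (fun n => hT.ne_of_le (u n).2.le hs.1)
  have huw : ∀ n, (u n).1 ≤ w := fun n => hw.1 ⟨n, rfl⟩
  have htw : t < w := (u 0).2.trans_le (huw 0)
  have hwst : ∀ n, Stable N (al n • f + chi t w) w := by
    intro n
    have h1 := stable_up hT (hT.ne_of_le (u n).2.le hs.1) (hust n) (huw n)
    rwa [add_assoc, chi_add hT (u n).2.le (huw n) hwo] at h1
  obtain ⟨h, hh⟩ : ∃ h, h = chi t w := ⟨_, rfl⟩
  rw [← hh] at hwst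
  have hht : h t = 0 := by
    rw [hh]
    exact (chi_apply hT htw.le hwo t).2 (fun h => lt_irrefl _ h.1)
  have hne : f + h ≠ 0 := by
    intro h1
    have h2 := congrArg (fun g : C(L, ℝ) => g t) h1
    simp only [ContinuousMap.add_apply, ContinuousMap.zero_apply] at h2
    rw [hft, hht] at h2
    norm_num at h2
  -- the function `θ`
  obtain ⟨θ, hθ⟩ : ∃ θ : ℝ → ℝ, θ = fun s => N (f + h + s • h) := ⟨_, rfl⟩
  have hθc : ∀ s ∈ Icc (-1 : ℝ) 0, θ s = N f := by
    intro s hs1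
    rw [hθ]
    refine le_antisymm ?_ ?_
    · have e : f + h + s • h = (1 + s) • (f + h) + (-s) • f := by module
      have h1 : N (f + h) = N f := by rw [hh]; exact (hst w htw.le).1
      change N (f + h + s • h) ≤ N f
      rw [e]
      refine (map_add_le_add N _ _).trans ?_
      rw [map_smul_eq_mul, map_smul_eq_mul, h1, Real.norm_of_nonneg (by linarith [hs1.1]),
        Real.norm_of_nonneg (by linarith [hs1.2])]
      linarith
    · have h1 := (hst t le_rfl).2 ((1 + s) • h) (fun x hx => by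
        rw [ContinuousMap.smul_apply, hh,
          (chi_apply hT htw.le hwo x).2 (fun h => hx h.1), smul_zero])
      rw [chi_self hT hs.1, add_zero] at h1
      have e : f + h + s • h = f + (1 + s) • h := by module
      change N f ≤ N (f + h + s • h)
      rwa [e]
  have hd : DifferentiableAt ℝ θ 0 := by rw [hθ]; exact hcon (f + h) hne h
  have hd1 := hd.hasDerivAt
  have hd0 : deriv θ 0 = 0 := by
    have h1 : HasDerivWithinAt θ (deriv θ 0) (Icc (-1) 0) 0 := hd1.hasDerivWithinAt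
    have h2 : HasDerivWithinAt θ 0 (Icc (-1) 0) 0 :=
      (hasDerivWithinAt_const (0 : ℝ) (Icc (-1 : ℝ) 0) (N f)).congr (fun s hs => hθc s hs)
        (hθc 0 ⟨by norm_num, le_rfl⟩)
    exact (uniqueDiffOn_Icc (by norm_num : (-1 : ℝ) < 0) 0 ⟨by norm_num, le_rfl⟩).eq_deriv _ h1 h2
  rw [hd0] at hd1
  have hlo := (hasDerivAt_iff_isLittleO.1 hd1).def (show 0 < N f / 4 by positivity)
  obtain ⟨n, hn⟩ := (tendsto_one_div_add_atTop_nhds_zero_nat.eventually hlo).exists
  obtain ⟨s, hsn⟩ : ∃ s : ℝ, s = 1 / ((n : ℝ) + 1) := ⟨_, rfl⟩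
  rw [← hsn] at hn
  have hs0 : 0 < s := by rw [hsn]; positivity
  have hs1 : s ≤ 1 := by
    rw [hsn, div_le_one (by positivity)]
    have : (0 : ℝ) ≤ n := Nat.cast_nonneg n
    linarith
  have hals : al n * (1 + s) = 1 := by
    rw [hal, ← hsn, one_div, inv_mul_cancel₀ (by positivity)]
  have hθs : θ s ≤ N f * (1 + s / 4) := by
    have h1 := (le_abs_self _).trans hn
    rw [sub_zero, smul_zero, sub_zero, hθc 0 ⟨by norm_num, le_rfl⟩, Real.norm_of_nonneg hs0.le] at h1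
    linarith
  have hg : al n • f + h = al n • (f + h + s • h) := by
    have e : al n • (f + h + s • h) = al n • f + (al n * (1 + s)) • h := by module
    rw [e, hals, one_smul]
  have hNg : N (al n • f + h) ≤ Real.sqrt (al n) * N f := by
    rw [hg, map_smul_eq_mul, Real.norm_of_nonneg (hal0 n).le]
    have h1 : N (f + h + s • h) = θ s := by rw [hθ]
    rw [h1]
    have h2 : al n * (1 + s / 4) ≤ Real.sqrt (al n) := by
      refine Real.le_sqrt_of_sq_le ?_
      have h3 : (1 + s / 4) ^ 2 ≤ 1 + s := by nlinarith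
      have h4 := hal0 n
      calc (al n * (1 + s / 4)) ^ 2 = al n ^ 2 * (1 + s / 4) ^ 2 := by ring
        _ ≤ al n ^ 2 * (1 + s) := mul_le_mul_of_nonneg_left h3 (by positivity)
        _ = al n * (al n * (1 + s)) := by ring
        _ = al n := by rw [hals, mul_one]
    calc al n * θ s ≤ al n * (N f * (1 + s / 4)) := mul_le_mul_of_nonneg_left hθs (hal0 n).le
      _ = (al n * (1 + s / 4)) * N f := by ring
      _ ≤ Real.sqrt (al n) * N f := mul_le_mul_of_nonneg_right h2 hc.le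
  have hgt : (al n • f + h) t = al n := by
    rw [ContinuousMap.add_apply, ContinuousMap.smul_apply, hft, hht, smul_eq_mul, mul_one, add_zero]
  have hext : Ext N f t (al n • f + h) w := by
    refine ⟨htw.le, by rw [hgt]; exact hal0 n, fun x hx => ?_, fun x hx1 hx2 => ?_, by rw [hgt]; exact hNg⟩
    · rw [hgt, ContinuousMap.add_apply, ContinuousMap.smul_apply, hh,
        (chi_apply hT htw.le hwo x).2 (fun h => absurd hx (not_le_of_gt h.1)), add_zero, smul_eq_mul]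
    · rcases hx1.lt_or_eq with h5 | h5
      · rw [hgt, ContinuousMap.add_apply, ContinuousMap.smul_apply, hs.2.1 x (not_le_of_gt h5), hh,
          (chi_apply hT htw.le hwo x).1 ⟨h5, hx2⟩, smul_zero, zero_add]
        exact (hal1 n).le
      · rw [← h5]
  have hfin := hmin _ w (by rw [hh]; exact state_sc hT hs htw (hal0 n).le (hal1 n).le) (hwst n) hext
  rw [hfin] at hNg
  have h6 : Real.sqrt (al n) < 1 := by
    rw [Real.sqrt_lt' one_pos]
    have := hal1 n
    linarith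
  nlinarith

end TRE
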