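import Pool.Agent.TRE.StB

/-!
# TRE, module KO: coherent finite-to-one functions on the branches of a tree
-/

set_option autoImplicit false

namespace TRE

open Set Topology Filter SDN

private theorem KO_seq {T : Type} [PartialOrder T] (hch : ∀ t r s : T, r ≤ t → s ≤ t → r ≤ s ∨ s ≤ r)
    (t : T) (hc : (Iic t).Countable) (hne : ∃ s, s < t) :
    ∃ τ : ℕ → T, (∀ n, τ n < t) ∧ Monotone τ ∧ ∀ s, s < t → ∃ n, s ≤ τ n := by
  classical
  have hc' : (Iio t).Countable := hc.mono Iio_subset_Iic_self
  obtain ⟨s0, hs0⟩ := hne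
  obtain ⟨e, he⟩ := hc'.exists_eq_range ⟨s0, hs0⟩
  have hmem : ∀ n, e n < t := by
    intro n
    have h1 : e n ∈ Iio t := by
      rw [he]
      exact mem_range_self n
    exact h1
  obtain ⟨τ, hτ0, hτs⟩ : ∃ τ : ℕ → T, τ 0 = e 0 ∧
      ∀ n, τ (n + 1) = if τ n ≤ e (n + 1) then e (n + 1) else τ n :=
    ⟨fun n => Nat.rec (e 0) (fun n x => if x ≤ e (n + 1) then e (n + 1) else x) n, rfl, fun n => rfl⟩
  have hlt : ∀ n, τ n < t := by
    intro n
    induction n with
    | zero =>
      rw [hτ0]
      exact hmem 0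
    | succ n ih =>
      rw [hτs]
      split_ifs
      · exact hmem _
      · exact ih
  refine ⟨τ, hlt, ?_, ?_⟩
  · apply monotone_nat_of_le_succ
    intro n
    rw [hτs]
    split_ifs with h
    · exact h
    · exact le_refl _
  · intro s hs
    have h1 : s ∈ range e := by
      rw [← he]
      exact hs
    obtain ⟨n, rfl⟩ := h1
    refine ⟨n, ?_⟩
    cases n with
    | zero =>
      rw [hτ0]
    | succ n =>
      rw [hτs]
      split_ifs with h
      · exact le_refl _
      · rcases hch t (τ n) (e (n + 1)) (hlt n).le (hmem _).le with h2 | h2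
        · exact absurd h2 h
        · exact h2

/-- [KO] -/
theorem thm_KO : St_KO := by
  classical
  intro T _ hwf hch hct
  have hτex : ∀ t : T, ∃ τ : ℕ → T, (∃ s, s < t) → (∀ n, τ n < t) ∧ Monotone τ ∧
      ∀ s, s < t → ∃ n, s ≤ τ n := by
    intro t
    by_cases h : ∃ s, s < t
    · obtain ⟨τ, hτ⟩ := KO_seq hch t (hct t) h
      exact ⟨τ, fun _ => hτ⟩
    · exact ⟨fun _ => t, fun h' => absurd h' h⟩
  choose τ hτ using hτex
  obtain ⟨nn, hnn⟩ : ∃ nn : T → T → ℕ, nn = fun t s => sInf {n | s ≤ τ t n} := ⟨_, rfl⟩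
  have hnn1 : ∀ t s, s < t → s ≤ τ t (nn t s) := by
    intro t s hs
    rw [hnn]
    have h1 : {n | s ≤ τ t n}.Nonempty := (hτ t ⟨s, hs⟩).2.2 s hs
    exact Nat.sInf_mem h1
  have hnn2 : ∀ t s n, s ≤ τ t n → nn t s ≤ n := by
    intro t s n h
    rw [hnn]
    exact Nat.sInf_le h
  obtain ⟨k, hk⟩ : ∃ k : T → T → ℕ, ∀ t s, s < t → k t s = max (k (τ t (nn t s)) s) (nn t s) := by
    obtain ⟨F, hF⟩ : ∃ F : ∀ t : T, (∀ y : T, y < t → T → ℕ) → T → ℕ, F = fun t K s =>
        if h : s < t ∧ τ t (nn t s) < t then max (K (τ t (nn t s)) h.2 s) (nn t s) else 0 :=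
      ⟨_, rfl⟩
    refine ⟨hwf.fix F, ?_⟩
    intro t s hs
    rw [hwf.fix_eq]
    have h1 : s < t ∧ τ t (nn t s) < t := ⟨hs, (hτ t ⟨s, hs⟩).1 _⟩
    have h2 : F t (fun y _ => hwf.fix F y) s = max (hwf.fix F (τ t (nn t s)) s) (nn t s) := by
      rw [hF]
      exact dif_pos h1
    exact h2
  have main : ∀ t : T, (∀ n : ℕ, {s | s ≤ t ∧ k t s ≤ n}.Finite) ∧
      ∀ t'', t'' ≤ t → {s | s ≤ t'' ∧ k t'' s ≠ k t s}.Finite := by
    intro t
    induction t using hwf.induction with
    | _ t ih =>
      by_cases hne : ∃ s, s < t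
      · obtain ⟨ht1, ht2, ht3⟩ := hτ t hne
        constructor
        · intro m
          have hfin : ({t} ∪ ⋃ i ∈ Iic m, {s | s ≤ τ t i ∧ k (τ t i) s ≤ m}).Finite :=
            (finite_singleton t).union ((finite_Iic m).biUnion fun i _ => (ih (τ t i) (ht1 i)).1 m)
          refine hfin.subset ?_
          rintro s ⟨hs, hks⟩
          rcases hs.eq_or_lt with rfl | hs'
          · exact Or.inl rfl
          · right
            rw [hk t s hs'] at hks
            rw [mem_iUnion₂]
            exact ⟨nn t s, (le_max_right _ _).trans hks, hnn1 t s hs', (le_max_left _ _).trans hks⟩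
        · intro t'' ht''
          rcases ht''.eq_or_lt with rfl | hlt
          · have h1 : {s | s ≤ t'' ∧ k t'' s ≠ k t'' s} = ∅ := by
              ext s
              constructor
              · rintro ⟨_, h⟩
                exact absurd rfl h
              · intro h
                exact h.elim
            rw [h1]
            exact finite_empty
          · obtain ⟨j, hj⟩ := ht3 t'' hlt
            have hfin : ({s | s ≤ t'' ∧ k t'' s ≠ k (τ t j) s} ∪ ⋃ i ∈ Iic j,
                ({s | s ≤ τ t i ∧ k (τ t i) s ≤ i} ∪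
                  {s | s ≤ τ t i ∧ k (τ t i) s ≠ k (τ t j) s})).Finite := by
              refine ((ih (τ t j) (ht1 j)).2 t'' hj).union ((finite_Iic j).biUnion fun i hi => ?_)
              exact ((ih (τ t i) (ht1 i)).1 i).union ((ih (τ t j) (ht1 j)).2 (τ t i) (ht2 hi))
            refine hfin.subset ?_
            rintro s ⟨hs, hks⟩
            by_cases h1 : k t'' s = k (τ t j) s
            · right
              have hst : s < t := hs.trans_lt hlt
              rw [mem_iUnion₂]
              refine ⟨nn t s, hnn2 t s j (hs.trans hj), ?_⟩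
              rcases le_or_gt (k (τ t (nn t s)) s) (nn t s) with h2 | h2
              · left
                exact ⟨hnn1 t s hst, h2⟩
              · right
                refine ⟨hnn1 t s hst, ?_⟩
                intro h3
                apply hks
                rw [hk t s hst, max_eq_left h2.le, h1, h3]
            · left
              exact ⟨hs, h1⟩
      · constructor
        · intro m
          refine (finite_singleton t).subset ?_
          rintro s ⟨hs, _⟩
          rcases hs.eq_or_lt with rfl | hs'
          · rfl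
          · exact absurd ⟨s, hs'⟩ hne
        · intro t'' ht''
          refine (finite_singleton t).subset ?_
          rintro s ⟨hs, _⟩
          rcases (hs.trans ht'').eq_or_lt with rfl | hs'
          · rfl
          · exact absurd ⟨s, hs'⟩ hne
  exact ⟨k, fun t n => (main t).1 n, fun t t' h => (main t').2 t h⟩

end TRE
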