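import Pool.Agent.TRE.StB
import Pool.Agent.TRE.Base

/-!
# TRE, KT: the extension of a compactified tree by private sequences
-/

set_option autoImplicit false

namespace TRE

open Set Topology Filter

namespace KTx

section Gen

variable {K ι : Type}

open Classical in
/-- the topology generated by declaring all the sets `W i` clopen -/
@[reducible] noncomputable def topo (W : ι → Set K) : TopologicalSpace K :=
  TopologicalSpace.induced (fun (x : K) (i : ι) => (decide (x ∈ W i) : Bool)) inferInstance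

theorem le_iff (W : ι → Set K) (l : Filter K) (x : K) :
    l ≤ @nhds K (topo W) x ↔ ∀ i, ∀ᶠ y in l, (y ∈ W i ↔ x ∈ W i) := by
  classical
  rw [nhds_induced, ← map_le_iff_le_comap]
  have h1 : map (fun (x : K) (i : ι) => (decide (x ∈ W i) : Bool)) l ≤
      𝓝 (fun i => (decide (x ∈ W i) : Bool)) ↔
      Tendsto (fun (x : K) (i : ι) => (decide (x ∈ W i) : Bool)) l
        (𝓝 (fun i => (decide (x ∈ W i) : Bool))) := Iff.rfl
  rw [h1, tendsto_pi_nhds]
  refine forall_congr' fun i => ?_
  rw [nhds_discrete, tendsto_pure]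
  simp only [decide_eq_decide]

theorem tendsto_iff (W : ι → Set K) {α : Type} (l : Filter α) (f : α → K) (x : K) :
    Tendsto f l (@nhds K (topo W) x) ↔ ∀ i, ∀ᶠ y in l, (f y ∈ W i ↔ x ∈ W i) := by
  rw [Tendsto, le_iff]
  exact Iff.rfl

theorem open_W (W : ι → Set K) (i : ι) : @IsOpen K (topo W) (W i) := by
  let _ := topo W
  rw [isOpen_iff_mem_nhds]
  intro x hx
  have h := (le_iff W (𝓝 x) x).1 le_rfl i
  filter_upwards [h] with y hy
  exact hy.2 hx

theorem t2 (W : ι → Set K) (h : ∀ x y : K, (∀ i, (x ∈ W i ↔ y ∈ W i)) → x = y) :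
    @T2Space K (topo W) := by
  classical
  let _ := topo W
  refine T2Space.of_injective_continuous
    (f := fun (x : K) (i : ι) => (decide (x ∈ W i) : Bool)) ?_ continuous_induced_dom
  intro x y hxy
  refine h x y fun i => ?_
  have := congrFun hxy i
  simpa only [decide_eq_decide] using this

end Gen

/-- the points of the extended space -/
inductive KK (L T : Type) : Type
  | pt (l : L) : KK L T
  | iso (t : T) (n : ℕ) : KK L T

section Tree

variable {L : Type} [PartialOrder L] (o : L)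

/-- the clopen set which belongs to `t` -/
def V (k : {t : L // t ≠ o} → {t : L // t ≠ o} → ℕ) (t : {t : L // t ≠ o}) :
    Set (KK L {t : L // t ≠ o}) :=
  {x | match x with
    | KK.pt s => s ≤ t.1
    | KK.iso s n => s ≤ t ∧ k t s ≤ n}

/-- the family of the clopen sets -/
def W (k : {t : L // t ≠ o} → {t : L // t ≠ o} → ℕ) :
    {t : L // t ≠ o} ⊕ ({t : L // t ≠ o} × ℕ) → Set (KK L {t : L // t ≠ o})
  | Sum.inl t => V o k t
  | Sum.inr p => {KK.iso p.1 p.2}

omit [PartialOrder L] in
theorem fin_iso (S : Set {t : L // t ≠ o}) (hS : S.Finite) (B : {t : L // t ≠ o} → ℕ)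
    (X : Set (KK L {t : L // t ≠ o})) (hX : ∀ x ∈ X, ∃ s ∈ S, ∃ n, n < B s ∧ x = KK.iso s n) :
    X.Finite := by
  refine Set.Finite.subset (hS.biUnion fun s _ => (Set.finite_lt_nat (B s)).image
    (fun n => (KK.iso s n : KK L {t : L // t ≠ o}))) ?_
  intro x hx
  obtain ⟨s, hs, n, hn, rfl⟩ := hX x hx
  simp only [mem_iUnion]
  exact ⟨s, hs, n, hn, rfl⟩

end Tree

end KTx

open KTx in
theorem thm_KT (hKO : St_KO) : St_KT := by
  intro L _ _ _ _ o hT hcount
  have hwf : WellFounded ((· < ·) : {t : L // t ≠ o} → {t : L // t ≠ o} → Prop) :=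
    InvImage.wf (fun t : {t : L // t ≠ o} => (t : L)) hT.wf
  obtain ⟨k, hfin, hcoh⟩ := hKO {t : L // t ≠ o} hwf
    (fun t r s h1 h2 => hT.chain t.1 r.1 s.1 h1 h2)
    (fun t => by
      have h1 := (hcount t.1 t.2).preimage_of_injOn
        (f := fun s : {t : L // t ≠ o} => (s : L)) Subtype.val_injective.injOn
      exact h1)
  have hopt : ∀ t : {t : L // t ≠ o}, ¬ o ≤ t.1 := fun t h => t.2 (hT.up t.1 h)
  have hVpt : ∀ (l : L) (t : {t : L // t ≠ o}), KK.pt l ∈ V o k t ↔ l ≤ t.1 := fun _ _ => Iff.rfl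
  have hViso : ∀ (s t : {t : L // t ≠ o}) (n : ℕ), KK.iso s n ∈ V o k t ↔ s ≤ t ∧ k t s ≤ n :=
    fun _ _ _ => Iff.rfl
  have hptW : ∀ (l : L) (p : {t : L // t ≠ o} × ℕ), KK.pt l ∈ W o k (Sum.inr p) ↔ False := by
    intro l p
    refine iff_false_intro ?_
    intro h
    have h1 : (KK.pt l : KK L {t : L // t ≠ o}) = KK.iso p.1 p.2 := h
    cases h1
  have hsep : ∀ x y : KK L {t : L // t ≠ o}, (∀ i, (x ∈ W o k i ↔ y ∈ W o k i)) → x = y := by
    intro x y h
    cases y with
    | iso t n =>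
      exact (h (Sum.inr (t, n))).2 rfl
    | pt b =>
      cases x with
      | iso t n =>
        exact ((h (Sum.inr (t, n))).1 rfl).symm
      | pt a =>
        congr 1
        by_cases ha : a = o
        · by_cases hb : b = o
          · rw [ha, hb]
          · have h1 : a ≤ b := (h (Sum.inl ⟨b, hb⟩)).2 (le_refl b)
            rw [ha] at h1
            exact absurd h1 (hopt ⟨b, hb⟩)
        · have h1 : b ≤ a := (h (Sum.inl ⟨a, ha⟩)).1 (le_refl a)
          have hb : b ≠ o := hT.ne_of_ge h1 ha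
          have h2 : a ≤ b := (h (Sum.inl ⟨b, hb⟩)).2 (le_refl b)
          exact le_antisymm h2 h1
  -- finiteness
  have hfin1 : ∀ a b : {t : L // t ≠ o}, a ≤ b → ∀ X : Set (KK L {t : L // t ≠ o}),
      (∀ x ∈ X, ∃ s, s ≤ a ∧ ∃ n, ((k a s ≤ n ∧ n < k b s) ∨ (k b s ≤ n ∧ n < k a s)) ∧
        x = KK.iso s n) → X.Finite := by
    intro a b hab X hX
    refine fin_iso o _ (hcoh a b hab) (fun s => max (k a s) (k b s)) X ?_
    intro x hx
    obtain ⟨s, hs, n, hn, rfl⟩ := hX x hx
    refine ⟨s, ⟨hs, ?_⟩, n, ?_, rfl⟩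
    · rcases hn with h | h <;> omega
    · rcases hn with h | h
      · exact lt_max_of_lt_right h.2
      · exact lt_max_of_lt_left h.2
  have hcomp : @CompactSpace (KK L {t : L // t ≠ o}) (topo (W o k)) := by
    let _ := topo (W o k)
    refine ⟨isCompact_iff_ultrafilter_le_nhds.2 fun U _ => ?_⟩
    by_cases hiso : ∃ t n, ({KK.iso t n} : Set (KK L {t : L // t ≠ o})) ∈ U
    · obtain ⟨t, n, h⟩ := hiso
      refine ⟨KK.iso t n, mem_univ _, ?_⟩
      rw [le_iff]
      intro i
      filter_upwards [h] with y hy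
      rw [mem_singleton_iff.1 hy]
    · have hnofin : ∀ X : Set (KK L {t : L // t ≠ o}), X.Finite →
          (∀ x ∈ X, ∃ s n, x = KK.iso s n) → X ∉ U := by
        intro X hX hX2 hXU
        obtain ⟨x, hx, hU⟩ := Ultrafilter.eq_pure_of_finite_mem hX hXU
        obtain ⟨s, n, rfl⟩ := hX2 x hx
        refine hiso ⟨s, n, ?_⟩
        rw [hU]
        exact Ultrafilter.mem_pure.2 rfl
      have hiso' : ∀ t n, ({KK.iso t n} : Set (KK L {t : L // t ≠ o}))ᶜ ∈ U := fun t n =>
        Ultrafilter.compl_mem_iff_notMem.2 fun h => hiso ⟨t, n, h⟩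
      by_cases hV : ∃ t, V o k t ∈ U
      · obtain ⟨t₀, ht₀, hmin⟩ := hwf.has_min {t | V o k t ∈ U} hV
        have hup : ∀ t, t₀ ≤ t → V o k t ∈ U := by
          intro t ht
          by_contra hn
          have h1 := Filter.inter_mem ht₀ (Ultrafilter.compl_mem_iff_notMem.2 hn)
          have h2 : ∀ x ∈ V o k t₀ ∩ (V o k t)ᶜ, ∃ s, s ≤ t₀ ∧ ∃ n,
              ((k t₀ s ≤ n ∧ n < k t s) ∨ (k t s ≤ n ∧ n < k t₀ s)) ∧ x = KK.iso s n := by
            rintro (s | ⟨s, n⟩) ⟨hx1, hx2⟩
            · exact absurd (le_trans hx1 ht) hx2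
            · rw [hViso] at hx1
              refine ⟨s, hx1.1, n, Or.inl ⟨hx1.2, ?_⟩, rfl⟩
              by_contra hlt
              exact hx2 ⟨le_trans hx1.1 ht, not_lt.1 hlt⟩
          refine hnofin _ (hfin1 t₀ t ht _ h2) ?_ h1
          intro x hx
          obtain ⟨s, -, n, -, rfl⟩ := h2 x hx
          exact ⟨s, n, rfl⟩
        have hdn : ∀ t, V o k t ∈ U → t₀ ≤ t := by
          intro t ht
          by_contra hn
          have h1 := Filter.inter_mem ht ht₀
          obtain ⟨x, hx1, hx2⟩ := U.nonempty_of_mem h1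
          have hs : ∃ s : L, s ≤ t.1 ∧ s ≤ t₀.1 := by
            rcases x with s | ⟨s, n⟩
            · exact ⟨s, hx1, hx2⟩
            · exact ⟨s.1, hx1.1, hx2.1⟩
          obtain ⟨m, ⟨hm1, hm2⟩, hm3⟩ := hT.exists_max (Iic t.1 ∩ Iic t₀.1)
            ((hT.clopen t.1 t.2).isClosed.inter (hT.clopen t₀.1 t₀.2).isClosed)
            (fun h => hopt t h.1) hs
          have hm1' : m ≤ t.1 := hm1
          have hm2' : m ≤ t₀.1 := hm2
          have hmo : m ≠ o := hT.ne_of_ge hm1' t.2
          have hgr : ∀ s : L, s ≤ t.1 → s ≤ t₀.1 → s ≤ m := by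
            intro s hs1 hs2
            rcases hT.chain t.1 s m hs1 hm1' with h | h
            · exact h
            · exact (hm3 s ⟨hs1, hs2⟩ h).le
          have hlt : (⟨m, hmo⟩ : {t : L // t ≠ o}) < t₀ := by
            refine lt_of_le_of_ne hm2' ?_
            intro h
            apply hn
            rw [← h]
            exact hm1'
          refine hmin ⟨m, hmo⟩ ?_ hlt
          by_contra hn2
          have h3 := Filter.inter_mem h1 (Ultrafilter.compl_mem_iff_notMem.2 hn2)
          have h4 : ∀ x ∈ (V o k t ∩ V o k t₀) ∩ (V o k ⟨m, hmo⟩)ᶜ, ∃ s, s ≤ ⟨m, hmo⟩ ∧ ∃ n,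
              ((k ⟨m, hmo⟩ s ≤ n ∧ n < k t s) ∨ (k t s ≤ n ∧ n < k ⟨m, hmo⟩ s)) ∧
              x = KK.iso s n := by
            rintro (s | ⟨s, n⟩) ⟨⟨hx1, hx2⟩, hx3⟩
            · exact absurd (hgr s hx1 hx2) hx3
            · rw [hViso] at hx1 hx2
              have h5 : s ≤ ⟨m, hmo⟩ := hgr s.1 hx1.1 hx2.1
              refine ⟨s, h5, n, Or.inr ⟨hx1.2, ?_⟩, rfl⟩
              by_contra hlt2
              exact hx3 ⟨h5, not_lt.1 hlt2⟩
          refine hnofin _ (hfin1 ⟨m, hmo⟩ t hm1' _ h4) ?_ h3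
          intro x hx
          obtain ⟨s, -, n, -, rfl⟩ := h4 x hx
          exact ⟨s, n, rfl⟩
        refine ⟨KK.pt t₀.1, mem_univ _, ?_⟩
        rw [le_iff]
        rintro (t | ⟨t, n⟩)
        · by_cases ht : t₀ ≤ t
          · filter_upwards [hup t ht] with y hy
            exact ⟨fun _ => ht, fun _ => hy⟩
          · have h1 : (V o k t)ᶜ ∈ U :=
              Ultrafilter.compl_mem_iff_notMem.2 fun h => ht (hdn t h)
            filter_upwards [h1] with y hy
            exact ⟨fun h => absurd h hy, fun h => absurd h ht⟩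
        · filter_upwards [hiso' t n] with y hy
          rw [hptW]
          exact iff_false_intro hy
      · refine ⟨KK.pt o, mem_univ _, ?_⟩
        rw [le_iff]
        rintro (t | ⟨t, n⟩)
        · have h1 : (V o k t)ᶜ ∈ U :=
            Ultrafilter.compl_mem_iff_notMem.2 fun h => hV ⟨t, h⟩
          filter_upwards [h1] with y hy
          exact ⟨fun h => absurd h hy, fun h => absurd h (hopt t)⟩
        · filter_upwards [hiso' t n] with y hy
          rw [hptW]
          exact iff_false_intro hy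
  let _ : TopologicalSpace (KK L {t : L // t ≠ o}) := topo (W o k)
  have hj : Continuous (fun l : L => (KK.pt l : KK L {t : L // t ≠ o})) := by
    rw [continuous_iff_continuousAt]
    intro l
    refine (tendsto_iff (W o k) (𝓝 l) _ (KK.pt l)).2 ?_
    rintro (t | ⟨t, n⟩)
    · by_cases hl : l ≤ t.1
      · filter_upwards [(hT.clopen t.1 t.2).isOpen.mem_nhds hl] with y hy
        exact ⟨fun _ => hl, fun _ => hy⟩
      · filter_upwards [(hT.clopen t.1 t.2).compl.isOpen.mem_nhds hl] with y hy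
        exact ⟨fun h => absurd h hy, fun h => absurd h hl⟩
    · exact Eventually.of_forall fun y => by rw [hptW, hptW]
  refine ⟨KK L {t : L // t ≠ o}, topo (W o k), hcomp, t2 (W o k) hsep, ⟨_, hj⟩, KK.iso,
    ?_, ?_, ?_, ?_, ?_⟩
  · intro a b hab
    have h1 : (KK.pt a : KK L {t : L // t ≠ o}) = KK.pt b := hab
    injection h1
  · rintro (l | ⟨t, n⟩)
    · exact Or.inl ⟨l, rfl⟩
    · exact Or.inr ⟨t, n, rfl⟩
  · intro t n
    exact open_W (W o k) (Sum.inr (t, n))
  · intro t
    refine (tendsto_iff (W o k) atTop _ _).2 ?_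
    rintro (t' | ⟨t', n'⟩)
    · filter_upwards [eventually_ge_atTop (k t' t)] with n hn
      exact ⟨fun h => h.1, fun h => ⟨h, hn⟩⟩
    · filter_upwards [eventually_gt_atTop n'] with n hn
      constructor
      · intro h
        exfalso
        have h1 : (KK.iso t n : KK L {t : L // t ≠ o}) = KK.iso t' n' := h
        injection h1 with h2 h3
        omega
      · intro h
        exact ((hptW _ _).1 h).elim
  · intro n
    refine (tendsto_iff (W o k) cofinite _ _).2 ?_
    rintro (t' | ⟨t', n'⟩)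
    · filter_upwards [(hfin t' n).compl_mem_cofinite] with t ht
      exact ⟨fun h => absurd h ht, fun h => absurd h (hopt t')⟩
    · filter_upwards [(Set.finite_singleton t').compl_mem_cofinite] with t ht
      constructor
      · intro h
        exfalso
        have h1 : (KK.iso t n : KK L {t : L // t ≠ o}) = KK.iso t' n' := h
        injection h1 with h2 h3
        exact ht h2
      · intro h
        exact ((hptW _ _).1 h).elim

end TRE
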