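import Pool.Agent.TRE.StB

/-!
# TRE, module LT: compactified trees from ordered sets
-/

set_option autoImplicit false

namespace TRE

open Set Topology Filter SDN

namespace LTx

/-- the points of the compactified tree -/
inductive Pt (T : Type) : Type
  | o : Pt T
  | i : T → Pt T

variable {T : Type} [PartialOrder T]

/-- the order -/
def ple : Pt T → Pt T → Prop
  | Pt.i s, Pt.i t => s ≤ t
  | Pt.i _, Pt.o => False
  | Pt.o, Pt.i _ => False
  | Pt.o, Pt.o => True

instance : PartialOrder (Pt T) where
  le := ple
  le_refl x := by
    cases x with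
    | o => trivial
    | i t => exact le_refl t
  le_trans x y z hxy hyz := by
    cases x with
    | o =>
      cases y with
      | o => exact hyz
      | i s => exact hxy.elim
    | i r =>
      cases y with
      | o => exact hxy.elim
      | i s =>
        cases z with
        | o => exact hyz.elim
        | i t => exact le_trans (α := T) hxy hyz
  le_antisymm x y hxy hyx := by
    cases x with
    | o =>
      cases y with
      | o => rfl
      | i s => exact hxy.elim
    | i r =>
      cases y with
      | o => exact hxy.elim
      | i s => exact congrArg Pt.i (le_antisymm (α := T) hxy hyx)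

theorem i_ne (t : T) : (Pt.i t : Pt T) ≠ Pt.o := by
  intro h
  cases h

theorem i_le (s t : T) : (Pt.i s : Pt T) ≤ Pt.i t ↔ s ≤ t := Iff.rfl

theorem i_lt (s t : T) : (Pt.i s : Pt T) < Pt.i t ↔ s < t := by
  rw [lt_iff_le_not_ge, lt_iff_le_not_ge, i_le, i_le]

theorem o_le (x : Pt T) (h : (Pt.o : Pt T) ≤ x) : x = Pt.o := by
  cases x with
  | o => rfl
  | i t => exact h.elim

theorem le_o (x : Pt T) (h : x ≤ (Pt.o : Pt T)) : x = Pt.o := by
  cases x with
  | o => rfl
  | i t => exact h.elim

open Classical in
/-- the coordinates -/
noncomputable def Psi : Pt T → T → Bool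
  | Pt.o, _ => false
  | Pt.i s, r => decide (s ≤ r)

theorem Psi_o (r : T) : Psi (Pt.o : Pt T) r = false := rfl

theorem Psi_i (s r : T) : Psi (Pt.i s : Pt T) r = true ↔ s ≤ r := by
  classical
  show decide (s ≤ r) = true ↔ s ≤ r
  exact decide_eq_true_iff

theorem Psi_true (x : Pt T) (r : T) : Psi x r = true ↔ x ≤ Pt.i r := by
  cases x with
  | o =>
    rw [Psi_o]
    constructor
    · intro h
      exact absurd h (by decide)
    · intro h
      exact h.elim
  | i s =>
    rw [Psi_i, i_le]

theorem Psi_inj : Function.Injective (Psi : Pt T → T → Bool) := by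
  intro x y h
  cases x with
  | o =>
    cases y with
    | o => rfl
    | i s =>
      have h1 : Psi (Pt.i s) s = true := (Psi_i s s).2 le_rfl
      rw [← h, Psi_o] at h1
      exact absurd h1 (by decide)
  | i r =>
    cases y with
    | o =>
      have h1 : Psi (Pt.i r) r = true := (Psi_i r r).2 le_rfl
      rw [h, Psi_o] at h1
      exact absurd h1 (by decide)
    | i s =>
      have h1 : Psi (Pt.i r) r = true := (Psi_i r r).2 le_rfl
      have h2 : Psi (Pt.i s) s = true := (Psi_i s s).2 le_rfl
      rw [h, Psi_i] at h1
      rw [← h, Psi_i] at h2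
      rw [le_antisymm h2 h1]

noncomputable instance : TopologicalSpace (Pt T) := TopologicalSpace.induced Psi inferInstance

theorem Psi_cont : Continuous (Psi : Pt T → T → Bool) := continuous_induced_dom

theorem t2 : T2Space (Pt T) := T2Space.of_injective_continuous Psi_inj Psi_cont

theorem range_closed (hwf : WellFounded ((· < ·) : T → T → Prop))
    (hglb : ∀ t t' : T, (∃ s, s ≤ t ∧ s ≤ t') → ∃ m, m ≤ t ∧ m ≤ t' ∧ ∀ s, s ≤ t → s ≤ t' → s ≤ m) :
    IsClosed (range (Psi : Pt T → T → Bool)) := by
  have hex : ∀ t t' : T, ∃ m : T, (∃ s, s ≤ t ∧ s ≤ t') →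
      m ≤ t ∧ m ≤ t' ∧ ∀ s, s ≤ t → s ≤ t' → s ≤ m := by
    intro t t'
    by_cases h : ∃ s, s ≤ t ∧ s ≤ t'
    · obtain ⟨m, hm⟩ := hglb t t' h
      exact ⟨m, fun _ => hm⟩
    · exact ⟨t, fun h' => absurd h' h⟩
  choose m hm using hex
  have hc : ∀ (r : T) (b : Bool), IsClosed {a : T → Bool | a r = b} := fun r b =>
    isClosed_eq (continuous_apply r) continuous_const
  have hrange : range (Psi : Pt T → T → Bool) =
      (⋂ r : T, ⋂ r' : T, {a : T → Bool | r ≤ r' → a r = true → a r' = true}) ∩
      (⋂ r : T, ⋂ r' : T, {a : T → Bool | a r = true → a r' = true →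
        (∃ s, s ≤ r ∧ s ≤ r') ∧ a (m r r') = true}) := by
    ext a
    constructor
    · rintro ⟨x, rfl⟩
      constructor
      · rw [mem_iInter₂]
        intro r r' hrr' h
        rw [Psi_true] at h ⊢
        exact h.trans ((i_le r r').2 hrr')
      · rw [mem_iInter₂]
        intro r r' h h'
        cases x with
        | o =>
          rw [Psi_o] at h
          exact absurd h (by decide)
        | i s =>
          rw [Psi_i] at h h'
          refine ⟨⟨s, h, h'⟩, ?_⟩
          rw [Psi_i]
          exact (hm r r' ⟨s, h, h'⟩).2.2 s h h'
    · rintro ⟨h1, h2⟩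
      rw [mem_iInter₂] at h1 h2
      by_cases hz : ∃ r, a r = true
      · obtain ⟨t0, ht0, hmin⟩ := hwf.has_min {r | a r = true} hz
        refine ⟨Pt.i t0, ?_⟩
        funext r
        have h3 : Psi (Pt.i t0) r = true ↔ a r = true := by
          rw [Psi_i]
          constructor
          · intro h
            exact h1 t0 r h ht0
          · intro h
            obtain ⟨h4, h5⟩ := h2 t0 r ht0 h
            obtain ⟨h6, h7, h8⟩ := hm t0 r h4
            have h9 : m t0 r = t0 := by
              rcases h6.lt_or_eq with h10 | h10
              · exact absurd h10 (hmin _ h5)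
              · exact h10
            rw [h9] at h7
            exact h7
        cases h4 : a r with
        | true => exact h3.2 h4
        | false =>
          cases h5 : Psi (Pt.i t0) r with
          | true =>
            rw [h3.1 h5] at h4
            exact absurd h4 (by decide)
          | false => rfl
      · refine ⟨Pt.o, ?_⟩
        funext r
        rw [Psi_o]
        cases h4 : a r with
        | true => exact absurd ⟨r, h4⟩ hz
        | false => rfl
  rw [hrange]
  apply IsClosed.inter
  · apply isClosed_iInter
    intro r
    apply isClosed_iInter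
    intro r'
    by_cases h : r ≤ r'
    · have h1 : {a : T → Bool | r ≤ r' → a r = true → a r' = true} =
          {a : T → Bool | a r = false} ∪ {a | a r' = true} := by
        ext a
        constructor
        · intro ha
          cases h4 : a r with
          | true => exact Or.inr (ha h h4)
          | false => exact Or.inl h4
        · rintro (ha | ha) _ h5
          · have ha' : a r = false := ha
            rw [ha'] at h5
            exact absurd h5 (by decide)
          · exact ha
      rw [h1]
      exact (hc r false).union (hc r' true)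
    · have h1 : {a : T → Bool | r ≤ r' → a r = true → a r' = true} = univ := by
        ext a
        constructor
        · intro _
          trivial
        · intro _ h'
          exact absurd h' h
      rw [h1]
      exact isClosed_univ
  · apply isClosed_iInter
    intro r
    apply isClosed_iInter
    intro r'
    by_cases h : ∃ s, s ≤ r ∧ s ≤ r'
    · have h1 : {a : T → Bool | a r = true → a r' = true →
          (∃ s, s ≤ r ∧ s ≤ r') ∧ a (m r r') = true} =
          ({a : T → Bool | a r = false} ∪ {a | a r' = false}) ∪ {a | a (m r r') = true} := by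
        ext a
        constructor
        · intro ha
          cases h4 : a r with
          | true =>
            cases h5 : a r' with
            | true => exact Or.inr (ha h4 h5).2
            | false => exact Or.inl (Or.inr h5)
          | false => exact Or.inl (Or.inl h4)
        · rintro ((ha | ha) | ha) h5 h6
          · have ha' : a r = false := ha
            rw [ha'] at h5
            exact absurd h5 (by decide)
          · have ha' : a r' = false := ha
            rw [ha'] at h6
            exact absurd h6 (by decide)
          · exact ⟨h, ha⟩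
      rw [h1]
      exact ((hc r false).union (hc r' false)).union (hc (m r r') true)
    · have h1 : {a : T → Bool | a r = true → a r' = true →
          (∃ s, s ≤ r ∧ s ≤ r') ∧ a (m r r') = true} =
          ({a : T → Bool | a r = false} ∪ {a | a r' = false}) := by
        ext a
        constructor
        · intro ha
          cases h4 : a r with
          | true =>
            cases h5 : a r' with
            | true => exact absurd (ha h4 h5).1 h
            | false => exact Or.inr h5
          | false => exact Or.inl h4
        · rintro (ha | ha) h5 h6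
          · have ha' : a r = false := ha
            rw [ha'] at h5
            exact absurd h5 (by decide)
          · have ha' : a r' = false := ha
            rw [ha'] at h6
            exact absurd h6 (by decide)
      rw [h1]
      exact (hc r false).union (hc r' false)

theorem compact (hwf : WellFounded ((· < ·) : T → T → Prop))
    (hglb : ∀ t t' : T, (∃ s, s ≤ t ∧ s ≤ t') → ∃ m, m ≤ t ∧ m ≤ t' ∧ ∀ s, s ≤ t → s ≤ t' → s ≤ m) :
    CompactSpace (Pt T) := by
  have h1 : IsClosedEmbedding (Psi : Pt T → T → Bool) :=
    ⟨⟨⟨rfl⟩, Psi_inj⟩, range_closed hwf hglb⟩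
  exact h1.compactSpace

theorem base (hch : ∀ t r s : T, r ≤ t → s ≤ t → r ≤ s ∨ s ≤ r)
    (hglb : ∀ t t' : T, (∃ s, s ≤ t ∧ s ≤ t') → ∃ m, m ≤ t ∧ m ≤ t' ∧ ∀ s, s ≤ t → s ≤ t' → s ≤ m)
    (t0 : T) (hne : ∃ s, s < t0) (A : Set T) (hA : A.Finite) :
    ∃ s, s < t0 ∧ ∀ r ∈ A, ¬ t0 ≤ r → ∀ x, s < x → x ≤ t0 → ¬ x ≤ r := by
  induction A, hA using Set.Finite.induction_on with
  | empty =>
    obtain ⟨s, hs⟩ := hne
    exact ⟨s, hs, fun r hr => hr.elim⟩
  | @insert r A _ _ ih =>
    obtain ⟨s, hs, hA⟩ := ih
    by_cases h : ∃ y, y ≤ t0 ∧ y ≤ r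
    · obtain ⟨m, hm1, hm2, hm3⟩ := hglb t0 r h
      rcases hm1.lt_or_eq with hm4 | hm4
      · rcases hch t0 s m hs.le hm1 with h5 | h5
        · refine ⟨m, hm4, ?_⟩
          intro r' hr' h6 x hx hx0 hxr
          rcases hr' with rfl | hr'
          · exact absurd (hm3 x hx0 hxr) (not_le_of_gt hx)
          · exact hA r' hr' h6 x (lt_of_le_of_lt h5 hx) hx0 hxr
        · refine ⟨s, hs, ?_⟩
          intro r' hr' h6 x hx hx0 hxr
          rcases hr' with rfl | hr'
          · exact absurd ((hm3 x hx0 hxr).trans h5) (not_le_of_gt hx)
          · exact hA r' hr' h6 x hx hx0 hxr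
      · refine ⟨s, hs, ?_⟩
        intro r' hr' h6 x hx hx0 hxr
        rcases hr' with rfl | hr'
        · rw [hm4] at hm2
          exact h6 hm2
        · exact hA r' hr' h6 x hx hx0 hxr
    · refine ⟨s, hs, ?_⟩
      intro r' hr' h6 x hx hx0 hxr
      rcases hr' with rfl | hr'
      · exact h ⟨x, hx0, hxr⟩
      · exact hA r' hr' h6 x hx hx0 hxr

theorem wf (hwf : WellFounded ((· < ·) : T → T → Prop)) :
    WellFounded ((· < ·) : Pt T → Pt T → Prop) := by
  have hi : ∀ t : T, Acc ((· < ·) : Pt T → Pt T → Prop) (Pt.i t) := by
    intro t
    induction t using hwf.induction with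
    | _ t ih =>
      constructor
      intro y hy
      cases y with
      | o => exact absurd (o_le _ hy.le) (i_ne _)
      | i s => exact ih s ((i_lt s t).1 hy)
  constructor
  intro x
  cases x with
  | o =>
    constructor
    intro y hy
    have h1 := le_o y hy.le
    rw [h1] at hy
    exact absurd hy (lt_irrefl _)
  | i t => exact hi t

theorem treeTop (hwf : WellFounded ((· < ·) : T → T → Prop))
    (hch : ∀ t r s : T, r ≤ t → s ≤ t → r ≤ s ∨ s ≤ r)
    (hglb : ∀ t t' : T, (∃ s, s ≤ t ∧ s ≤ t') → ∃ m, m ≤ t ∧ m ≤ t' ∧ ∀ s, s ≤ t → s ≤ t' → s ≤ m) :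
    TreeTop (Pt T) (Pt.o : Pt T) where
  up := o_le
  dn := le_o
  chain := by
    intro t r s hr hs
    cases t with
    | o =>
      rw [le_o r hr, le_o s hs]
      exact Or.inl le_rfl
    | i t =>
      cases r with
      | o => exact hr.elim
      | i r =>
        cases s with
        | o => exact hs.elim
        | i s => exact hch t r s hr hs
  wf := wf hwf
  clopen := by
    intro t ht
    cases t with
    | o => exact absurd rfl ht
    | i r =>
      have h1 : Iic (Pt.i r : Pt T) = (fun x : Pt T => Psi x r) ⁻¹' {true} := by
        ext x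
        exact (Psi_true x r).symm
      rw [h1]
      exact (isClopen_discrete ({true} : Set Bool)).preimage ((continuous_apply r).comp Psi_cont)
  base := by
    intro t ht V hV
    cases t with
    | o => exact absurd rfl ht
    | i t0 =>
      by_cases hne : ∃ s, s < t0
      · left
        rw [nhds_induced, mem_comap] at hV
        obtain ⟨W, hW, hWV⟩ := hV
        rw [nhds_pi, Filter.mem_pi] at hW
        obtain ⟨A, hA, S, hS, hSW⟩ := hW
        obtain ⟨s, hs, hs'⟩ := base hch hglb t0 hne A hA
        refine ⟨Pt.i s, (i_lt s t0).2 hs, ?_⟩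
        rintro x ⟨hx1, hx2⟩
        apply hWV
        apply hSW
        intro r hr
        cases x with
        | o => exact absurd (o_le _ hx2) (i_ne _)
        | i y =>
          have hy1 : s < y := (i_lt s y).1 hx1
          have hy2 : y ≤ t0 := hx2
          have h3 : Psi (Pt.i y) r = Psi (Pt.i t0) r := by
            by_cases h4 : t0 ≤ r
            · rw [(Psi_i t0 r).2 h4, (Psi_i y r).2 (hy2.trans h4)]
            · have h5 := hs' r hr h4 y hy1 hy2
              have h6 : Psi (Pt.i y) r = false := by
                rw [← Bool.not_eq_true, Psi_i]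
                exact h5
              have h7 : Psi (Pt.i t0) r = false := by
                rw [← Bool.not_eq_true, Psi_i]
                exact h4
              rw [h6, h7]
          rw [h3]
          exact mem_of_mem_nhds (hS r)
      · right
        intro s hs
        cases s with
        | o => exact absurd (o_le _ hs.le) (i_ne _)
        | i s => exact hne ⟨s, (i_lt s t0).1 hs⟩

end LTx

/-- [LT] -/
theorem thm_LT : St_LT := by
  intro T _ hwf hch hglb
  refine ⟨LTx.Pt T, inferInstance, LTx.compact hwf hglb, LTx.t2, inferInstance, LTx.Pt.o, LTx.Pt.i,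
    LTx.treeTop hwf hch hglb, ?_, ?_, ?_⟩
  · intro t
    exact LTx.i_ne t
  · intro x hx
    cases x with
    | o => exact absurd rfl hx
    | i t => exact ⟨t, rfl⟩
  · intro s t
    exact LTx.i_le s t

end TRE
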