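import Pool.Agent.TRE.StB

/-!
# TRE: [TT] the infinitely branching tree of height `ω₁`
-/

set_option autoImplicit false

namespace TRE

open Set Topology Filter

namespace TTx

/-- The first uncountable well-ordered type. -/
abbrev Om : Type := (Ordinal.omega 1).ToType

private lemma ne_om : Nonempty Om := Ordinal.nonempty_toType_iff.2 (Ordinal.omega_pos 1).ne'

private lemma mk_om : Cardinal.mk Om = Cardinal.aleph 1 := by
  rw [Cardinal.mk_toType, Ordinal.card_omega]

private lemma countable_Iio (a : Om) : (Iio a).Countable := by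
  rw [← Cardinal.le_aleph0_iff_set_countable, ← Cardinal.lt_aleph_one_iff, ← mk_om]
  apply Cardinal.mk_Iio_lt
  rw [mk_om, Cardinal.ord_aleph, Ordinal.type_toType]

private lemma countable_Iic (a : Om) : (Iic a).Countable := by
  rw [← Iio_insert]
  exact (countable_Iio a).insert a

private lemma not_countable_univ : ¬ (univ : Set Om).Countable := by
  rw [← Cardinal.le_aleph0_iff_set_countable, ← Cardinal.lt_aleph_one_iff, Cardinal.mk_univ, mk_om]
  exact lt_irrefl _

private lemma bdd_of_countable {A : Set Om} (hA : A.Countable) : ∃ b : Om, ∀ x ∈ A, x < b := by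
  by_contra h
  push Not at h
  apply not_countable_univ
  refine (hA.biUnion (fun x _ => countable_Iic x)).mono ?_
  intro b _
  obtain ⟨x, hx, hb⟩ := h b
  exact mem_biUnion hx hb

private lemma exists_gt_om (a : Om) : ∃ b, a < b := by
  obtain ⟨b, hb⟩ := bdd_of_countable (countable_singleton a)
  exact ⟨b, hb a rfl⟩

/-- least elements -/
private lemma least (A : Set Om) (hA : A.Nonempty) : ∃ a ∈ A, ∀ b ∈ A, a ≤ b := by
  obtain ⟨a, ha, h⟩ := (wellFounded_lt (α := Om)).has_min A hA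
  exact ⟨a, ha, fun b hb => not_lt.1 (h b hb)⟩

/-- The nodes: a length `a` and a function, with the value `0` from `a` on. -/
structure Nd where
  /-- the length -/
  a : Om
  /-- the values -/
  x : Om → ℕ
  zero : ∀ b, a ≤ b → x b = 0

private lemma Nd.ext' {s t : Nd} (h1 : s.a = t.a) (h2 : ∀ b, b < s.a → s.x b = t.x b) : s = t := by
  obtain ⟨a, x, hx⟩ := s
  obtain ⟨a', x', hx'⟩ := t
  change a = a' at h1
  subst h1
  have h3 : x = x' := by
    funext b
    rcases lt_or_ge b a with h | h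
    · exact h2 b h
    · rw [hx b h, hx' b h]
  subst h3
  rfl

instance instOrd : PartialOrder Nd where
  le s t := s.a ≤ t.a ∧ ∀ b, b < s.a → s.x b = t.x b
  le_refl s := ⟨le_rfl, fun _ _ => rfl⟩
  le_trans s t u h1 h2 := ⟨h1.1.trans h2.1, fun b hb =>
    (h1.2 b hb).trans (h2.2 b (hb.trans_le h1.1))⟩
  le_antisymm s t h1 h2 := Nd.ext' (le_antisymm h1.1 h2.1) h1.2

private lemma le_def (s t : Nd) : s ≤ t ↔ s.a ≤ t.a ∧ ∀ b, b < s.a → s.x b = t.x b := Iff.rfl

private lemma lt_a {s t : Nd} (h : s < t) : s.a < t.a := by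
  rcases lt_or_eq_of_le h.le.1 with h1 | h1
  · exact h1
  · exact absurd (Nd.ext' h1 h.le.2) h.ne

private lemma wf_Nd : WellFounded ((· < ·) : Nd → Nd → Prop) :=
  Subrelation.wf (fun h => lt_a h) (InvImage.wf Nd.a (wellFounded_lt (α := Om)))

private lemma chain_Nd (t r s : Nd) (hr : r ≤ t) (hs : s ≤ t) : r ≤ s ∨ s ≤ r := by
  rcases le_total r.a s.a with h | h
  · exact Or.inl ⟨h, fun b hb => (hr.2 b hb).trans (hs.2 b (hb.trans_le h)).symm⟩
  · exact Or.inr ⟨h, fun b hb => (hs.2 b hb).trans (hr.2 b (hb.trans_le h)).symm⟩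

open Classical in
/-- restriction -/
noncomputable def Nd.res (t : Nd) (c : Om) : Nd where
  a := c
  x b := if b < c then t.x b else 0
  zero _ hb := if_neg (not_lt.2 hb)

private lemma res_le (t : Nd) {c : Om} (hc : c ≤ t.a) : t.res c ≤ t :=
  ⟨hc, fun _ hb => if_pos hb⟩

private lemma inf_Nd (t t' : Nd) : ∃ m, m ≤ t ∧ m ≤ t' ∧ ∀ s, s ≤ t → s ≤ t' → s ≤ m := by
  obtain ⟨c, hc, hmin⟩ := least {c | c = t.a ∨ c = t'.a ∨ t.x c ≠ t'.x c} ⟨t.a, Or.inl rfl⟩
  have h1 : c ≤ t.a := hmin _ (Or.inl rfl)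
  have h2 : c ≤ t'.a := hmin _ (Or.inr (Or.inl rfl))
  have h3 : ∀ b, b < c → t.x b = t'.x b := by
    intro b hb
    by_contra h
    exact absurd (hmin b (Or.inr (Or.inr h))) (not_le.2 hb)
  refine ⟨t.res c, res_le t h1, ⟨h2, fun b hb => ?_⟩, fun s hs hs' => ?_⟩
  · exact (if_pos hb).trans (h3 b hb)
  · have h4 : s.a ≤ c := by
      rcases hc with h | h | h
      · rw [h]
        exact hs.1
      · rw [h]
        exact hs'.1
      · by_contra h5
        exact h ((hs.2 c (not_le.1 h5)).symm.trans (hs'.2 c (not_le.1 h5)))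
    exact ⟨h4, fun b hb => (hs.2 b hb).trans (if_pos (hb.trans_le h4)).symm⟩

private lemma Iic_Nd (t : Nd) : (Iic t).Countable := by
  have h : InjOn Nd.a (Iic t) := by
    intro s hs s' hs' he
    exact Nd.ext' he fun b hb => (hs.2 b hb).trans (hs'.2 b (he ▸ hb)).symm
  refine Set.countable_of_injective_of_countable_image h ?_
  refine (countable_Iic t.a).mono ?_
  rintro _ ⟨s, hs, rfl⟩
  exact hs.1

open Classical in
/-- the successors -/
noncomputable def Nd.sc (t : Nd) (c : Om) (hc : t.a < c) (i : ℕ) : Nd where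
  a := c
  x b := if b = t.a then i else t.x b
  zero b hb := by
    rw [if_neg (hc.trans_le hb).ne']
    exact t.zero b (hc.le.trans hb)

private lemma succ_Nd (t : Nd) : {u | t ⋖ u}.Infinite := by
  obtain ⟨c, hc, hmin⟩ := least {c | t.a < c} (exists_gt_om t.a)
  have hc' : t.a < c := hc
  have hinj : Function.Injective (fun i => t.sc c hc' i) := by
    intro i j hij
    have h1 : (t.sc c hc' i).x t.a = (t.sc c hc' j).x t.a := by
      have h2 : t.sc c hc' i = t.sc c hc' j := hij
      rw [h2]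
    have h2 : (t.sc c hc' i).x t.a = i := if_pos rfl
    have h3 : (t.sc c hc' j).x t.a = j := if_pos rfl
    rw [← h2, ← h3, h1]
  refine infinite_of_injective_forall_mem hinj fun i => ?_
  have hle : t ≤ t.sc c hc' i := ⟨hc'.le, fun b hb => (if_neg hb.ne).symm⟩
  refine ⟨lt_of_le_of_ne hle fun h => ?_, fun z hz1 hz2 => ?_⟩
  · have h1 : t.a = c := congrArg Nd.a h
    exact hc'.ne h1
  · have h1 : c ≤ z.a := hmin z.a (lt_a hz1)
    have h2 : z.a < c := lt_a hz2
    exact absurd h1 (not_le.2 h2)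

open Classical in
private lemma sup_Nd (s : ℕ → Nd) (hs : Monotone s) : ∃ b, IsLUB (range s) b := by
  obtain ⟨c0, hc0⟩ := bdd_of_countable (countable_range fun n => (s n).a)
  obtain ⟨c, hc, hmin⟩ := least {c | ∀ n, (s n).a ≤ c} ⟨c0, fun n => (hc0 _ ⟨n, rfl⟩).le⟩
  have hc' : ∀ n, (s n).a ≤ c := hc
  have hcoh : ∀ n m b, b < (s n).a → b < (s m).a → (s n).x b = (s m).x b := by
    intro n m b hn hm
    rcases le_total n m with h | h
    · exact (hs h).2 b hn
    · exact ((hs h).2 b hm).symm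
  let B : Nd := {
    a := c
    x := fun b => if h : ∃ n, b < (s n).a then (s h.choose).x b else 0
    zero := fun b hb => dif_neg fun ⟨n, hn⟩ => absurd hn (not_lt.2 ((hc' n).trans hb)) }
  have hB : ∀ n b, b < (s n).a → (s n).x b = B.x b := by
    intro n b hb
    have h : ∃ n, b < (s n).a := ⟨n, hb⟩
    have h1 : B.x b = (s h.choose).x b := dif_pos h
    rw [h1]
    exact hcoh _ _ _ hb h.choose_spec
  refine ⟨B, ?_, ?_⟩
  · rintro _ ⟨n, rfl⟩
    exact ⟨hc' n, hB n⟩
  · intro u hu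
    have hu' : ∀ n, s n ≤ u := fun n => hu ⟨n, rfl⟩
    refine ⟨hmin u.a fun n => (hu' n).1, fun b hb => ?_⟩
    have h : ∃ n, b < (s n).a := by
      by_contra h
      push Not at h
      exact absurd (hmin b h) (not_le.2 hb)
    obtain ⟨n, hn⟩ := h
    rw [← hB n b hn]
    exact (hu' n).2 b hn

end TTx

open TTx

theorem thm_TT : St_TT := by
  obtain ⟨a0⟩ := ne_om
  exact ⟨Nd, instOrd, ⟨⟨a0, fun _ => 0, fun _ _ => rfl⟩⟩, wf_Nd, chain_Nd,
    fun t t' _ => inf_Nd t t', Iic_Nd, succ_Nd, sup_Nd⟩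

end TRE
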