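import Pool.Agent.TRE.PS
import Pool.Agent.TRE.KO
import Pool.Agent.TRE.KT
import Pool.Agent.TRE.LT
import Pool.Agent.TRE.TT
import Pool.Agent.TRE.G1
import Pool.Agent.TRE.G2
import Pool.Agent.TRE.G3
import Pool.Agent.TRE.FB2

/-!
# TRE: the final theorem of the second part
-/

set_option autoImplicit false

namespace TRE

open Set Topology Filter SDN

theorem Fin_FB2 : St_FB2 := thm_FB2 thm_PS (thm_KT thm_KO) thm_LT thm_TT (thm_G3 thm_G1 (thm_G2 thm_G1))

end TRE
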