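import Pool.Agent.TRE.StB
import Pool.Agent.SDN.Fin

/-!
# TRE [PS]: private sequences
-/

set_option autoImplicit false

namespace TRE

open Set Topology Filter SDN

theorem thm_PS : St_PS := by
  classical
  intro K Y _ _ o a e hcov ha he X _ _ _ q C hC hqC hqs ε hε hε1
  have hqc : Continuous q := MK_cont q C hC.le hqC
  set η : ℝ := ε / 8 with hη
  have hη0 : 0 < η := by positivity
  have hη1 : η < 1 := by simp only [hη]; linarith
  have hη8 : η ≤ 1 / 8 := by simp only [hη]; linarith
  have hGTS : St_GTS := thm_GTS thm_TH thm_GS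
  have hNRM : St_NRM := thm_NRM
  choose ev hev using fun k : K => CH_ev (X := X) k
  -- the continuous linear maps
  let RA : Option (Y × ℕ × Bool) → (C(K, X) →L[ℝ] X) := fun i =>
    match i with
    | none => (1 + η) • ev o
    | some (y, n, b) => if b then ev (e y n) else ev (a y)
  let RJ : Option (Y × ℕ × Bool) → (C(K, X) →L[ℝ] X) := fun i =>
    match i with
    | none => (1 + η) • ev o
    | some (y, n, _) => ((1 / 2 : ℝ) ^ n / 2) • (ev (e y n) - ev o)
  let A : Option (Y × ℕ × Bool) → Seminorm ℝ C(K, X) := fun i =>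
    q.comp ((RA i : C(K, X) →L[ℝ] X) : C(K, X) →ₗ[ℝ] X)
  let J : Option (Y × ℕ × Bool) → Seminorm ℝ C(K, X) := fun i =>
    q.comp ((RJ i : C(K, X) →L[ℝ] X) : C(K, X) →ₗ[ℝ] X)
  have hsc : ∀ (r : ℝ) (x : X), 0 ≤ r → q (r • x) = r * q x := fun r x hr => by
    rw [map_smul_eq_mul, Real.norm_of_nonneg hr]
  have hAn : ∀ f, A none f = (1 + η) * q (f o) := by
    intro f
    change q ((1 + η) • ev o f) = _
    rw [hev, hsc _ _ (by linarith)]
  have hJn : ∀ f, J none f = (1 + η) * q (f o) := hAn
  have hAf : ∀ y n f, A (some (y, n, false)) f = q (f (a y)) := by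
    intro y n f
    change q (ev (a y) f) = _
    rw [hev]
  have hAt : ∀ y n f, A (some (y, n, true)) f = q (f (e y n)) := by
    intro y n f
    change q (ev (e y n) f) = _
    rw [hev]
  have hJs : ∀ y n b f, J (some (y, n, b)) f = (1 / 2 : ℝ) ^ n / 2 * q (f (e y n) - f o) := by
    intro y n b f
    change q (((1 / 2 : ℝ) ^ n / 2) • (ev (e y n) f - ev o f)) = _
    rw [hev, hev, hsc _ _ (by positivity)]
  have hqn : ∀ (f : C(K, X)) k, q (f k) ≤ C * ‖f‖ := fun f k =>
    (hqC _).trans (mul_le_mul_of_nonneg_left (f.norm_coe_le_norm k) hC.le)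
  have hAup : ∀ i f r, 0 ≤ r → (∀ k, q (f k) ≤ r) → A i f ≤ (1 + η) * r := by
    intro i f r hr h
    match i with
    | none =>
      rw [hAn]
      exact mul_le_mul_of_nonneg_left (h o) (by linarith)
    | some (y, n, false) =>
      rw [hAf]
      have := h (a y)
      nlinarith
    | some (y, n, true) =>
      rw [hAt]
      have := h (e y n)
      nlinarith
  have hAC : ∀ i f, A i f ≤ (1 + η) * (C * ‖f‖) := fun i f => hAup i f _ (by positivity) (hqn f)
  obtain ⟨p, hp1, hp2, hp3⟩ := CH_sup A (fun f => (1 + η) * (C * ‖f‖)) hAC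
  have hplow : ∀ (f : C(K, X)) k, q (f k) ≤ p f := by
    intro f k
    rcases hcov k with h | ⟨y, h⟩ | ⟨y, n, h⟩
    · have h1 := hp1 none f
      rw [hAn] at h1
      rw [h]
      have h2 := apply_nonneg q (f o)
      nlinarith
    · have h1 := hp1 (some (y, 0, false)) f
      rw [hAf] at h1
      rw [h]
      exact h1
    · have h1 := hp1 (some (y, n, true)) f
      rw [hAt] at h1
      rw [h]
      exact h1
  have hpC : ∀ f, p f ≤ ((1 + η) * C) * ‖f‖ := by
    intro f
    refine hp2 f _ fun i => ?_
    have := hAC i f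
    linarith
  have hJ2 : ∀ y n b f, J (some (y, n, b)) f ≤ (1 / 2 : ℝ) ^ n * p f := by
    intro y n b f
    rw [hJs y n b f]
    have h1 : q (f (e y n) - f o) ≤ q (f (e y n)) + q (f o) := map_sub_le_add q _ _
    have h2 := hplow f (e y n)
    have h3 := hplow f o
    have h4 : (0 : ℝ) ≤ (1 / 2) ^ n := by positivity
    nlinarith
  have hhalf : ∀ n : ℕ, (1 / 2 : ℝ) ^ n ≤ 1 := fun n => pow_le_one₀ (by norm_num) (by norm_num)
  have hJp : ∀ i f, J i f ≤ p f := by
    intro i f
    match i with
    | none =>
      exact hp1 none f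
    | some (y, n, b) =>
      have h1 := hJ2 y n b f
      have h2 := apply_nonneg p f
      nlinarith [hhalf n]
  have hAs : ∀ i f, A i f ≠ 0 → ContDiffAt ℝ ((⊤ : ℕ∞) : WithTop ℕ∞) (⇑(A i)) f :=
    fun i f hf => CH_comp q (RA i) hqs f hf
  have hJsm : ∀ i f, J i f ≠ 0 → ContDiffAt ℝ ((⊤ : ℕ∞) : WithTop ℕ∞) (⇑(J i)) f :=
    fun i f hf => CH_comp q (RJ i) hqs f hf
  have hfin : ∀ f, ∀ δ : ℝ, 0 < δ → {i | δ < J i f}.Finite := by
    intro f δ hδ
    obtain ⟨n₀, hn₀⟩ : ∃ n₀ : ℕ, ∀ n, n₀ ≤ n → (1 / 2 : ℝ) ^ n * p f ≤ δ := by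
      have h1 : Tendsto (fun n : ℕ => (1 / 2 : ℝ) ^ n * p f) atTop (𝓝 (0 * p f)) :=
        (tendsto_pow_atTop_nhds_zero_of_lt_one (by norm_num) (by norm_num)).mul_const _
      rw [zero_mul] at h1
      obtain ⟨n₀, h2⟩ := (h1.eventually (gt_mem_nhds hδ)).exists_forall_of_atTop
      exact ⟨n₀, fun n hn => (h2 n hn).le⟩
    have hY : ∀ n, {y | δ ≤ q (f (e y n) - f o)}.Finite := by
      intro n
      have h1 : ∀ᶠ y in cofinite, q (f (e y n) - f o) < δ := by
        have h2 : ContinuousAt (fun k => q (f k - f o)) o :=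
          (hqc.comp (f.continuous.sub continuous_const)).continuousAt
        have h3 : ∀ᶠ k in 𝓝 o, q (f k - f o) < δ := by
          refine h2.eventually_lt continuousAt_const ?_
          change q (f o - f o) < δ
          rw [sub_self, map_zero]
          exact hδ
        exact (he n).eventually h3
      rw [eventually_cofinite] at h1
      refine h1.subset fun y hy => not_lt.2 hy
    let Q : Set (Option (Y × ℕ × Bool)) := insert none (some '' (⋃ n ∈ Finset.range n₀,
      ({y | δ ≤ q (f (e y n) - f o)} ×ˢ (({n} : Set ℕ) ×ˢ (univ : Set Bool)))))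
    have hQ : Q.Finite := by
      refine Set.Finite.insert _ (Set.Finite.image _ ?_)
      refine Set.Finite.biUnion (Finset.finite_toSet _) fun n _ => ?_
      exact (hY n).prod ((Set.finite_singleton n).prod Set.finite_univ)
    refine hQ.subset ?_
    intro i hi
    match i with
    | none => exact mem_insert _ _
    | some (y, n, b) =>
      refine mem_insert_of_mem _ ⟨(y, n, b), ?_, rfl⟩
      change δ < J (some (y, n, b)) f at hi
      have h1 := hJ2 y n b f
      have h2 : n < n₀ := by
        by_contra hcon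
        have h3 := hn₀ n (not_lt.1 hcon)
        linarith
      rw [hJs y n b f] at hi
      refine mem_iUnion₂.2 ⟨n, Finset.mem_range.2 h2, ?_, rfl, mem_univ _⟩
      change δ ≤ q (f (e y n) - f o)
      have h4 := apply_nonneg q (f (e y n) - f o)
      have h5 : (0 : ℝ) ≤ (1 / 2) ^ n := by positivity
      nlinarith [hhalf n]
  have hmax : ∀ f, p f ≠ 0 → ∃ i, A i f = p f ∧ 0 < J i f := by
    intro f hf
    have hP0 : 0 < p f := lt_of_le_of_ne (apply_nonneg p f) (Ne.symm hf)
    by_cases hno : A none f = p f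
    · exact ⟨none, hno, by change 0 < A none f; rw [hno]; exact hP0⟩
    · have hlt : (1 + η) * q (f o) < p f := by
        rw [← hAn]
        exact lt_of_le_of_ne (hp1 none f) hno
      have hqo := apply_nonneg q (f o)
      have hlt2 : q (f o) < p f := by nlinarith
      obtain ⟨x, -, hx⟩ := (isCompact_univ (X := K)).exists_isMaxOn ⟨o, mem_univ o⟩
        ((hqc.comp f.continuous).continuousOn)
      have hx' : ∀ k, q (f k) ≤ q (f x) := fun k => hx (mem_univ k)
      have hpx : q (f x) = p f := by
        refine le_antisymm (hplow f x) ?_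
        by_contra! hcon
        obtain ⟨i, hi⟩ := hp3 f (max (q (f x)) ((1 + η) * q (f o))) (max_lt hcon hlt)
        have h1 := (le_max_left _ _).trans_lt hi
        have h2 := (le_max_right _ _).trans_lt hi
        rcases i with _ | ⟨y, n, b⟩
        · rw [hAn] at h2
          exact lt_irrefl _ h2
        · cases b
          · rw [hAf] at h1
            exact absurd (hx' (a y)) (not_le.2 h1)
          · rw [hAt] at h1
            exact absurd (hx' (e y n)) (not_le.2 h1)
      rcases hcov x with h | ⟨y, h⟩ | ⟨y, n, h⟩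
      · rw [h] at hpx
        linarith
      · have h1 : 0 < q (f (a y) - f o) := by
          have h2 : q (f (a y)) ≤ q (f (a y) - f o) + q (f o) := by
            have := map_add_le_add q (f (a y) - f o) (f o)
            rwa [sub_add_cancel] at this
          rw [← h] at h2
          rw [← h]
          linarith
        have h2 : ContinuousAt (fun k => q (f k - f o)) (a y) :=
          (hqc.comp (f.continuous.sub continuous_const)).continuousAt
        have h3 : ∀ᶠ k in 𝓝 (a y), 0 < q (f k - f o) :=
          continuousAt_const.eventually_lt h2 h1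
        obtain ⟨n, hn⟩ := ((ha y).eventually h3).exists
        refine ⟨some (y, n, false), by rw [hAf y n f, ← h, hpx], ?_⟩
        rw [hJs y n false f]
        positivity
      · refine ⟨some (y, n, true), by rw [hAt, ← h, hpx], ?_⟩
        rw [hJs y n true f, ← h]
        have h2 : q (f x) ≤ q (f x - f o) + q (f o) := by
          have := map_add_le_add q (f x - f o) (f o)
          rwa [sub_add_cancel] at this
        have h3 : 0 < q (f x - f o) := by linarith
        positivity
  obtain ⟨M, hM1, hM2, hM3, hM4⟩ := hGTS C(K, X) (Option (Y × ℕ × Bool)) p A J ((1 + η) * C) (by positivity)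
    hpC hp1 hJp hAs hJsm hfin hmax η hη0 hη1
  have hη2 : 0 < 1 - η := by linarith
  refine hNRM K X q (univ : Set K) o M 0 ((1 + η) / (1 - η) - 1) ε (mem_univ _) le_rfl ?_ ?_ ?_ ?_ hM3 ?_
  · rw [sub_nonneg, le_div_iff₀ hη2]
    linarith
  · rw [add_sub_cancel, add_zero, one_mul, div_le_iff₀ hη2]
    have hε8 : ε = 8 * η := by simp only [hη]; ring
    rw [hε8]
    nlinarith [mul_nonneg hη0.le hη0.le]
  · intro f k _
    rw [add_zero, one_mul]
    exact (hplow f k).trans (hM1 f)
  · intro f r hr h
    rw [add_sub_cancel]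
    have h1 : p f ≤ (1 + η) * r := hp2 f _ fun i => hAup i f r hr (fun k => h k (mem_univ k))
    have h2 := (hM2 f).trans h1
    rw [div_mul_eq_mul_div, le_div_iff₀ hη2]
    linarith
  · intro f f' hf hf' hff
    have hconst : ∀ f : C(K, X), (∀ x ∈ (univ : Set K), f x = f o) →
        (∀ i, A i f = if i = none then (1 + η) * q (f o) else q (f o)) ∧
        ∀ i, J i f = if i = none then (1 + η) * q (f o) else 0 := by
      intro f hf
      constructor
      · intro i
        match i with
        | none => rw [if_pos rfl, hAn]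
        | some (y, n, false) => rw [if_neg (by simp), hAf y n f, hf (a y) (mem_univ _)]
        | some (y, n, true) => rw [if_neg (by simp), hAt y n f, hf (e y n) (mem_univ _)]
      · intro i
        match i with
        | none => rw [if_pos rfl, hJn]
        | some (y, n, b) => rw [if_neg (by simp), hJs y n b f, hf (e y n) (mem_univ _), sub_self, map_zero, mul_zero]
    obtain ⟨h1, h2⟩ := hconst f hf
    obtain ⟨h3, h4⟩ := hconst f' hf'
    refine hM4 f f' ?_ ?_
    · intro i
      rw [h1, h3, hff]
    · intro i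
      rw [h2, h4, hff]

end TRE
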