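import Pool.Agent.TRE.Defs

/-!
# TRE: statements, first part (trees in the class `GoodK`)

Standard facts on `TreeTop L o` (`L` compact Hausdorff), used below:
(a) If `s < t` or `t` covers `s` then `s ≠ o` iff `t ≠ o` (`up`, `dn`). If `t < x` then there is a successor `u` of `t` below `x`:
`t ⋖ u ≤ x` (the least element of `{z | t < z ≤ x}`; `z` with `t < z < u` would be smaller), and it is unique (`chain`); two
different successors of `t` are not comparable.
(b) `Ici c ∪ {o}` is closed: if `x ≠ o`, `¬ c ≤ x` then `Iic x` is an open neighbourhood of `x` without points `≥ c`.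
(c) Every nonempty compact set `M ⊆ {o}ᶜ` has maximal elements, and every chain in `M` has an upper bound in `M`
(for a nonempty chain `S ⊆ M` the closed sets `M ∩ (Ici c ∪ {o}) = M ∩ Ici c`, `c ∈ S`, are directed and nonempty). -/

set_option autoImplicit false

namespace TRE

open Set Topology Filter SDN

/-- [TA] (2h) Normalization of `ρ`.
PROOF. Let `h x = 1 / 2 + Real.arctan x / π` (strictly increasing, values in `(0, 1)`), `ρ₁ = h ∘ ρ`. Call `t` a limit node if there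
is `s < t` but no `s ⋖ t`. Let `w t = ⨆ s : Iio t, ρ₁ s` for the limit nodes, `w o = 1`, `w t = ρ₁ t` for all other `t`; so
`w ≤ ρ₁` off `o`, and `w` is increasing: for `s < t`, `t` a limit node, `w s ≤ ρ₁ s ≤ w t`; otherwise `w s ≤ ρ₁ s ≤ ρ₁ t = w t`.
For `t ≠ o` let `ε` be as in `GoodRho.bad`, `ε₁ = h (ρ t + ε) - h (ρ t) > 0`. A successor `u` of `t` is not a limit node, so
`w u = ρ₁ u`; the set `A t = {u | t ⋖ u ∧ w u < w t + ε₁}` is finite, since `ρ₁ u < w t + ε₁ ≤ ρ₁ t + ε₁` gives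
`ρ u < ρ t + ε`. Let `F t = {u ∈ A t | w u = w t}` (`F o = ∅`), `r t` a rational number with `w t < r t`, `r t ≤ w t + ε₁`,
`r t ≤ w u` for all `u ∈ A t` with `w u ≠ w t` (then `w t < w u`); `c t = Nat.pair (Encodable.encode (r t)) (F t).card`
(`≥ (F t).card`, `Nat.right_le_pair`), `g n` = the rational number with code `(Nat.unpair n).1` (or `0`).
`lim`: by definition of `w` (`ciSup_le`). `ever`: let `E` be nonempty, ever-branching, `w = C` on `E`. `o ∉ E` (the only
point `≥ o` is `o`). Let `E' = {u | (∃ s, s ⋖ u) ∧ ∃ x ∈ E, ∃ y ∈ E, x < u ∧ u ≤ y}`. For `u ∈ E'`: `ρ₁ u = w u`,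
`C = w x ≤ w u ≤ w y = C`, so `ρ` is constant on `E'` (`h` is injective). `E'` is not empty: `x ∈ E`, `y ∈ E`, `x < y`
(one of the two points above `x` is `≠ x`), and the successor of `x` below `y`. `E'` is ever-branching: let `u ∈ E'`, `x < u ≤ y`,
`y₁, y₂ ∈ E` not comparable and `≥ y`. Let `u₁` be the least `z ≤ y₁` with `¬ z ≤ y₂`. `z` and `y` are comparable (both `≤ y₁`)
and `y ≤ y₂`, so `y < u₁`. `u₁` is not a limit node: otherwise all `z < u₁` satisfy `z ≤ y₂`, and by `base` every neighbourhood of `u₁`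
contains such a `z > s`; as `Iic y₂` is closed, `u₁ ≤ y₂`. So `u₁ ∈ E'` (`y < u₁ ≤ y₁`). `u₂` in the same way. They
are not comparable (`u₁ ≤ u₂ ≤ y₂` is false), and `u ≤ y < u₁, u₂`. This contradicts `GoodRho.ever`. -/
def St_TA : Prop :=
  ∀ (L : Type) [TopologicalSpace L] [CompactSpace L] [T2Space L] [PartialOrder L] (o : L) (ρ : L → ℝ),
    TreeTop L o → GoodRho L o ρ →
    ∃ (w : L → ℝ) (F : L → Finset L) (c : L → ℕ) (g : ℕ → ℝ), Flow L o w F c g

/-- [TB] (1.5h) The weights of the pairs.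
PROOF. For `x ≠ o` let `OK x` be: there is `D : L → Set L`, all `D s` countable, such that for all `t ≥ x` with `w t = w x`, all
`u₁ ≠ u₂` in `F t` and all `s₁ ≥ u₁`, `s₂ ≥ u₂` with `w s₁ = w s₂ = w t`: `t ∈ D s₁` or `t ∈ D s₂`. If `OK x`, `x ≤ x'`, `w x' = w x`
then `OK x'`.
All `x ≠ o` are `OK`: otherwise let `x₀ ≠ o` be not `OK`, `E = {x | x₀ ≤ x ∧ w x = w x₀ ∧ ¬ OK x}`; `w` is constant on `E`, so by
`Flow.ever` there is `x ∈ E` such that the elements of `E` above `x` are pairwise comparable. Show `OK x`. For `y ≥ x` with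
`w y = w x` let `z y` be the least element of `B y = {z | x ≤ z ∧ z ≤ y ∧ OK z}` if this is not empty; `D_z` a choice of `D` for
`OK z`. Let `D y = D_{z y} y ∪ {t | t ⋖ z y}` (the second set has at most one element), `D y = ∅` if `B y = ∅`. Let `t ≥ x`,
`w t = w x`, `u₁ ≠ u₂ ∈ F t`, `s₁, s₂` as above. If `OK t`: `z t ≤ t ≤ s₁`, and `z s₁ = z t` (`z t ∈ B s₁`, so `z s₁ ≤ z t ≤ t`,
`z s₁ ∈ B t`), the same for `s₂`; the property of `D_{z t}` gives the claim (`z t ≤ t`, `w (z t) = w t`). If `¬ OK t`: `t ∈ E`;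
`u₁`, `u₂` are not comparable and `≥ x`, so they are not both in `E`, say `OK u₁`. Then `u₁ ∈ B s₁`, `z s₁ ≤ u₁`. If `z s₁ < u₁` then
`z s₁ ≤ t` (comparable; `t < z s₁ < u₁` contradicts `t ⋖ u₁`), so `OK (z s₁)` gives `OK t`, contradiction. So `z s₁ = u₁` and
`t ∈ D s₁`. Contradiction.
Now for `s ≠ o` let `r s` be the least element of `{z | z ≤ s ∧ w z = w s}`, `D s = D_{r s} s` (`D o = ∅`). For `t ≠ o`, `s₁ ≥ t` with
`w s₁ = w t`: `r s₁ = r t`. So `D` has the property for all `t ≠ o` at the same time. Let `lam s t = 1` if `t = s`, otherwise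
`1 / (j + 2)` if `t ∈ D s` has the number `j` in an injection `D s → ℕ`, otherwise `0`. -/
def St_TB : Prop :=
  ∀ (L : Type) [PartialOrder L] (o : L) (w : L → ℝ) (F : L → Finset L) (c : L → ℕ) (g : ℕ → ℝ),
    (∀ t : L, o ≤ t → t = o) → (∀ t : L, t ≤ o → t = o) → (∀ t r s : L, r ≤ t → s ≤ t → r ≤ s ∨ s ≤ r) →
    WellFounded ((· < ·) : L → L → Prop) → Flow L o w F c g → ∃ lam : L → L → ℝ, Lam L o w F lam

/-- [TC] (2h) The flow operator has values in `c_0` on every set `{c = n}`.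
PROOF. Let `G y = f (σ y)`, `κ t = G o + ∑ u ∈ F t, (G u - G o)`, `θ = δ / (n + 4)`. `π` is a closed map. For `v ≠ o` not isolated
there is a neighbourhood `V` of `v` with `q (f k - G v) < θ` for all `k` with `π k ∈ V` (the fibre over `v` is `{σ v}`; compare
`SDN.CH_nhd`), and by `base` (as `v` is not isolated it is not minimal: `Iic v = {v}` for `v` minimal) some `a v < v` with
`Ioc (a v) v ⊆ V`; let `B v = Ioc (a v) v` (open: `Iic v \ Iic (a v)`). For `v ≠ o` isolated let `B v = {v}`. Let `O` be an open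
neighbourhood of `o` with `q (f k - G o) < θ` for all `k` with `π k ∈ O`, `π k ≠ o` (if `o` is isolated: `O = {o}`). `Q = Oᶜ` is compact
and does not contain `o`, so `Q ⊆ B v₁ ∪ ... ∪ B v_m`.
The following sets of `t` are finite: `{v_i}`; `{a v_i}`; `{t | t ⋖ v_i}` (at most one `t` for every `i`);
`{t | ∃ i j, ∃ u ≠ u', t ⋖ u ∧ u ≤ v_i ∧ t ⋖ u' ∧ u' ≤ v_j}` (at most one `t` for every `(i, j)`: if `t < t'` are two of
them, both `≤ v_i`, then `u ≤ t'` and `u' ≤ t'`, so `u`, `u'` are comparable); and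
`{t | c t = n ∧ ∃ i, ∃ u, t ⋖ u ∧ u ≤ v_i ∧ g n ≤ w u}` (at most one `t ≠ o` for every `i`: if `t < t'`, both `≤ v_i`, then `u ≤ t'`,
`g n ≤ w u ≤ w t' < g (c t') = g n`).
Let `t ≠ o`, `c t = n`, `t` in none of these sets, and `k` with `π k = t`. Claim `q (f k - κ t) ≤ (n + 3) θ < δ`.
If `u` is a successor of `t`, `u ∈ B v_i`: then `v_i` is not isolated (`u = v_i` covers `t`), `a v_i < u ≤ v_i`; `t` and `a v_i` are
comparable, `a v_i ≤ t` (`t < a v_i < u` is impossible), `a v_i ≠ t`, so `t ∈ B v_i`. Hence at most one `u ∈ F t` is in `Q` (two of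
them, in `B v_i` and `B v_j`, give the fourth exception; for the others `q (G u' - G o) < θ`).
If `u ∈ F t ∩ Q`: `q (f k - G v_i) < θ`, `q (G u - G v_i) < θ`, so `q (f k - κ t) < 2 θ + (n - 1) θ`.
If `F t ∩ Q = ∅`: `q (κ t - G o) ≤ n θ`. If `t ∉ Q` then `q (f k - G o) < θ`. If `t ∈ Q`, `t ∈ B v_i`, `t ≠ v_i`, so `v_i` is not
isolated and `t < v_i`; let `u` be the successor of `t` below `v_i`, `u ∈ B v_i`, so `q (f k - G u) < 2 θ`. By the last exception
`¬ g n ≤ w u`, so `w u = w t` (`g_le`), `u ∈ F t`, `u ∉ Q`, `q (G u - G o) < θ`, and `q (f k - G o) < 3 θ`. -/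
def St_TC : Prop :=
  ∀ (K L X : Type) [TopologicalSpace K] [CompactSpace K] [TopologicalSpace L] [CompactSpace L] [T2Space L]
    [PartialOrder L] [NormedAddCommGroup X] [NormedSpace ℝ X] (o : L) (w : L → ℝ) (F : L → Finset L) (c : L → ℕ)
    (g : ℕ → ℝ) (π : C(K, L)) (σ : L → K) (q : Seminorm ℝ X) (C : ℝ),
    TreeTop L o → Flow L o w F c g → (∀ y, π (σ y) = y) → 0 < C → (∀ x, q x ≤ C * ‖x‖) →
    (∀ y, ¬ IsOpen {y} → ∀ k l, π k = y → π l = y → k = l) →
    ∀ (f : C(K, X)) (n : ℕ) (δ : ℝ), 0 < δ →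
      {t : L | t ≠ o ∧ c t = n ∧ ∃ k, π k = t ∧ δ < q (f k - (f (σ o) + ∑ u ∈ F t, (f (σ u) - f (σ o))))}.Finite

/-- [TD] (2h) The supremum is attained at a point with positive flow.
PROOF. Let `κ s = G o + ∑ u ∈ F s, (G u - G o)`.
(1) Let `u ≠ o`, `0 < q (G u - G o)`. There is `s ≥ u` with `w s = w u` and `¬ Z s`. Otherwise let
`E = {x | u ≤ x ∧ w x = w u ∧ 0 < q (G x - G o)} ∋ u`; all `x ∈ E` have `Z x`, so `q (G x - κ x) = 0`. By `Flow.ever` there is `x ∈ E`
such that the elements of `E` above `x` are pairwise comparable. Let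
`S = {y | x ≤ y ∧ w y = w x ∧ ∀ z, x ≤ z → z ≤ y → q (G z - G x) = 0} ∋ x`. `S ⊆ E` (`q (G y - G o) = q (G x - G o) =: d > 0`), `S` is a
chain. (i) `S` has no greatest element: for `y ∈ S`, `q (G y - G o - ∑ u' ∈ F y, (G u' - G o)) = 0` and `q (G y - G o) > 0`, so
some `u' ∈ F y` has `q (G u' - G o) > 0`; all such `u'` are in `E` and above `x`, different successors of `y` are not
comparable, so there is exactly one, and `q (G y - G u') = 0`; every `z` with `x ≤ z ≤ u'` is `≤ y` or `= u'`; so `u' ∈ S`.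
(ii) `S ⊆ {y | d ≤ q (G y - G o)}`, a compact set without `o`; by (c) (see the head of this file) `S` has an upper bound `b ≠ o`;
let `m` be the least element of `{z | z ≤ b ∧ ∀ y ∈ S, y ≤ z}`. If `s < m` then there is `y ∈ S` with `s < y` (otherwise `s` would be an
upper bound, by comparability). `m ∉ S` by (i). So `m` is a limit node (`x < m`; if `s ⋖ m` take `y ∈ S`, `s < y ≤ m`, so `y = m`). All
`z` with `x ≤ z < m` are in `S`. `w m = w x` by `Flow.lim` and `mono`. `q (G m - G x) = 0`: by `base` and continuity, for every `e > 0`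
there is `s < m` with `q (G m - G z) < e` for `z ∈ Ioc s m`, and there is `z ∈ S`, `s < z < m`. So `m ∈ S`, contradiction.
(2) If `Φ o = P` we are done. Otherwise `Φ o < P`. `M = {y | Φ y = P}` is closed (`usc`) and not empty (`L` compact, `usc`, `P` is the
supremum), `o ∉ M`. Let `t` be a maximal element of `M` (c). If `¬ Z t` take `s = t` (`Lam.self`). Let `Z t`. Then
`P = Φ t ≤ (1 + η w t) q (κ t)`. If at most one `u ∈ F t` has `q (G u - G o) ≠ 0` then `q (κ t) = q (G u)` (if there is one) or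
`q (κ t) = q (G o)`; in the first case `P ≤ (1 + η w u) q (G u) ≤ Φ u ≤ P`, so `u ∈ M`, `t < u`, contradiction; in the second case
`P ≤ (1 + η w t) q (G o) ≤ (1 + η w o) q (G o) ≤ Φ o < P`. So there are `u₁ ≠ u₂` in `F t` with `q (G u_i - G o) > 0`, by (1) `s_i ≥ u_i`,
`w s_i = w u_i = w t`, `¬ Z s_i`, and `Lam.pair` gives the claim. -/
def St_TD : Prop :=
  ∀ (L X : Type) [TopologicalSpace L] [CompactSpace L] [T2Space L] [PartialOrder L] [NormedAddCommGroup X]
    [NormedSpace ℝ X] (o : L) (w : L → ℝ) (F : L → Finset L) (c : L → ℕ) (g : ℕ → ℝ) (lam : L → L → ℝ)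
    (q : Seminorm ℝ X) (C : ℝ) (G : C(L, X)) (Φ : L → ℝ) (Z : L → Prop) (η P : ℝ),
    TreeTop L o → Flow L o w F c g → Lam L o w F lam → 0 < C → (∀ x, q x ≤ C * ‖x‖) → 0 < η → 0 < P →
    (∀ y r, Φ y < r → ∀ᶠ z in 𝓝 y, Φ z < r) → (∀ y, Φ y ≤ P) → (∀ r, r < P → ∃ y, r < Φ y) →
    (∀ y, (1 + η * w y) * q (G y) ≤ Φ y) →
    (∀ s, s ≠ o → Z s → q (G s - (G o + ∑ u ∈ F s, (G u - G o))) = 0) →
    (∀ s, s ≠ o → Z s → Φ s ≤ (1 + η * w s) * q (G o + ∑ u ∈ F s, (G u - G o))) →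
    Φ o = P ∨ ∃ s t, s ≠ o ∧ t ≠ o ∧ 0 < lam s t ∧ Φ t = P ∧ ¬ Z s

/-- [TE] (2.5h; compare `SDN/CH2.lean`, the same structure) Fibres over a compactified tree.
PROOF. `w, F, c, g` from TA, `lam` from TB, `σ : L → K` a section of `π`. `X, q, C, ε` as in `GoodK`; `η = ε / 8`. For `y ∈ L` let `N y` be
the seminorm of `Good q (π ⁻¹' {y})` for `η` (`SDN.Fin_fibre`). `σ` is continuous: trivial at isolated points, and at the others the
fibre has one point (`π` is a closed map). So `G = f ∘ σ ∈ C(L, X)`. `κ s f = f (σ o) + ∑ u ∈ F s, (f (σ u) - f (σ o))`,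
`a s = (1 / 2) ^ c s / (8 * (c s + 2))`. Index set `Γ = L × L × Bool`, `i = (s, t, b)`:
`A i f = (1 + η w t) q (f (σ t))` or `(1 + η w t) N t f` (`b`); `J (o, o, b) = A (o, o, b)`; `J (s, t, b) f = lam s t * a s * N s (f - const (κ s f))`
if `s ≠ o` and `t ≠ o`; `J = 0` otherwise. `p` = the supremum of the `A i` (`SDN.CH_sup`). For `k ∈ K`, `y = π k`:
`q (f k) ≤ (1 + η) N y f ≤ (1 + η) p f ≤ 2 p f`. `J ≤ p`: `q (κ s f) ≤ p + 2 (card) p ≤ (1 + 2 c s) p`, so
`N s (f - κ) ≤ (1 + η) (3 + 2 c s) p f`.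
`c_0`: `δ < J (s, t, b) f`, `s, t ≠ o`, gives `δ < (1 / 2) ^ c s * p f`, so `c s ≤ n₀`; and `δ < N s (f - κ)`, so some `k` in the fibre has
`δ / 2 < q (f k - κ s f)`: by TC there are only finitely many `s`; and `δ < lam s t * p f`, finitely many `t` for every `s`.
Attained: TD with `Φ y = max ((1 + η w y) q (f (σ y))) ((1 + η w y) N y f)`, `Z s = (N s (f - const (κ s f)) = 0)`, `P = p f`. The
hypotheses: `usc` at `y`: `y` isolated is trivial; otherwise the fibre over `y` is `{σ y}`, and for `θ > 0` there is a neighbourhood `V`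
of `y` with `q (f k - f (σ y)) < θ` if `π k ∈ V`, and `w z ≤ w y` for `z ∈ V` (`V ⊆ Iic y` if `y ≠ o`; `w ≤ 1 = w o`), so for `z ∈ V`:
`N z f ≤ N z (f - const) + N z (const) ≤ 2 θ + q (f (σ y))`, `q (f (σ z)) ≤ θ + q (f (σ y))`, `Φ z ≤ (1 + η w y) q (f (σ y)) + 4 θ`.
`Z s`: `q (f (σ s) - κ) ≤ (1 + η) N s (f - κ) = 0`, `N s f ≤ N s (f - κ) + N s (const κ) = q κ`. In the first case of TD the index is
`(o, o, b)`, in the second `(s, t, b)`.
GTS with `η` gives `M`, `p ≤ M`, `(1 - η) M ≤ p`; NRM with `F = univ`, `v = σ o`, `e₁ = η`, `e₂ = (1 + η) ^ 2 / (1 - η) - 1`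
(`(1 + η) ^ 3 / (1 - η) ≤ 1 + ε`): `A i f ≤ (1 + η) ^ 2 r`. For constant `f = v`: `A i f = (1 + η w t) q v`, `J (o, o, b) f = A (o, o, b) f`, all other
`J i f = 0` (`κ s f = v`). -/
def St_TE : Prop :=
  ∀ (K L : Type) [TopologicalSpace K] [CompactSpace K] [TopologicalSpace L] [CompactSpace L] [T2Space L]
    [PartialOrder L] (o : L) (ρ : L → ℝ) (π : C(K, L)), TreeTop L o → GoodRho L o ρ → Function.Surjective π →
    (∀ y, IsOpen {y} → ∀ h : CompactSpace (π ⁻¹' {y}), @GoodK (π ⁻¹' {y}) _ h) →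
    (∀ y, ¬ IsOpen {y} → ∀ k l, π k = y → π l = y → k = l) → GoodK K

end TRE
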