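import Pool.Agent.TRE.Defs

/-!
# TRE: statements, second part (the class `GoodK` is not closed hereditary)

See the head of `St.lean` for standard facts on `TreeTop L o`.
-/

set_option autoImplicit false

namespace TRE

open Set Topology Filter SDN

/-- [PS] (1.5h) Private sequences.
PROOF. `X, q, C, ε` as in `GoodK`, `η = ε / 8`. Index set `Γ = Option (Y × ℕ × Bool)`: `A (y, n, false) f = q (f (a y))`,
`A (y, n, true) f = q (f (e y n))`, `J (y, n, b) f = (1 / 2) ^ n / 2 * q (f (e y n) - f o)`, `A none f = J none f = (1 + η) q (f o)`. `p` = the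
supremum of the `A i` (`SDN.CH_sup`); `q (f x) ≤ p f` for all `x ∈ K`, so `J ≤ p`. `c_0`: `δ < J (y, n, b) f` gives
`δ < (1 / 2) ^ n p f`, so `n ≤ n₀`; for every `n`: `f (e y n) → f o` along `cofinite`, so only finitely many `y`. Attained: `K` is
compact, so `q (f x)` has a maximum at some `x ∈ K`, `p f = max (q (f x)) ((1 + η) q (f o))`. If `p f = (1 + η) q (f o)` take `none`.
Otherwise `(1 + η) q (f o) < p f = q (f x)`, `x ≠ o`. If `x = e y n` take `(y, n, true)`: `q (f (e y n) - f o) ≥ p f - q (f o) > 0`. If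
`x = a y`: `q (f (e y n) - f o) → q (f (a y) - f o) > 0` for `n → ∞`, so `(y, n, false)` for some `n`. GTS with `η`, then NRM
(`F = univ`): `q (f x) ≤ p f ≤ M f`, `M f ≤ (1 + η) / (1 - η) r`; for constant `f = v` the `A i f`, `J i f` depend only on `q v`. -/
def St_PS : Prop :=
  ∀ (K Y : Type) [TopologicalSpace K] [CompactSpace K] (o : K) (a : Y → K) (e : Y → ℕ → K),
    (∀ x, x = o ∨ (∃ y, x = a y) ∨ ∃ y n, x = e y n) →
    (∀ y, Tendsto (e y) atTop (𝓝 (a y))) → (∀ n, Tendsto (fun y => e y n) cofinite (𝓝 o)) → GoodK K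

/-- [KO] (2h) Coherent finite-to-one functions on the branches of a tree.
PROOF. Recursion on `t` (`WellFounded.fix`): (i) if `t' ⋖ t` for some (unique, by comparability) `t'`: `k t s = k t' s` for `s < t`,
`k t t = 0`. (ii) if there is no `s < t`: `k t t = 0`. (iii) otherwise `Iio t` is countable, not empty, without greatest
element; choose an increasing sequence `τ : ℕ → Iio t` which is cofinal in `Iio t` (`τ n` = the greatest of the first
`n + 1` elements of an enumeration), and for `s < t` let `n s` be the least `n` with `s ≤ τ n`, `k t s = max (k (τ (n s)) s) (n s)`;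
`k t t = 0`. Induction on `t`: for all `t'' ≤ t` both claims hold (finite-to-one for `t`, coherence for `t'', t`). In case (iii):
finite-to-one: `k t s ≤ m` and `s < t` give `n s ≤ m` and `k (τ (n s)) s ≤ m`, finitely many `s` by induction.
Coherence for `τ j` and `t`: for `s ≤ τ j`: `n s ≤ j`; for every `i ≤ j`, `{s | n s = i}`: `k t s = max (k (τ i) s) i`, which is
`k (τ i) s` for all but finitely many `s`, and this is `k (τ j) s` for all but finitely many (induction for `τ i ≤ τ j < t`). For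
`t'' < t` take `j` with `t'' ≤ τ j`, and coherence for `t'', τ j`. -/
def St_KO : Prop :=
  ∀ (T : Type) [PartialOrder T], WellFounded ((· < ·) : T → T → Prop) →
    (∀ t r s : T, r ≤ t → s ≤ t → r ≤ s ∨ s ≤ r) → (∀ t : T, (Iic t).Countable) →
    ∃ k : T → T → ℕ, (∀ t (n : ℕ), {s | s ≤ t ∧ k t s ≤ n}.Finite) ∧
      ∀ t t' : T, t ≤ t' → {s | s ≤ t ∧ k t s ≠ k t' s}.Finite

/-- [KT] (2.5h) The extension of a compactified tree by private sequences.
PROOF. `T = {t : L // t ≠ o}`; KO gives `k` for `T`. `K = L ⊕ (T × ℕ)`. For `t ∈ T` let `V t = {inl s | s ≤ t} ∪ {inr (s, n) | s ≤ t, k t s ≤ n}`.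
Topology induced by `Ψ : K → (T → Prop) × (T × ℕ → Prop)`, `Ψ x = (x ∈ V ·, x = inr ·)` (or with `Bool`; discrete factors).
`Ψ` is injective (`inl t`, `t ≠ o`: `inl t ∈ V t'` iff `t ≤ t'`; `inl o` is in no `V t`; `inr (t, n)` is separated by the second
component), so `K` is Hausdorff. An ultrafilter `U` converges to `x` iff for all `t`: `V t ∈ U` iff `x ∈ V t`, and for all `(t, n)`:
`{inr (t, n)} ∈ U` iff `x = inr (t, n)`. Compactness: let `U` be an ultrafilter. If some `{inr (t, n)} ∈ U`, `U` converges to this point.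
Otherwise no finite set of such points is in `U`. If no `V t` is in `U`, `U` converges to `inl o`. Otherwise let `t₀` be minimal with
`V t₀ ∈ U`. Claim: `V t ∈ U` iff `t₀ ≤ t` (so `U` converges to `inl t₀`). If `t₀ ≤ t`: `V t₀ \ V t` consists of points `inr (s, n)` with
`s ≤ t₀`, `k t₀ s ≤ n < k t s`: finitely many, so `V t ∈ U`. If `¬ t₀ ≤ t` and `V t ∈ U`: `V t ∩ V t₀ ∈ U` is not empty, so there is
`s ≤ t, t₀`. `Iic t ∩ Iic t₀` is compact, so it has a maximal element `m` (fact (c)), which is its greatest element by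
comparability (`Iic t₀` is a chain); `m < t₀`. `V t ∩ V t₀ \ V m` consists of points `inr (s, n)` with `s ≤ m`, `k t s ≤ n`,
`n < k m s`: finitely many (`k t s = k m s` for all but finitely many `s ≤ m`). So `V m ∈ U`, contradiction to the minimality.
`j = inl` is continuous: `{l | inl l ∈ V t} = Iic t` is clopen. `e t n = inr (t, n)`, `{inr (t, n)}` is open. `e t n → j t` for `n → ∞`:
`inr (t, n) ∈ V t'` iff `t ≤ t'` and `k t' t ≤ n`. `e t n → j o` along `cofinite` (in `t`): for every `t'`,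
`{t | t ≤ t' ∧ k t' t ≤ n}` is finite. -/
def St_KT : Prop :=
  ∀ (L : Type) [TopologicalSpace L] [CompactSpace L] [T2Space L] [PartialOrder L] (o : L),
    TreeTop L o → (∀ t, t ≠ o → (Iic t).Countable) →
    ∃ (K : Type) (_ : TopologicalSpace K) (_ : CompactSpace K) (_ : T2Space K) (j : C(L, K))
      (e : {t : L // t ≠ o} → ℕ → K), Function.Injective j ∧
      (∀ x, (∃ l, x = j l) ∨ ∃ t n, x = e t n) ∧ (∀ t n, IsOpen {e t n}) ∧
      (∀ t, Tendsto (e t) atTop (𝓝 (j t.1))) ∧ ∀ n, Tendsto (fun t => e t n) cofinite (𝓝 (j o))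

/-- [LT] (2h) Compactified trees from ordered sets.
PROOF. `L = Option T`, `o = none`, order: `some s ≤ some t` iff `s ≤ t`, `none ≤ none`, nothing else. Topology induced by
`Ψ : L → (T → Prop)`, `Ψ x t = (∃ s ≤ t, x = some s)`. Injective, so Hausdorff. Compact by ultrafilters: `U` converges to `x` iff for all
`t`: `Iic (some t) ∈ U` iff `x ≤ some t`. If no `Iic (some t)` is in `U`: limit `none`. Otherwise let `t₀` be minimal with
`Iic (some t₀) ∈ U`. If `t₀ ≤ t` then `Iic (some t) ∈ U`. If `¬ t₀ ≤ t` and `Iic (some t) ∈ U` then `Iic (some t) ∩ Iic (some t₀) ∈ U` is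
not empty, it is `Iic (some m)`, `m` the greatest common lower bound, `m < t₀`, contradiction. `TreeTop`: `clopen` is clear. `base`: let
`V ∈ 𝓝 (some t)`. There is a finite set `A` of `T` such that all `x` with (`x ≤ some r` iff `some t ≤ some r`) for all `r ∈ A` are in
`V`. For `r ∈ A` with `¬ t ≤ r`: `Iic t ∩ Iic r` is empty or `= Iic (m r)`, `m r < t`. If there is no `s < t` we are done. Otherwise
let `s < t` be the greatest of finitely many `m r` and one element `< t` (chain). Then `Ioc (some s) (some t) ⊆ V`: for `x` in this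
interval, `x ≤ some r` if `t ≤ r`, and if `¬ t ≤ r` then `x ≤ some r` would give `x ≤ m r ≤ s`. -/
def St_LT : Prop :=
  ∀ (T : Type) [PartialOrder T], WellFounded ((· < ·) : T → T → Prop) →
    (∀ t r s : T, r ≤ t → s ≤ t → r ≤ s ∨ s ≤ r) →
    (∀ t t' : T, (∃ s, s ≤ t ∧ s ≤ t') → ∃ m, m ≤ t ∧ m ≤ t' ∧ ∀ s, s ≤ t → s ≤ t' → s ≤ m) →
    ∃ (L : Type) (_ : TopologicalSpace L) (_ : CompactSpace L) (_ : T2Space L) (_ : PartialOrder L) (o : L) (i : T → L),
      TreeTop L o ∧ (∀ t, i t ≠ o) ∧ (∀ x, x ≠ o → ∃ t, x = i t) ∧ ∀ s t, i s ≤ i t ↔ s ≤ t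

/-- [TT] (1.5h) The infinitely branching tree of height `ω₁`.
PROOF. `W = (Ordinal.omega 1).ToType` (or `Cardinal.aleph 1 |>.ord.ToType`), a well-ordered type: all `Iio a` are countable, every
countable subset is bounded, no greatest element. `T = Σ a : W, (Iio a → ℕ)`, `(a, x) ≤ (b, y)` iff `a ≤ b` and `y` extends `x`. Well-founded
by the first component. Chain: restrictions of the same function. Greatest common lower bound of `(a, x)`, `(b, y)`: `(m, x|)` with `m` the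
least of `a`, `b` and the places where `x` and `y` differ. `Iic (a, x)` is in bijection with `Iic a`. Successors of `(a, x)`:
`(succ a, x ∪ {(a, i)})`, `i ∈ ℕ`, infinitely many. Least upper bound of an increasing sequence `(a n, x n)`: `a` = the least upper
bound of the `a n`, and the common extension (every `b < a` is `< a n` for some `n`). -/
def St_TT : Prop :=
  ∃ (T : Type) (_ : PartialOrder T), Nonempty T ∧ WellFounded ((· < ·) : T → T → Prop) ∧
    (∀ t r s : T, r ≤ t → s ≤ t → r ≤ s ∨ s ≤ r) ∧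
    (∀ t t' : T, (∃ s, s ≤ t ∧ s ≤ t') → ∃ m, m ≤ t ∧ m ≤ t' ∧ ∀ s, s ≤ t → s ≤ t' → s ≤ m) ∧
    (∀ t : T, (Iic t).Countable) ∧ (∀ t : T, {u | t ⋖ u}.Infinite) ∧
    ∀ s : ℕ → T, Monotone s → ∃ b, IsLUB (range s) b

/-- the trees of [TT], compactified -/
structure Full (L : Type) [TopologicalSpace L] [PartialOrder L] (o : L) : Prop where
  top : TreeTop L o
  inf : ∀ t : L, t ≠ o → {u | t ⋖ u}.Infinite
  sup : ∀ s : ℕ → L, Monotone s → (∀ n, s n ≠ o) → ∃ b, b ≠ o ∧ IsLUB (range s) b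

/-- a state: `f` lives on the branch below `t`, `0 ≤ f ≤ 1`, `f t = 1` -/
def State {L : Type} [TopologicalSpace L] [PartialOrder L] (o : L) (f : C(L, ℝ)) (t : L) : Prop :=
  t ≠ o ∧ (∀ x, ¬ x ≤ t → f x = 0) ∧ (∀ x, 0 ≤ f x ∧ f x ≤ 1) ∧ f t = 1

/-- a stable state: continuing `f` by `1` up to any `u ≥ t` and by any `φ` above `u` does not decrease the norm, and continuing
by `1` does not change it -/
def Stable {L : Type} [TopologicalSpace L] [PartialOrder L] (N : C(L, ℝ) → ℝ) (f : C(L, ℝ)) (t : L) : Prop :=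
  ∀ u, t ≤ u → N (f + chi t u) = N f ∧ ∀ φ : C(L, ℝ), (∀ x, ¬ u < x → φ x = 0) → N f ≤ N (f + chi t u + φ)

/-- the order of the states -/
def Ext {L : Type} [TopologicalSpace L] [PartialOrder L] (N : C(L, ℝ) → ℝ) (f : C(L, ℝ)) (t : L) (f' : C(L, ℝ)) (t' : L) :
    Prop :=
  t ≤ t' ∧ 0 < f' t ∧ (∀ x, x ≤ t → f' x = f' t * f x) ∧ (∀ x, t ≤ x → x ≤ t' → f' t ≤ f' x) ∧
    N f' ≤ Real.sqrt (f' t) * N f

/-- [G1] (2h) Every state can be continued to a stable state.
PROOF. `f^u = f + chi t u` for `u ≥ t` (`chi t u` is the indicator function of `Ioc t u`; for `t ≤ u ≤ u'`: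
`chi t u' = chi t u + chi u u'`). `r u = ⨅ φ, N (f^u + φ)` over all `φ` with `φ x = 0` unless `u < x`. `r` is increasing on `Ici t` (for `u ≤ u'`,
`f^{u'} + φ' = f^u + (chi u u' + φ')`) and `0 ≤ r u ≤ N (f^u) ≤ b`. Stabilization: let `M u = ⨆ v : Ici u, r v`; choose `t = t₀ ≤ t₁ ≤ ...`
with `r (t_{n+1}) > M (t_n) - 1 / (n + 1)`, `t'` = the least upper bound; then `r t' ≥ M t'`, so `r u = r t' =: c` for all `u ≥ t'`.
Claim `N (f^u) = c` for `u ≥ t'`: `≥` is clear. Let `m ≥ 1` and `u₁, ..., u_m` different successors of `u`; `r (u_i) = c`, so there is `φ_i`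
(zero unless `u_i < x`) with `N (f^{u_i} + φ_i) ≤ c + 1 / m`. `f^{u_i} = f^u + chi u u_i` and `chi u u_i` is the indicator function of
`{u_i}`. `ψ_i = chi u u_i + φ_i` vanishes off `Ici u_i`, these sets are disjoint, `‖ψ_i‖ ≤ B = (c + 1) / a + 1` (`‖f^{u_i} + φ_i‖ ≤ (c + 1) / a`, and it is
`φ_i` above `u_i`). The mean of the `f^{u_i} + φ_i` is `f^u + (1 / m) ∑ ψ_i`, so `N (f^u) ≤ c + 1 / m + b B / m`; `m → ∞`.
So `f' = f^{t'}` is stable at `t'`: `f' + chi t' u = f^u` for `u ≥ t'`. -/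
def St_G1 : Prop :=
  ∀ (L : Type) [TopologicalSpace L] [CompactSpace L] [T2Space L] [PartialOrder L] (o : L) (N : Seminorm ℝ C(L, ℝ))
    (a b : ℝ), Full L o → 0 < a → (∀ f, a * ‖f‖ ≤ N f ∧ N f ≤ b * ‖f‖) →
    ∀ (f : C(L, ℝ)) (t : L), State o f t → ∃ t', t ≤ t' ∧ Stable N (f + chi t t') t'

/-- [G2] (2h) Limits of sequences of stable states.
PROOF. `Ext` is transitive: let `(f₁, t₁), (f₂, t₂), (f₃, t₃)`. `x ≤ t₁`: `f₃ x = f₃ t₂ * f₂ x = f₃ t₂ * f₂ t₁ * f₁ x` and
`f₃ t₁ = f₃ t₂ * f₂ t₁`. `t₁ ≤ x ≤ t₃`: `x ≤ t₂`: `f₃ x = f₃ t₂ * f₂ x ≥ f₃ t₁`; `t₂ ≤ x`: `f₃ x ≥ f₃ t₂ ≥ f₃ t₁`. The norm: `√` is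
multiplicative. Let `α m n = f_n (t_m)` for `m ≤ n` (in `(0, 1]`, `α m m = 1`), `α m n * α n l = α m l`, `f_n x = α m n * f_m x` for `x ≤ t_m`, and
`α m n ≤ f_n x` for `t_m ≤ x ≤ t_n`. `a ≤ a ‖f_n‖ ≤ N f_n ≤ √(α 0 n) N f₀`, so `α 0 n ≥ (a / N f₀)² > 0`; `α m n` decreases in `n`, its limit is
`A m = A 0 / α 0 m > 0`, and `A m → 1`. `t' =` the least upper bound of the `t_n`. `g_n = f_n + chi t_n t'`. For `n ≤ m`:
`‖g_m - g_n‖ ≤ 1 - α n m ≤ 1 - A n` (`x ≤ t_n`: `|α n m - 1| f_n x`; `t_n < x ≤ t_m`: `g_n x = 1`, `α n m ≤ g_m x ≤ 1`; otherwise equal). So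
`g_n → g` uniformly, `g x = A n * f_n x` for `x ≤ t_n`, `0 ≤ g ≤ 1`, `g = 0` off `Iic t'`, `g t' = 1`. By G1 there is `t'' ≥ t'` with
`f = g + chi t' t''` stable at `t''`. `Ext (f_n, t_n) (f, t'')`: `f t_n = A n > 0` (if `t_n = t'` also: `g t' = 1 = A n`); `x ≤ t_n`: `f x = A n * f_n x`;
`t_n ≤ x ≤ t''`: if `x ≤ t_m` for some `m ≥ n`: `f x = A m * f_m x ≥ A m * α n m = A n`; if `x ≤ t'` but not `≤` any `t_m` then
`x = t'`, `f x = 1`; if not `x ≤ t'`: `f x = 1`. Norm: for `m ≥ n`, `g_m + chi t' t'' = f_m + chi t_m t''`, so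
`N f ≤ N (f_m + chi t_m t'') + b ‖g - g_m‖ ≤ N f_m + b (1 - A m) ≤ √(α n m) N f_n + b (1 - A m)`; `m → ∞`. -/
def St_G2 : Prop :=
  ∀ (L : Type) [TopologicalSpace L] [CompactSpace L] [T2Space L] [PartialOrder L] (o : L) (N : Seminorm ℝ C(L, ℝ))
    (a b : ℝ), Full L o → 0 < a → (∀ f, a * ‖f‖ ≤ N f ∧ N f ≤ b * ‖f‖) →
    ∀ (f : ℕ → C(L, ℝ)) (t : ℕ → L), (∀ n, State o (f n) (t n)) → (∀ n, Stable N (f n) (t n)) →
      (∀ n, Ext N (f n) (t n) (f (n + 1)) (t (n + 1))) →
      ∃ (f' : C(L, ℝ)) (t' : L), State o f' t' ∧ Stable N f' t' ∧ ∀ n, Ext N (f n) (t n) f' t'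

/-- [G3] (2h; uses that `Ext` is transitive, prove it again) No smooth norm on the full tree (Haydon 1990; another proof).
PROOF. Suppose that `s ↦ N (f + s h)` is differentiable at `0` for all `f ≠ 0` and all `h`.
(1) There is a stable state `(f, t)` such that `N f' = N f` for all stable states `(f', t')` with `Ext (f, t) (f', t')`. There is a
stable state: `L` has a point `t₀ ≠ o`, take it minimal, `f = chi`-like: the indicator function of the clopen set `Iic t₀ = {t₀}`, and G1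
(`(f + chi t t', t')` is a state). If `Ext (f, t) (f', t')`, both stable states: `N f' ≤ N f` (`f' t ≤ 1`). Choose stable states `(f_n, t_n)`,
`Ext (f_n, t_n) (f_{n+1}, t_{n+1})`, with `N f_{n+1} ≤ inf + 1 / (n + 1)`, `inf` over the `N f'` of all stable `(f', t')` with
`Ext (f_n, t_n) (f', t')` (`≥ 0`, and `(f_n, t_n)` itself is one). The limit state of G2 has the property: for `(f', t')` above it,
`N f' ≥ N f_{n+1} - 1 / (n + 1) ≥ N f - 1 / (n + 1)` for all `n`.
(2) Let `t₁` be a successor of `t`, `s_n = 1 / (n + 1)`, `a_n = 1 / (1 + s_n)`. There are `t₁ ≤ u₀ ≤ u₁ ≤ ...` such that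
`(a_n f + chi t u_n, u_n)` is a stable state (G1 for the state `(a_n f + chi t u_{n-1}, u_{n-1})`, and
`chi t u + chi u u' = chi t u'`). Let `u` be the least upper bound. If `(g, v)` is stable and `v ≤ u` then `(g + chi v u, u)` is stable. So all
`(a_n f + chi t u, u)` are stable states. Let `h = chi t u`, `f₁ = f + h ≠ 0`, `c = N f > 0`, `θ s = N (f₁ + s h)`. For `s ∈ [-1, 0]`:
`f₁ + s h = (1 + s) f₁ + (-s) f`, so `θ s ≤ c` (`N f₁ = c`, stability of `(f, t)`), and `θ s ≥ c`: `f₁ + s h = f + (1 + s) h`, and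
`(1 + s) h` vanishes unless `t < x` (stability at `u = t`; `chi t t = 0`). So `θ` has derivative `0` at `0`, and
there is `n` with `θ (s_n) ≤ c (1 + s_n / 4)`. `a_n f + h = a_n (f₁ + s_n h)`, so
`N (a_n f + h) ≤ a_n c (1 + s_n / 4) ≤ √a_n c` (`(1 + s / 4)² ≤ 1 + s` for `0 ≤ s ≤ 1`). So
`Ext (f, t) (a_n f + h, u)` (`(a_n f + h) t = a_n`), and `N (a_n f + h) ≤ √a_n c < c`, contradiction to (1). -/
def St_G3 : Prop :=
  ∀ (L : Type) [TopologicalSpace L] [CompactSpace L] [T2Space L] [PartialOrder L] (o : L) (N : Seminorm ℝ C(L, ℝ))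
    (a b : ℝ), Full L o → (∃ t : L, t ≠ o) → 0 < a → (∀ f, a * ‖f‖ ≤ N f ∧ N f ≤ b * ‖f‖) →
    ∃ f : C(L, ℝ), f ≠ 0 ∧ ∃ h : C(L, ℝ), ¬ DifferentiableAt ℝ (fun s : ℝ => N (f + s • h)) 0

/-- [FB] (1h) The final theorem of the second part.
PROOF. KT and PS give `K` with `GoodK K`: `Y = {t : L // t ≠ o}`, `a t = j t`. A point off `range j` is some `e t n`. `Scat K`: let `S` be a
nonempty subset. If some `e t n ∈ S`, it is isolated. Otherwise `S = j '' S'`. If `S' ⊆ {o}`, clear. Otherwise let `t ∈ S'`, `t ≠ o`, be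
minimal; `Iic t` is open in `L`, `j` is a closed embedding, so `{x | x ∉ j '' (Iic t)ᶜ}` is an open neighbourhood of `j t` whose only
point in `S` is `j t` (by minimality). Second claim: TT, LT and G3. -/
def St_FB2 : Prop :=
  (∀ (L : Type) [TopologicalSpace L] [CompactSpace L] [T2Space L] [PartialOrder L] (o : L),
    TreeTop L o → (∀ t, t ≠ o → (Iic t).Countable) →
    ∃ (K : Type) (_ : TopologicalSpace K) (_ : CompactSpace K) (_ : T2Space K) (j : C(L, K)),
      Function.Injective j ∧ (∀ x, x ∉ range j → IsOpen {x}) ∧ Scat K ∧ GoodK K) ∧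
  ∃ (L : Type) (_ : TopologicalSpace L) (_ : CompactSpace L) (_ : T2Space L) (_ : PartialOrder L) (o : L),
    TreeTop L o ∧ (∀ t, t ≠ o → (Iic t).Countable) ∧
    ∀ (N : Seminorm ℝ C(L, ℝ)) (a b : ℝ), 0 < a → (∀ f, a * ‖f‖ ≤ N f ∧ N f ≤ b * ‖f‖) →
      ∃ f : C(L, ℝ), f ≠ 0 ∧ ∃ h : C(L, ℝ), ¬ DifferentiableAt ℝ (fun s : ℝ => N (f + s • h)) 0

end TRE
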