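import Pool.Agent.TRE.St
import Pool.Agent.TRE.Base

/-!
# TRE: normalization of the function `ρ`
-/

set_option autoImplicit false

namespace TRE

open Set Topology Filter SDN

/-- a strictly increasing function with values in `(0, 1)` -/
noncomputable def TAx.h (x : ℝ) : ℝ := 1 / 2 + Real.arctan x / Real.pi

theorem TAx.h_mono : StrictMono TAx.h := by
  intro x y hxy
  unfold TAx.h
  have := div_lt_div_of_pos_right (Real.arctan_strictMono hxy) Real.pi_pos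
  linarith

theorem TAx.h_pos (x : ℝ) : 0 < TAx.h x := by
  unfold TAx.h
  have h1 := Real.neg_pi_div_two_lt_arctan x
  have h2 : -(1 / 2 : ℝ) < Real.arctan x / Real.pi := by
    rw [lt_div_iff₀ Real.pi_pos]
    linarith
  linarith

theorem TAx.h_lt (x : ℝ) : TAx.h x < 1 := by
  unfold TAx.h
  have h1 := Real.arctan_lt_pi_div_two x
  have h2 : Real.arctan x / Real.pi < 1 / 2 := by
    rw [div_lt_iff₀ Real.pi_pos]
    linarith
  linarith

/-- the limit nodes -/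
def TAx.Lim {L : Type} [PartialOrder L] (t : L) : Prop := (∃ s, s < t) ∧ ∀ s, ¬ s ⋖ t

/-- the least point below `y₁` which is not below `y₂` -/
theorem TAx.split {L : Type} [TopologicalSpace L] [PartialOrder L] {o : L} (hT : TreeTop L o) {y y₁ y₂ : L} (hy : y ≠ o)
    (h1 : y ≤ y₁) (h2 : y ≤ y₂) (hne : ¬ y₁ ≤ y₂) : ∃ u, (∃ s, s ⋖ u) ∧ y < u ∧ u ≤ y₁ ∧ ¬ u ≤ y₂ := by
  obtain ⟨u, ⟨hu1, hu2⟩, hu3⟩ := hT.wf.has_min {z | z ≤ y₁ ∧ ¬ z ≤ y₂} ⟨y₁, le_rfl, hne⟩
  have hyu : y < u := by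
    rcases hT.chain y₁ y u h1 hu1 with h3 | h3
    · rcases h3.lt_or_eq with h4 | h4
      · exact h4
      · exact absurd (h4 ▸ h2) hu2
    · exact absurd (h3.trans h2) hu2
  refine ⟨u, ?_, hyu, hu1, hu2⟩
  by_contra hcon
  push Not at hcon
  have huo : u ≠ o := hT.ne_of_le hyu.le hy
  have hy2o : y₂ ≠ o := hT.ne_of_le h2 hy
  have hV : (Iic y₂)ᶜ ∈ 𝓝 u := (hT.clopen y₂ hy2o).isClosed.isOpen_compl.mem_nhds hu2
  rcases hT.base u huo _ hV with ⟨s, hs, hsV⟩ | h3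
  · have h4 := hcon s
    have h5 : ∃ z, s < z ∧ z < u := by
      by_contra h6
      push Not at h6
      exact h4 ⟨hs, fun z h7 h8 => h6 z h7 h8⟩
    obtain ⟨z, hz1, hz2⟩ := h5
    have h6 : z ∈ (Iic y₂)ᶜ := hsV ⟨hz1, hz2.le⟩
    apply h6
    by_contra h7
    exact hu3 z ⟨hz2.le.trans hu1, h7⟩ hz2
  · exact h3 y hyu

theorem thm_TA : St_TA := by
  classical
  intro L _ _ _ _ o ρ hT hρ
  obtain ⟨ρ₁, hρ₁⟩ : ∃ ρ₁ : L → ℝ, ρ₁ = fun t => TAx.h (ρ t) := ⟨_, rfl⟩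
  have hr0 : ∀ t, 0 < ρ₁ t := fun t => by rw [hρ₁]; exact TAx.h_pos _
  have hr1 : ∀ t, ρ₁ t < 1 := fun t => by rw [hρ₁]; exact TAx.h_lt _
  have hrm : ∀ s t, s ≤ t → ρ₁ s ≤ ρ₁ t := by
    intro s t hst
    rw [hρ₁]
    exact TAx.h_mono.monotone (hρ.mono s t hst)
  have hbdd : ∀ t, BddAbove (ρ₁ '' Iio t) := by
    intro t
    refine ⟨1, ?_⟩
    rintro _ ⟨s, _, rfl⟩
    exact (hr1 s).le
  obtain ⟨w, hw⟩ : ∃ w : L → ℝ, w = fun t => if t = o then 1 else if TAx.Lim t then sSup (ρ₁ '' Iio t) else ρ₁ t :=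
    ⟨_, rfl⟩
  have w1 : ∀ t, t ≠ o → w t ≤ ρ₁ t := by
    intro t ht
    rw [hw]
    dsimp only
    rw [if_neg ht]
    split_ifs with h
    · obtain ⟨s, hs⟩ := h.1
      refine csSup_le ⟨ρ₁ s, s, hs, rfl⟩ ?_
      rintro _ ⟨s, hs, rfl⟩
      exact hrm s t (le_of_lt hs)
    · exact le_rfl
  have w2 : ∀ s t, t ≠ o → s < t → ρ₁ s ≤ w t := by
    intro s t ht hst
    rw [hw]
    dsimp only
    rw [if_neg ht]
    split_ifs with h
    · exact le_csSup (hbdd t) ⟨s, hst, rfl⟩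
    · exact hrm s t hst.le
  have w3 : ∀ t, t ≠ o → ¬ TAx.Lim t → w t = ρ₁ t := by
    intro t ht h
    rw [hw]
    dsimp only
    rw [if_neg ht, if_neg h]
  have w4 : ∀ t, t ≠ o → TAx.Lim t → ∀ r, (∀ s, s < t → ρ₁ s ≤ r) → w t ≤ r := by
    intro t ht h r hr
    rw [hw]
    dsimp only
    rw [if_neg ht, if_pos h]
    obtain ⟨s, hs⟩ := h.1
    refine csSup_le ⟨ρ₁ s, s, hs, rfl⟩ ?_
    rintro _ ⟨s, hs, rfl⟩
    exact hr s hs
  have wo : w o = 1 := by
    rw [hw]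
    dsimp only
    rw [if_pos rfl]
  have wmono : ∀ s t, s ≤ t → w s ≤ w t := by
    intro s t hst
    rcases hst.lt_or_eq with h | h
    · have hto : t ≠ o := by
        intro h1
        have h2 : s = o := hT.dn s (h1 ▸ hst)
        rw [h1, h2] at h
        exact lt_irrefl _ h
      exact (w1 s (hT.ne_of_ge hst hto)).trans (w2 s t hto h)
    · rw [h]
  have wnn : ∀ t, 0 ≤ w t := by
    intro t
    by_cases ht : t = o
    · rw [ht, wo]
      exact zero_le_one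
    · by_cases h : TAx.Lim t
      · obtain ⟨s, hs⟩ := h.1
        exact (hr0 s).le.trans (w2 s t ht hs)
      · rw [w3 t ht h]
        exact (hr0 t).le
  have wle : ∀ t, w t ≤ 1 := by
    intro t
    by_cases ht : t = o
    · rw [ht, wo]
    · exact (w1 t ht).trans (hr1 t).le
  have hsucc : ∀ t u, t ≠ o → t ⋖ u → w u = ρ₁ u := by
    intro t u ht hu
    exact w3 u (hT.ne_of_le hu.le ht) (fun h => h.2 t hu)
  -- the finite sets and the gaps
  have hFr : ∀ t, ∃ (Ft : Finset L) (r : ℚ), t ≠ o → (∀ u, u ∈ Ft ↔ t ⋖ u ∧ w u = w t) ∧ w t < r ∧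
      ∀ u, t ⋖ u → w u = w t ∨ (r : ℝ) ≤ w u := by
    intro t
    by_cases ht : t = o
    · exact ⟨∅, 0, fun h => absurd ht h⟩
    obtain ⟨ε, hε, hfin⟩ := hρ.bad t ht
    have hε1 : 0 < TAx.h (ρ t + ε) - TAx.h (ρ t) := by
      have := TAx.h_mono (show ρ t < ρ t + ε by linarith)
      linarith
    have hA : {u : L | t ⋖ u ∧ w u < w t + (TAx.h (ρ t + ε) - TAx.h (ρ t))}.Finite := by
      refine hfin.subset ?_
      rintro u ⟨hu1, hu2⟩
      refine ⟨hu1, ?_⟩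
      rw [hsucc t u ht hu1] at hu2
      have h1 := w1 t ht
      rw [hρ₁] at h1 hu2
      dsimp only at h1 hu2
      by_contra h2
      push Not at h2
      have h3 := TAx.h_mono.monotone h2
      linarith
    have h1 : ∀ᶠ m in 𝓝[>] (w t), ∀ u ∈ {u : L | t ⋖ u ∧ w u < w t + (TAx.h (ρ t + ε) - TAx.h (ρ t))},
        w u ≠ w t → m ≤ w u := by
      rw [Filter.eventually_all_finite hA]
      intro u hu
      by_cases h2 : w u = w t
      · exact Eventually.of_forall fun m h3 => absurd h2 h3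
      · have h3 : w t < w u := lt_of_le_of_ne (wmono t u hu.1.le) (Ne.symm h2)
        filter_upwards [mem_nhdsWithin_of_mem_nhds (Iio_mem_nhds h3)] with m hm _
        exact le_of_lt hm
    have h2 : ∀ᶠ m in 𝓝[>] (w t), m < w t + (TAx.h (ρ t + ε) - TAx.h (ρ t)) :=
      mem_nhdsWithin_of_mem_nhds (Iio_mem_nhds (by linarith))
    obtain ⟨m, ⟨hm1, hm2⟩, hm3⟩ := ((h1.and h2).and self_mem_nhdsWithin).exists
    have hm3' : w t < m := hm3
    obtain ⟨r, hr1, hr2⟩ := exists_rat_btwn hm3'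
    refine ⟨(hA.toFinset).filter (fun u => w u = w t), r, fun _ => ⟨?_, hr1, ?_⟩⟩
    · intro u
      rw [Finset.mem_filter, Set.Finite.mem_toFinset]
      constructor
      · rintro ⟨h3, h4⟩
        exact ⟨h3.1, h4⟩
      · rintro ⟨h3, h4⟩
        refine ⟨⟨h3, ?_⟩, h4⟩
        rw [h4]
        linarith
    · intro u hu
      by_cases h3 : w u = w t
      · exact Or.inl h3
      · right
        by_cases h4 : w u < w t + (TAx.h (ρ t + ε) - TAx.h (ρ t))
        · exact hr2.le.trans (hm1 u ⟨hu, h4⟩ h3)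
        · push Not at h4
          linarith
  choose F r hFr using hFr
  have hg : ∀ t, (fun n : ℕ => (((Encodable.decode (α := ℚ) (Nat.unpair n).1).getD 0 : ℚ) : ℝ))
      (Nat.pair (Encodable.encode (r t)) (F t).card) = r t := by
    intro t
    dsimp only
    rw [Nat.unpair_pair]
    dsimp only
    rw [Encodable.encodek, Option.getD_some]
  refine ⟨w, F, fun t => Nat.pair (Encodable.encode (r t)) (F t).card,
    fun n => (((Encodable.decode (α := ℚ) (Nat.unpair n).1).getD 0 : ℚ) : ℝ), ?_⟩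
  refine ⟨wnn, wle, wo, wmono, fun t ht => (hFr t ht).1, fun t => Nat.right_le_pair _ _, ?_, ?_, ?_, ?_⟩
  · intro t ht
    exact (hFr t ht).2.1.trans_eq (hg t).symm
  · intro t ht u hu
    refine ((hFr t ht).2.2 u hu).imp id (fun h => ?_)
    exact (hg t).trans_le h
  · intro t ht hlim hex r' hr'
    refine w4 t ht ⟨hex, hlim⟩ r' ?_
    intro s hs
    have h5 : ∃ z, s < z ∧ z < t := by
      by_contra h6
      push Not at h6
      exact hlim s ⟨hs, fun z h7 h8 => h6 z h7 h8⟩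
    obtain ⟨z, hz1, hz2⟩ := h5
    exact (w2 s z (hT.ne_of_ge hz2.le ht) hz1).trans (hr' z hz2)
  · intro E hE hb
    by_contra hcon
    push Not at hcon
    have hEo : ∀ x ∈ E, x ≠ o := by
      intro x hx h
      obtain ⟨y, hy, z, hz, hxy, hxz, h1, h2⟩ := hb x hx
      have h3 : y = o := hT.up y (h ▸ hxy)
      have h4 : z = o := hT.up z (h ▸ hxz)
      exact h1 (by rw [h3, h4])
    obtain ⟨x₀, hx₀⟩ := hE
    have hC : ∀ u x y, x ∈ E → y ∈ E → x < u → u ≤ y → w u = w x₀ := by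
      intro u x y hx hy hxu huy
      have h1 := wmono x u hxu.le
      have h2 := wmono u y huy
      have h3 := hcon x hx x₀ hx₀
      have h4 := hcon y hy x₀ hx₀
      linarith
    obtain ⟨x', hx', y', hy', hne⟩ := hρ.ever
      {u | (∃ s, s ⋖ u) ∧ ∃ x ∈ E, ∃ y ∈ E, x < u ∧ u ≤ y} (by
        obtain ⟨y, hy, z, hz, hxy, hxz, h1, h2⟩ := hb x₀ hx₀
        have h3 : x₀ < y := by
          rcases hxy.lt_or_eq with h4 | h4
          · exact h4
          · exact absurd (h4 ▸ hxz) h1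
        obtain ⟨u, hu1, hu2⟩ := hT.exists_succ h3
        exact ⟨u, ⟨x₀, hu1⟩, x₀, hx₀, y, hy, hu1.lt, hu2⟩) (by
        rintro u ⟨-, x, hx, y, hy, hxu, huy⟩
        obtain ⟨y₁, hy₁, y₂, hy₂, h1, h2, h3, h4⟩ := hb y hy
        obtain ⟨u₁, ha1, ha2, ha3, ha4⟩ := TAx.split hT (hEo y hy) h1 h2 h3
        obtain ⟨u₂, hb1, hb2, hb3, hb4⟩ := TAx.split hT (hEo y hy) h2 h1 h4
        refine ⟨u₁, ⟨ha1, y, hy, y₁, hy₁, ha2, ha3⟩, u₂, ⟨hb1, y, hy, y₂, hy₂, hb2, hb3⟩, huy.trans ha2.le,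
          huy.trans hb2.le, ?_, ?_⟩
        · intro h5
          exact ha4 (h5.trans hb3)
        · intro h5
          exact hb4 (h5.trans ha3))
    have key : ∀ u ∈ {u | (∃ s, s ⋖ u) ∧ ∃ x ∈ E, ∃ y ∈ E, x < u ∧ u ≤ y}, TAx.h (ρ u) = w x₀ := by
      rintro u ⟨⟨s, hs⟩, x, hx, y, hy, hxu, huy⟩
      have h1 := hC u x y hx hy hxu huy
      have h2 := w3 u (hT.ne_of_ge huy (hEo y hy)) (fun h => h.2 s hs)
      rw [hρ₁] at h2
      rw [← h1, h2]
    exact hne (TAx.h_mono.injective ((key x' hx').trans (key y' hy').symm))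

end TRE
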